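import Mathlib

/-!
# Model-theoretic definitions: dp-minimality, distality, types over a model, forking
-/

set_option autoImplicit false

namespace Pool.Agent.H440Z.MT

open FirstOrder FirstOrder.Language

universe u v

/-- The complete theory of `M` is dp-minimal: in no model `N` of it are there formulas
`φ(x; y)`, `ψ(x; z)` with `x` a single variable and sequences `(a_i)`, `(c_j)` such that for all
`i, j` the set `{φ(x; a_i)} ∪ {¬φ(x; a_k) : k ≠ i} ∪ {ψ(x; c_j)} ∪ {¬ψ(x; c_l) : l ≠ j}` is
consistent, that is, finitely satisfiable in `N`. -/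
def DpMinimal (L : FirstOrder.Language.{0, 0}) (M : Type) [L.Structure M] : Prop :=
  ∀ (N : Type u) [L.Structure N], (N ≅[L] M) →
    ∀ (m n : ℕ) (φ : L.Formula (Unit ⊕ Fin m)) (ψ : L.Formula (Unit ⊕ Fin n))
      (a : ℕ → Fin m → N) (c : ℕ → Fin n → N),
      ¬ ∀ i j K : ℕ, ∃ x : N,
        (∀ k < K, φ.Realize (Sum.elim (fun _ => x) (a k)) ↔ k = i) ∧
        (∀ l < K, ψ.Realize (Sum.elim (fun _ => x) (c l)) ↔ l = j)

/-- The sequence `a` of `k`-tuples of `N`, indexed by the linear order `I`, is indiscernible over
the parameter set `B`: any two strictly increasing finite subsequences of the same length satisfy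
the same formulas with parameters from `B`. -/
def IndiscernibleOver (L : FirstOrder.Language.{0, 0}) {N : Type u} [L.Structure N] (B : Set N)
    {I : Type v} [LinearOrder I] {k : ℕ} (a : I → Fin k → N) : Prop :=
  ∀ (n m : ℕ) (φ : L.Formula ((Fin n × Fin k) ⊕ Fin m)) (b : Fin m → N), (∀ l, b l ∈ B) →
    ∀ s t : Fin n → I, StrictMono s → StrictMono t →
      (φ.Realize (Sum.elim (fun p => a (s p.1) p.2) b) ↔
        φ.Realize (Sum.elim (fun p => a (t p.1) p.2) b))

/-- The complete theory of `M` is distal: in every model `N` of it, for every parameter set `B`,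
every indiscernible sequence `(a_j)_{j ∈ I}` and every `i ∈ I` with infinitely many indices below
and infinitely many above it, if the sequence with `a_i` removed is indiscernible over `B`, then so
is the whole sequence. -/
def Distal (L : FirstOrder.Language.{0, 0}) (M : Type) [L.Structure M] : Prop :=
  ∀ (N : Type u) [L.Structure N], (N ≅[L] M) →
    ∀ (I : Type u) [LinearOrder I] (k : ℕ) (a : I → Fin k → N) (B : Set N) (i : I),
      (Set.Iio i).Infinite → (Set.Ioi i).Infinite → IndiscernibleOver L (∅ : Set N) a →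
      IndiscernibleOver L B (fun j : {j : I // j ≠ i} => a j) → IndiscernibleOver L B a

/-- `S_n(M)`: the complete `n`-types over the structure `M`, that is, the complete types in `n`
variables of the elementary diagram of `M`. -/
abbrev TypeOver (L : FirstOrder.Language.{0, 0}) (M : Type u) [L.Structure M] (n : ℕ) : Type u :=
  (L.elementaryDiagram M).CompleteType (Fin n)

/-- The instance `φ(x; b)` of the formula `φ(x; y)` at the tuple `b` from `M`, as a formula in the
variables `x` of the language with constants for the elements of `M`. -/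
def inst {L : FirstOrder.Language.{0, 0}} {M : Type u} {n m : ℕ} (φ : L.Formula (Fin n ⊕ Fin m))
    (b : Fin m → M) : L[[M]].Formula (Fin n) :=
  BoundedFormula.constantsVarsEquiv.symm
    (φ.relabel (Sum.elim Sum.inr (fun j => Sum.inl (b j))) : L.Formula (M ⊕ Fin n))

/-- The formula `θ(x)` with parameters from `M` belongs to the type `p`. -/
def InType {L : FirstOrder.Language.{0, 0}} {M : Type u} [L.Structure M] {n : ℕ}
    (θ : L[[M]].Formula (Fin n)) (p : TypeOver L M n) : Prop :=
  Formula.equivSentence θ ∈ p

/-- The type `p ∈ S_n(M)` is definable: for every formula `φ(x; y)` the set of tuples `b` from `M`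
with `φ(x; b) ∈ p` is definable in `M` with parameters from `M`. -/
def DefinableType {L : FirstOrder.Language.{0, 0}} {M : Type u} [L.Structure M] {n : ℕ}
    (p : TypeOver L M n) : Prop :=
  ∀ (m : ℕ) (φ : L.Formula (Fin n ⊕ Fin m)),
    (Set.univ : Set M).Definable L {b : Fin m → M | InType (inst φ b) p}

/-- The subset `X` of `M^n` belongs to the type `p`: some formula of `p` defines `X` in `M`. -/
def SetInType {L : FirstOrder.Language.{0, 0}} {M : Type u} [L.Structure M] {n : ℕ}
    (X : Set (Fin n → M)) (p : TypeOver L M n) : Prop :=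
  ∃ θ : L[[M]].Formula (Fin n), (∀ x : Fin n → M, x ∈ X ↔ θ.Realize x) ∧ InType θ p

/-- The fibre `X_b` of `X ⊆ M^m × M^n` over `b ∈ M^m`. -/
def fibre {M : Type u} {m n : ℕ} (X : Set (Fin m ⊕ Fin n → M)) (b : Fin m → M) :
    Set (Fin n → M) :=
  {a | Sum.elim b a ∈ X}

/-- `U` is `κ`-saturated: every set of formulas in finitely many variables with parameters from a
set of size less than `κ` that is finitely satisfiable in `U` is realised in `U`. -/
def Saturated (L : FirstOrder.Language.{0, 0}) (κ : Cardinal.{u}) (U : Type u) [L.Structure U] : Prop :=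
  ∀ (A : Set U), Cardinal.mk A < κ → ∀ (n : ℕ) (S : Set (L[[A]].Formula (Fin n))),
    (∀ S₀ : Finset (L[[A]].Formula (Fin n)), (S₀ : Set _) ⊆ S →
      ∃ x : Fin n → U, ∀ θ ∈ S₀, θ.Realize x) →
    ∃ x : Fin n → U, ∀ θ ∈ S, θ.Realize x

/-- The tuples `b` and `b'` have the same type over the set `A`. -/
def SameType (L : FirstOrder.Language.{0, 0}) {U : Type u} [L.Structure U] (A : Set U) {m : ℕ}
    (b b' : Fin m → U) : Prop :=
  ∀ θ : L[[A]].Formula (Fin m), θ.Realize b ↔ θ.Realize b'

/-- `φ(x; b)` divides over `A` (in `U`): there are `k` and tuples `b_i` (`i < ω`) of the same type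
as `b` over `A` such that any `k` of the formulas `φ(x; b_i)` have no common solution. -/
def Divides {L : FirstOrder.Language.{0, 0}} {U : Type u} [L.Structure U] (A : Set U) {n m : ℕ}
    (φ : L.Formula (Fin n ⊕ Fin m)) (b : Fin m → U) : Prop :=
  ∃ (k : ℕ) (c : ℕ → Fin m → U), (∀ i, SameType L A (c i) b) ∧
    ∀ s : Finset ℕ, s.card = k → ¬ ∃ x : Fin n → U, ∀ i ∈ s, φ.Realize (Sum.elim x (c i))

/-- `φ(x; b)` forks over `A` (in `U`): it implies a finite disjunction of formulas with parameters
from `U` each of which divides over `A`. -/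
def Forks {L : FirstOrder.Language.{0, 0}} {U : Type u} [L.Structure U] (A : Set U) {n m : ℕ}
    (φ : L.Formula (Fin n ⊕ Fin m)) (b : Fin m → U) : Prop :=
  ∃ (r : ℕ) (l : Fin r → ℕ) (ψ : ∀ j : Fin r, L.Formula (Fin n ⊕ Fin (l j)))
    (c : ∀ j : Fin r, Fin (l j) → U), (∀ j, Divides A (ψ j) (c j)) ∧
      ∀ x : Fin n → U, φ.Realize (Sum.elim x b) → ∃ j, (ψ j).Realize (Sum.elim x (c j))

/-- The type `p` over `U` is definable over `A ⊆ U`: for every formula `χ(x; y)` the set of tuples
`e` from `U` with `χ(x; e) ∈ p` is defined in `U` by a formula with parameters from `A`. -/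
def DefinableOver {L : FirstOrder.Language.{0, 0}} {U : Type u} [L.Structure U] (A : Set U) {n : ℕ}
    (p : TypeOver L U n) : Prop :=
  ∀ (m : ℕ) (χ : L.Formula (Fin n ⊕ Fin m)), A.Definable L {e : Fin m → U | InType (inst χ e) p}

end Pool.Agent.H440Z.MT
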