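import Mathlib

/-!
# Laminar families with binary branching
-/

set_option autoImplicit false
set_option linter.all false

namespace Pool.Agent.H440Z

universe u

variable {X : Type u}

def Lamin (𝓔 : Set (Set X)) : Prop :=
  ∀ A ∈ 𝓔, ∀ B ∈ 𝓔, (∃ x, x ∈ A ∧ x ∈ B) → A ⊆ B ∨ B ⊆ A

def Binr (𝓔 : Set (Set X)) : Prop :=
  ∀ x y z : X, x ≠ y → y ≠ z → x ≠ z → ∃ E ∈ 𝓔,
    (x ∈ E ∧ y ∈ E ∧ z ∉ E) ∨ (x ∈ E ∧ z ∈ E ∧ y ∉ E) ∨ (y ∈ E ∧ z ∈ E ∧ x ∉ E)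

def th1 (𝓔 : Set (Set X)) (A B : Set X) : Set X := {x | ∃ E ∈ 𝓔, x ∈ E ∧ B ⊆ E ∧ ∀ y ∈ A, y ∉ E}

def th2 (𝓔 : Set (Set X)) (A B : Set X) : Set X := {x | ∃ E ∈ 𝓔, x ∉ E ∧ A ⊆ E ∧ B ⊆ E}

def tmpl (𝓔 : Set (Set X)) (τ : Fin 4) (A B : Set X) : Set X :=
  ![Set.univ, A, th1 𝓔 A B, th2 𝓔 A B] τ

def Red (𝓔 : Set (Set X)) {J : Type} (D : J → Set X) (b : X) (c : J) : Prop :=
  ∃ (a a' : J) (τ : Fin 4), a ≠ c ∧ a' ≠ c ∧ b ∈ tmpl 𝓔 τ (D a) (D a') ∧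
    ∀ x ∈ tmpl 𝓔 τ (D a) (D a'), (x ∈ D c ↔ b ∈ D c)

theorem trace_le {𝓔 : Set (Set X)} (hl : Lamin 𝓔) {K T : Type} [Fintype K] [Fintype T]
    (S : K → Set X) (hS : ∀ k, S k ∈ 𝓔 ∨ S k = ∅) (x : T → X)
    (hx : ∀ t t', (∀ k, x t ∈ S k ↔ x t' ∈ S k) → t = t') :
    Fintype.card T ≤ Fintype.card K + 1 := by
  classical
  have hmin : ∀ t, (∃ k, x t ∈ S k) → ∃ k, x t ∈ S k ∧ ∀ k', x t ∈ S k' → S k ⊆ S k' := by
    intro t ht
    obtain ⟨k, hk⟩ := Set.Finite.exists_minimalFor S {k | x t ∈ S k} (Set.toFinite _) ht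
    refine ⟨k, hk.1, fun k' hk' => ?_⟩
    have m1 : S k ∈ 𝓔 := (hS k).resolve_right (fun h => by have := hk.1; simp [h] at this)
    have m2 : S k' ∈ 𝓔 := (hS k').resolve_right (fun h => by simp [h] at hk')
    rcases hl _ m1 _ m2 ⟨x t, hk.1, hk'⟩ with h | h
    · exact h
    · exact hk.2 hk' h
  let g : T → Option K := fun t =>
    if h : ∃ k, x t ∈ S k then some (Classical.choose (hmin t h)) else none
  have hg : Function.Injective g := by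
    intro t t' e
    apply hx
    by_cases h : ∃ k, x t ∈ S k <;> by_cases h' : ∃ k, x t' ∈ S k
    · simp only [g, dif_pos h, dif_pos h', Option.some.injEq] at e
      obtain ⟨a1, a2⟩ := Classical.choose_spec (hmin t h)
      obtain ⟨b1, b2⟩ := Classical.choose_spec (hmin t' h')
      rw [e] at a1 a2
      exact fun k => ⟨fun hk => a2 k hk b1, fun hk => b2 k hk a1⟩
    · simp [g, dif_pos h, dif_neg h'] at e
    · simp [g, dif_neg h, dif_pos h'] at e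
    · exact fun k => ⟨fun hk => absurd ⟨k, hk⟩ h, fun hk => absurd ⟨k, hk⟩ h'⟩
  simpa using Fintype.card_le_of_injective g hg

theorem nonred_card {𝓔 : Set (Set X)} (hl : Lamin 𝓔) (hb : Binr 𝓔) {J : Type} [Fintype J]
    [Nontrivial J] (D : J → Set X) (hD : ∀ j, D j ∈ 𝓔 ∨ D j = ∅) (b : X)
    (NR : Finset J) (hNR : ∀ c ∈ NR, ¬ Red 𝓔 D b c) : NR.card ≤ 4 := by
  classical
  have hne : ∀ c ∈ NR, (D c).Nonempty := by
    intro c hc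
    by_contra h
    rw [Set.not_nonempty_iff_eq_empty] at h
    obtain ⟨a, ha⟩ := exists_ne c
    exact hNR c hc ⟨a, a, 0, ha, ha, by simp [tmpl], by simp [h]⟩
  have hE : ∀ c ∈ NR, D c ∈ 𝓔 := fun c hc =>
    (hD c).resolve_right (hne c hc).ne_empty
  have hdis : ∀ c ∈ NR, ∀ a ∈ NR, a ≠ c → b ∉ D c → b ∉ D a → ∀ x ∈ D c, x ∉ D a := by
    have aux : ∀ c ∈ NR, ∀ a ∈ NR, a ≠ c → b ∉ D c → b ∉ D a → ¬ D c ⊆ D a := by
      intro c hc a ha hac hbc hba hsub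
      refine hNR c hc ⟨a, a, 3, hac, hac, ⟨D a, hE a ha, hba, le_rfl, le_rfl⟩, ?_⟩
      rintro x ⟨E, -, hxE, h1, -⟩
      exact ⟨fun h => absurd (h1 (hsub h)) hxE, fun h => absurd h hbc⟩
    intro c hc a ha hac hbc hba x hxc hxa
    rcases hl _ (hE c hc) _ (hE a ha) ⟨x, hxc, hxa⟩ with h | h
    · exact aux c hc a ha hac hbc hba h
    · exact aux a ha c hc hac.symm hba hbc h
  have absorb : ∀ c ∈ NR, ∀ E ∈ 𝓔, ∀ x ∈ D c, x ∈ E → ∀ y ∈ E, y ∉ D c → D c ⊆ E := by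
    intro c hc E hEE x hx hxE y hy hyc
    rcases hl _ (hE c hc) _ hEE ⟨x, hx, hxE⟩ with h | h
    · exact h
    · exact absurd (h hy) hyc
  have avoid : ∀ c ∈ NR, ∀ E ∈ 𝓔, ∀ x ∈ D c, x ∉ E → ∀ y ∈ E, y ∉ D c → ∀ z ∈ D c, z ∉ E := by
    intro c hc E hEE x hx hxE y hy hyc z hz hzE
    exact hxE (absorb c hc E hEE z hz hzE y hy hyc hx)
  let prec : J → J → Prop := fun j l => b ∈ th1 𝓔 (D l) (D j)
  let sim : J → J → Prop := fun j l => b ∈ th2 𝓔 (D j) (D l)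
  have tri : ∀ j ∈ NR, ∀ l ∈ NR, j ≠ l → b ∉ D j → b ∉ D l → prec j l ∨ prec l j ∨ sim j l := by
    intro j hj l hl' hjl hbj hbl
    obtain ⟨p, hp⟩ := hne j hj
    obtain ⟨q, hq⟩ := hne l hl'
    have hpl : p ∉ D l := hdis j hj l hl' hjl.symm hbj hbl p hp
    have hqj : q ∉ D j := hdis l hl' j hj hjl hbl hbj q hq
    obtain ⟨E, hEE, h⟩ := hb b p q (fun h => hbj (h ▸ hp)) (fun h => hpl (h ▸ hq))
      (fun h => hbl (h ▸ hq))
    rcases h with ⟨h1, h2, h3⟩ | ⟨h1, h2, h3⟩ | ⟨h1, h2, h3⟩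
    · exact Or.inl ⟨E, hEE, h1, absorb j hj E hEE p hp h2 b h1 hbj,
        avoid l hl' E hEE q hq h3 b h1 hbl⟩
    · exact Or.inr (Or.inl ⟨E, hEE, h1, absorb l hl' E hEE q hq h2 b h1 hbl,
        avoid j hj E hEE p hp h3 b h1 hbj⟩)
    · exact Or.inr (Or.inr ⟨E, hEE, h3, absorb j hj E hEE p hp h1 q h2 hqj,
        absorb l hl' E hEE q hq h2 p h1 hpl⟩)
  have claimA : ∀ j ∈ NR, ∀ l ∈ NR, ∀ c ∈ NR, c ≠ j → c ≠ l → b ∉ D c → prec j l → prec c l := by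
    intro j hj l hl' c hc hcj hcl hbc hp
    by_contra hn
    refine hNR c hc ⟨l, j, 2, hcl.symm, hcj.symm, hp, ?_⟩
    rintro x ⟨E, hEE, hxE, h1, h2⟩
    refine ⟨fun hx => ?_, fun h => absurd h hbc⟩
    exfalso
    obtain ⟨E0, hE0, hb0, g1, g2⟩ := hp
    obtain ⟨p, hp⟩ := hne j hj
    rcases hl _ hEE _ hE0 ⟨p, h1 hp, g1 hp⟩ with h | h
    · exact hn ⟨E0, hE0, hb0, absorb c hc E0 hE0 x hx (h hxE) b hb0 hbc, g2⟩
    · exact hn ⟨E, hEE, h hb0, absorb c hc E hEE x hx hxE b (h hb0) hbc, h2⟩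
  have asym : ∀ j ∈ NR, ∀ l ∈ NR, prec j l → ¬ prec l j := by
    rintro j hj l hl' ⟨E, hEE, h0, h1, h2⟩ ⟨E', hEE', g0, g1, g2⟩
    obtain ⟨p, hp⟩ := hne j hj
    obtain ⟨q, hq⟩ := hne l hl'
    rcases hl _ hEE _ hEE' ⟨b, h0, g0⟩ with h | h
    · exact g2 p hp (h (h1 hp))
    · exact h2 q hq (h (g1 hq))
  have simsymm : ∀ j l, sim j l → sim l j := by
    rintro j l ⟨E, hEE, h0, h1, h2⟩
    exact ⟨E, hEE, h0, h2, h1⟩
  have claimB : ∀ i ∈ NR, ∀ j ∈ NR, ∀ k ∈ NR, i ≠ j → k ≠ j → b ∉ D j → sim i k →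
      ∀ E ∈ 𝓔, ∀ p ∈ D i, p ∈ E → D j ⊆ E → (∃ q ∈ D k, q ∉ E) → False := by
    intro i hi j hj k hk hij hkj hbj hs E hEE p hp hpE h1 ⟨q, hq, hqE⟩
    refine hNR j hj ⟨i, k, 3, hij, hkj, hs, ?_⟩
    rintro x ⟨E', hEE', hxE, g1, g2⟩
    refine ⟨fun hx => ?_, fun h => absurd h hbj⟩
    exfalso
    rcases hl _ hEE _ hEE' ⟨p, hpE, g1 hp⟩ with h | h
    · exact hxE (h (h1 hx))
    · exact hqE (h (g2 hq))
  let S1 := NR.filter (fun c => b ∈ D c)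
  let S2 := NR.filter (fun l => b ∉ D l ∧ ∃ j ∈ NR, b ∉ D j ∧ prec j l)
  let S3 := NR.filter (fun l => b ∉ D l ∧ ¬ ∃ j ∈ NR, b ∉ D j ∧ prec j l)
  have c1 : S1.card ≤ 1 := by
    rw [Finset.card_le_one]
    intro c hc a ha
    simp only [S1, Finset.mem_filter] at hc ha
    by_contra hca
    rcases hl _ (hE c hc.1) _ (hE a ha.1) ⟨b, hc.2, ha.2⟩ with h | h
    · exact hNR a ha.1 ⟨c, c, 1, hca, hca, hc.2, fun x hx => ⟨fun _ => ha.2, fun _ => h hx⟩⟩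
    · exact hNR c hc.1 ⟨a, a, 1, Ne.symm hca, Ne.symm hca, ha.2,
        fun x hx => ⟨fun _ => hc.2, fun _ => h hx⟩⟩
  have c2 : S2.card ≤ 1 := by
    rw [Finset.card_le_one]
    intro l hl1 l' hl2
    simp only [S2, Finset.mem_filter] at hl1 hl2
    obtain ⟨m1, b1, j, hj, -, p1⟩ := hl1
    obtain ⟨m2, b2, j', hj', -, p2⟩ := hl2
    by_contra hne'
    have q1 : prec l' l := by
      by_cases h : l' = j
      · exact h ▸ p1
      · exact claimA j hj l m1 l' m2 h (Ne.symm hne') b2 p1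
    have q2 : prec l l' := by
      by_cases h : l = j'
      · exact h ▸ p2
      · exact claimA j' hj' l' m2 l m1 h hne' b1 p2
    exact asym _ m2 _ m1 q1 q2
  have c3 : S3.card ≤ 2 := by
    by_contra hlt
    push Not at hlt
    obtain ⟨i, j, k, hi, hj, hk, hij, hik, hjk⟩ := Finset.two_lt_card_iff.1 hlt
    simp only [S3, Finset.mem_filter] at hi hj hk
    have hs : ∀ i j, i ∈ NR ∧ b ∉ D i ∧ ¬ (∃ j ∈ NR, b ∉ D j ∧ prec j i) →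
        j ∈ NR ∧ b ∉ D j ∧ ¬ (∃ l ∈ NR, b ∉ D l ∧ prec l j) → i ≠ j → sim i j := by
      intro i j hi hj hij
      rcases tri i hi.1 j hj.1 hij hi.2.1 hj.2.1 with h | h | h
      · exact absurd ⟨i, hi.1, hi.2.1, h⟩ hj.2.2
      · exact absurd ⟨j, hj.1, hj.2.1, h⟩ hi.2.2
      · exact h
    obtain ⟨p, hp⟩ := hne i hi.1
    obtain ⟨q, hq⟩ := hne j hj.1
    obtain ⟨s, hs'⟩ := hne k hk.1
    have d1 := hdis i hi.1 j hj.1 hij.symm hi.2.1 hj.2.1 p hp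
    have d2 := hdis i hi.1 k hk.1 hik.symm hi.2.1 hk.2.1 p hp
    have d3 := hdis j hj.1 k hk.1 hjk.symm hj.2.1 hk.2.1 q hq
    have d4 := hdis j hj.1 i hi.1 hij hj.2.1 hi.2.1 q hq
    obtain ⟨E, hEE, h⟩ := hb p q s (fun h => d1 (h ▸ hq)) (fun h => d3 (h ▸ hs'))
      (fun h => d2 (h ▸ hs'))
    rcases h with ⟨h1, h2, h3⟩ | ⟨h1, h2, h3⟩ | ⟨h1, h2, h3⟩
    · exact claimB i hi.1 j hj.1 k hk.1 hij hjk.symm hj.2.1 (hs i k hi hk hik) E hEE p hp h1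
        (absorb j hj.1 E hEE q hq h2 p h1 d1) ⟨s, hs', h3⟩
    · exact claimB i hi.1 k hk.1 j hj.1 hik hjk hk.2.1 (hs i j hi hj hij) E hEE p hp h1
        (absorb k hk.1 E hEE s hs' h2 p h1 d2) ⟨q, hq, h3⟩
    · exact claimB j hj.1 k hk.1 i hi.1 hjk hik hk.2.1 (hs j i hj hi hij.symm) E hEE q hq h1
        (absorb k hk.1 E hEE s hs' h2 q h1 d3) ⟨p, hp, h3⟩
  have hsub : NR ⊆ S1 ∪ (S2 ∪ S3) := by
    intro c hc
    simp only [S1, S2, S3, Finset.mem_union, Finset.mem_filter]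
    by_cases h1 : b ∈ D c
    · exact Or.inl ⟨hc, h1⟩
    · by_cases h2 : ∃ j ∈ NR, b ∉ D j ∧ prec j c
      · exact Or.inr (Or.inl ⟨hc, h1, h2⟩)
      · exact Or.inr (Or.inr ⟨hc, h1, h2⟩)
  have := Finset.card_le_card hsub
  have := Finset.card_union_le S1 (S2 ∪ S3)
  have := Finset.card_union_le S2 S3
  omega

theorem exists_red {𝓔 : Set (Set X)} (hl : Lamin 𝓔) (hb : Binr 𝓔) {K : Type} [Fintype K]
    (D : K → Fin (4 * Fintype.card K + 2) → Set X) (hD : ∀ i j, D i j ∈ 𝓔 ∨ D i j = ∅) (b : X) :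
    ∃ c, ∀ i, Red 𝓔 (D i) b c := by
  classical
  by_contra hn
  push Not at hn
  haveI : Nontrivial (Fin (4 * Fintype.card K + 2)) := Fin.nontrivial_iff_two_le.2 (by omega)
  let NR : K → Finset (Fin (4 * Fintype.card K + 2)) := fun i =>
    Finset.univ.filter (fun c => ¬ Red 𝓔 (D i) b c)
  have h1 : ∀ i, (NR i).card ≤ 4 := fun i =>
    nonred_card hl hb (D i) (hD i) b (NR i) (fun c hc => (Finset.mem_filter.1 hc).2)
  have h2 : (Finset.univ : Finset (Fin (4 * Fintype.card K + 2))) ⊆ Finset.univ.biUnion NR := by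
    intro c _
    obtain ⟨i, hi⟩ := hn c
    simp only [Finset.mem_biUnion, Finset.mem_univ, true_and, NR, Finset.mem_filter]
    exact ⟨i, hi⟩
  have h3 := Finset.card_le_card h2
  have h4 := Finset.card_biUnion_le_card_mul Finset.univ NR 4 (fun i _ => h1 i)
  simp only [Finset.card_univ, Fintype.card_fin] at h3 h4
  omega

end Pool.Agent.H440Z
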