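import Pool.Agent.H440Z.UD
import Pool.Agent.H440Z.Lam
import Pool.Agent.H440Z.Defs

/-!
# Structures whose one-variable definable sets are governed by a binary laminar family
-/

set_option autoImplicit false
set_option linter.all false

namespace Pool.Agent.H440Z

open FirstOrder FirstOrder.Language

universe u v

variable {L : FirstOrder.Language.{0, 0}}

def Bl {N : Type u} [L.Structure N] (e : L.Formula (Fin 3)) (u w x : N) : Prop :=
  e.Realize ![u, w, x]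

def balls (e : L.Formula (Fin 3)) (N : Type u) [L.Structure N] : Set (Set N) :=
  {S | ∃ u w, S = {x | Bl e u w x}}

def sol {N : Type u} [L.Structure N] {ι : Type} (φ : L.Formula (Unit ⊕ ι)) (y : ι → N) : Set N :=
  {x | φ.Realize (Sum.elim (fun _ => x) y)}

structure Tree (e : L.Formula (Fin 3)) (N : Type u) [L.Structure N] : Prop where
  lam : Lamin (balls e N)
  bin : Binr (balls e N)
  dec : ∀ (ι : Type) [Finite ι] (φ : L.Formula (Unit ⊕ ι)), ∃ (K : Type) (_ : Finite K)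
    (β : K → L.Formula (Unit ⊕ ι)), (∀ i (y : ι → N), sol (β i) y ∈ balls e N ∨ sol (β i) y = ∅) ∧
      ∀ (y : ι → N) x x', (∀ i, x ∈ sol (β i) y ↔ x' ∈ sol (β i) y) → (x ∈ sol φ y ↔ x' ∈ sol φ y)

section
variable {M : Type u} {N : Type v} [L.Structure M] [L.Structure N]

theorem UD.bl {α : Type} (e : L.Formula (Fin 3)) (a b c : α) :
    UD L (fun v : α → M => Bl e (v a) (v b) (v c)) (fun v : α → N => Bl e (v a) (v b) (v c)) := by
  refine UD.atom e ![a, b, c] (fun v => ?_) (fun v => ?_) <;>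
  · funext i
    fin_cases i <;> rfl

theorem UD.sol {α ι : Type} (φ : L.Formula (Unit ⊕ ι)) (a : α) (g : ι → α) :
    UD L (fun v : α → M => v a ∈ sol φ (fun i => v (g i)))
      (fun v : α → N => v a ∈ sol φ (fun i => v (g i))) := by
  refine UD.atom φ (Sum.elim (fun _ => a) g) (fun v => ?_) (fun v => ?_) <;>
  · funext i
    rcases i with i | i <;> rfl

theorem Tree.transfer {e : L.Formula (Fin 3)} (h : Tree e M) (E : N ≅[L] M) : Tree e N := by
  refine ⟨?_, ?_, ?_⟩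
  · have H : UD L
        (fun v : Fin 4 → M => (∃ x, Bl e (v 0) (v 1) x ∧ Bl e (v 2) (v 3) x) →
          (∀ x, Bl e (v 0) (v 1) x → Bl e (v 2) (v 3) x) ∨
          (∀ x, Bl e (v 2) (v 3) x → Bl e (v 0) (v 1) x))
        (fun v : Fin 4 → N => (∃ x, Bl e (v 0) (v 1) x ∧ Bl e (v 2) (v 3) x) →
          (∀ x, Bl e (v 0) (v 1) x → Bl e (v 2) (v 3) x) ∨
          (∀ x, Bl e (v 2) (v 3) x → Bl e (v 0) (v 1) x)) :=
      UD.imp (UD.ex (UD.and (UD.bl e _ _ _) (UD.bl e _ _ _)))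
        (UD.or (UD.all (UD.imp (UD.bl e _ _ _) (UD.bl e _ _ _)))
          (UD.all (UD.imp (UD.bl e _ _ _) (UD.bl e _ _ _))))
    have := H.transfer E (fun v hv => h.lam _ ⟨_, _, rfl⟩ _ ⟨_, _, rfl⟩ hv)
    rintro _ ⟨u, w, rfl⟩ _ ⟨u', w', rfl⟩ hx
    exact this ![u, w, u', w'] hx
  · have H : UD L
        (fun v : Fin 3 → M => ¬ v 0 = v 1 → ¬ v 1 = v 2 → ¬ v 0 = v 2 → ∃ u w,
          (Bl e u w (v 0) ∧ Bl e u w (v 1) ∧ ¬ Bl e u w (v 2)) ∨
          (Bl e u w (v 0) ∧ Bl e u w (v 2) ∧ ¬ Bl e u w (v 1)) ∨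
          (Bl e u w (v 1) ∧ Bl e u w (v 2) ∧ ¬ Bl e u w (v 0)))
        (fun v : Fin 3 → N => ¬ v 0 = v 1 → ¬ v 1 = v 2 → ¬ v 0 = v 2 → ∃ u w,
          (Bl e u w (v 0) ∧ Bl e u w (v 1) ∧ ¬ Bl e u w (v 2)) ∨
          (Bl e u w (v 0) ∧ Bl e u w (v 2) ∧ ¬ Bl e u w (v 1)) ∨
          (Bl e u w (v 1) ∧ Bl e u w (v 2) ∧ ¬ Bl e u w (v 0))) :=
      UD.imp (UD.eq _ _).not (UD.imp (UD.eq _ _).not (UD.imp (UD.eq _ _).not (UD.ex (UD.ex
        (UD.or (UD.and (UD.bl e _ _ _) (UD.and (UD.bl e _ _ _) (UD.bl e _ _ _).not))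
          (UD.or (UD.and (UD.bl e _ _ _) (UD.and (UD.bl e _ _ _) (UD.bl e _ _ _).not))
            (UD.and (UD.bl e _ _ _) (UD.and (UD.bl e _ _ _) (UD.bl e _ _ _).not))))))))
    have := H.transfer E (fun v h1 h2 h3 => by
      obtain ⟨_, ⟨u, w, rfl⟩, hE⟩ := h.bin _ _ _ h1 h2 h3
      exact ⟨u, w, hE⟩)
    intro x y z h1 h2 h3
    obtain ⟨u, w, hE⟩ := this ![x, y, z] h1 h2 h3
    exact ⟨_, ⟨u, w, rfl⟩, hE⟩
  · intro ι _ φ
    obtain ⟨K, hK, β, h1, h2⟩ := h.dec ι φ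
    refine ⟨K, hK, β, fun i => ?_, ?_⟩
    · have H : UD L
          (fun v : ι → M => (∃ u w, ∀ x, x ∈ sol (β i) (fun j => v j) ↔ Bl e u w x) ∨
            ∀ x, ¬ x ∈ sol (β i) (fun j => v j))
          (fun v : ι → N => (∃ u w, ∀ x, x ∈ sol (β i) (fun j => v j) ↔ Bl e u w x) ∨
            ∀ x, ¬ x ∈ sol (β i) (fun j => v j)) :=
        UD.or (UD.ex (UD.ex (UD.all (UD.iff (UD.sol _ _ _) (UD.bl e _ _ _)))))
          (UD.all (UD.sol _ _ _).not)
      have := H.transfer E (fun v => by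
        rcases h1 i v with ⟨u, w, hh⟩ | hh
        · exact Or.inl ⟨u, w, fun x => by rw [hh]; rfl⟩
        · exact Or.inr fun x => by rw [hh]; exact id)
      intro y
      rcases this y with ⟨u, w, hh⟩ | hh
      · exact Or.inl ⟨u, w, Set.ext hh⟩
      · exact Or.inr (Set.eq_empty_of_forall_notMem hh)
    · have H : UD L
          (fun v : ι → M => ∀ x x', (∀ i, x ∈ sol (β i) (fun j => v j) ↔
            x' ∈ sol (β i) (fun j => v j)) →
              (x ∈ sol φ (fun j => v j) ↔ x' ∈ sol φ (fun j => v j)))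
          (fun v : ι → N => ∀ x x', (∀ i, x ∈ sol (β i) (fun j => v j) ↔
            x' ∈ sol (β i) (fun j => v j)) →
              (x ∈ sol φ (fun j => v j) ↔ x' ∈ sol φ (fun j => v j))) :=
        UD.all (UD.all (UD.imp (UD.allFin fun i => UD.iff (UD.sol _ _ _) (UD.sol _ _ _))
          (UD.iff (UD.sol _ _ _) (UD.sol _ _ _))))
      exact H.transfer E h2

end

section
variable {N : Type u} [L.Structure N] {e : L.Formula (Fin 3)}

theorem Tree.noIct (h : Tree e N) (m n : ℕ) (φ : L.Formula (Unit ⊕ Fin m))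
    (ψ : L.Formula (Unit ⊕ Fin n)) (a : ℕ → Fin m → N) (c : ℕ → Fin n → N) :
    ¬ ∀ i j K : ℕ, ∃ x : N,
        (∀ k < K, φ.Realize (Sum.elim (fun _ => x) (a k)) ↔ k = i) ∧
        (∀ l < K, ψ.Realize (Sum.elim (fun _ => x) (c l)) ↔ l = j) := by
  intro H
  obtain ⟨K1, hK1, β1, h1, h2⟩ := h.dec _ φ
  obtain ⟨K2, hK2, β2, g1, g2⟩ := h.dec _ ψ
  have := Fintype.ofFinite K1
  have := Fintype.ofFinite K2
  set q := Fintype.card K1 + Fintype.card K2 + 2 with hq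
  choose x hx1 hx2 using fun t : Fin q × Fin q => H t.1 t.2 q
  let S : (Fin q × K1) ⊕ (Fin q × K2) → Set N :=
    Sum.elim (fun p => sol (β1 p.2) (a p.1)) (fun p => sol (β2 p.2) (c p.1))
  have := trace_le h.lam S (by
    rintro (p | p)
    · exact h1 _ _
    · exact g1 _ _) x (by
    intro t t' ht
    have e1 := h2 (a t.1) (x t) (x t') (fun i => ht (Sum.inl (t.1, i)))
    have e2 := g2 (c t.2) (x t) (x t') (fun i => ht (Sum.inr (t.2, i)))
    have f1 := (hx1 t' t.1 t.1.2).1 (e1.1 ((hx1 t t.1 t.1.2).2 rfl))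
    have f2 := (hx2 t' t.2 t.2.2).1 (e2.1 ((hx2 t t.2 t.2.2).2 rfl))
    exact Prod.ext (Fin.ext f1) (Fin.ext f2))
  simp only [Fintype.card_prod, Fintype.card_fin, Fintype.card_sum] at this
  nlinarith

def UDS (L : FirstOrder.Language.{0, 0}) {N : Type u} [L.Structure N] {V : Type}
    (F : (V → N) → Set N) : Prop :=
  UD L (fun v : Unit ⊕ V → N => v (Sum.inl ()) ∈ F (fun i => v (Sum.inr i)))
    (fun v : Unit ⊕ V → N => v (Sum.inl ()) ∈ F (fun i => v (Sum.inr i)))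

theorem UDS.at {V α : Type} {F : (V → N) → Set N} (h : UDS L F) (a : α) (g : V → α) :
    UD L (fun v : α → N => v a ∈ F (fun i => v (g i)))
      (fun v : α → N => v a ∈ F (fun i => v (g i))) :=
  UD.comp h (Sum.elim (fun _ => a) g)

theorem UDS.tmpl {V : Type} {F G : (V → N) → Set N} (hF : UDS L F) (hG : UDS L G) (τ : Fin 4) :
    UDS L (fun w => tmpl (balls e N) τ (F w) (G w)) := by
  fin_cases τ
  · exact (UD.const True).congr (fun v => by simp [H440Z.tmpl]) (fun v => by simp [H440Z.tmpl])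
  · exact hF
  · have key : ∀ v : Unit ⊕ V → N, v (Sum.inl ()) ∈ th1 (balls e N) (F (fun i => v (Sum.inr i)))
        (G (fun i => v (Sum.inr i))) ↔ ∃ u w, Bl e u w (v (Sum.inl ())) ∧
          (∀ y, y ∈ G (fun i => v (Sum.inr i)) → Bl e u w y) ∧
          ∀ y, y ∈ F (fun i => v (Sum.inr i)) → ¬ Bl e u w y := fun v =>
      ⟨fun ⟨_, ⟨u, w, rfl⟩, h⟩ => ⟨u, w, h⟩, fun ⟨u, w, h⟩ => ⟨_, ⟨u, w, rfl⟩, h⟩⟩
    refine UD.congr ?_ key key
    exact UD.ex (UD.ex (UD.and (UD.bl e _ _ _) (UD.and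
      (UD.all (UD.imp (hG.at _ _) (UD.bl e _ _ _)))
      (UD.all (UD.imp (hF.at _ _) (UD.bl e _ _ _).not)))))
  · have key : ∀ v : Unit ⊕ V → N, v (Sum.inl ()) ∈ th2 (balls e N) (F (fun i => v (Sum.inr i)))
        (G (fun i => v (Sum.inr i))) ↔ ∃ u w, ¬ Bl e u w (v (Sum.inl ())) ∧
          (∀ y, y ∈ F (fun i => v (Sum.inr i)) → Bl e u w y) ∧
          ∀ y, y ∈ G (fun i => v (Sum.inr i)) → Bl e u w y := fun v =>
      ⟨fun ⟨_, ⟨u, w, rfl⟩, h⟩ => ⟨u, w, h⟩, fun ⟨u, w, h⟩ => ⟨_, ⟨u, w, rfl⟩, h⟩⟩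
    refine UD.congr ?_ key key
    exact UD.ex (UD.ex (UD.and (UD.bl e _ _ _).not (UD.and
      (UD.all (UD.imp (hF.at _ _) (UD.bl e _ _ _)))
      (UD.all (UD.imp (hG.at _ _) (UD.bl e _ _ _))))))

end

end Pool.Agent.H440Z
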