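import Pool.Agent.H440Z.Abs

/-!
# Distality from a binary laminar family
-/

set_option autoImplicit false
set_option linter.all false

namespace Pool.Agent.H440Z

open FirstOrder FirstOrder.Language

universe u v

variable {L : FirstOrder.Language.{0, 0}} {N : Type u} [L.Structure N]

def val {I : Type v} {κ μ τ : Type} (a : I → κ → N) (b : μ → N) (σ : τ → I) :
    (τ × κ) ⊕ μ → N := Sum.elim (fun p => a (σ p.1) p.2) b

def IndF (L : FirstOrder.Language.{0, 0}) {N : Type u} [L.Structure N] {I : Type v} [LinearOrder I]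
    {κ μ : Type} (a : I → κ → N) (b : μ → N) : Prop :=
  ∀ (n : ℕ) (s t : Fin n → I), StrictMono s → StrictMono t →
    ∀ φ : L.Formula ((Fin n × κ) ⊕ μ), φ.Realize (val a b s) ↔ φ.Realize (val a b t)

variable {I : Type v} [LinearOrder I] {κ μ : Type}

theorem IndF.comp {a : I → κ → N} {b : μ → N} (h : IndF L a b) {μ' : Type} (g : μ' → μ) :
    IndF L a (b ∘ g) := by
  intro n s t hs ht φ
  have := h n s t hs ht (φ.relabel (Sum.map id g))
  simp only [Formula.realize_relabel] at this
  convert this using 2 <;>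
  · funext i
    rcases i with i | i <;> rfl

theorem IndF.ud {a : I → κ → N} {b : μ → N} (h : IndF L a b) {τ : Type} [Finite τ]
    (σ σ' : τ → I) (hσ : ∀ k k', σ k < σ k' ↔ σ' k < σ' k') {P : ((τ × κ) ⊕ μ → N) → Prop}
    (hP : UD L P P) : P (val a b σ) ↔ P (val a b σ') := by
  classical
  have := Fintype.ofFinite τ
  obtain ⟨φ, h1, -⟩ := hP
  let F : Finset I := Finset.univ.image σ
  let s := F.orderEmbOfFin rfl
  have hr : Set.range s = F := F.range_orderEmbOfFin rfl
  have e1 : ∀ k, ∃ r, s r = σ k := fun k => by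
    have : σ k ∈ Set.range s := by rw [hr]; simp [F]
    exact this
  have e2 : ∀ r, ∃ k, σ k = s r := fun r => by
    have : s r ∈ (F : Set I) := by rw [← hr]; exact ⟨r, rfl⟩
    simpa [F] using this
  choose ρ hρ using e1
  choose π hπ using e2
  have hs' : StrictMono (fun r => σ' (π r)) := by
    intro r r' hrr
    apply (hσ _ _).1
    rw [hπ, hπ]
    exact s.strictMono hrr
  have e3 : ∀ k, σ' (π (ρ k)) = σ' k := by
    intro k
    have : σ (π (ρ k)) = σ k := by rw [hπ, hρ]
    apply le_antisymm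
    · by_contra hc
      have := (hσ _ _).2 (not_le.1 hc)
      order
    · by_contra hc
      have := (hσ _ _).2 (not_le.1 hc)
      order
  have := h _ s _ s.strictMono hs' (φ.relabel (Sum.map (Prod.map ρ id) id))
  simp only [Formula.realize_relabel] at this
  rw [← h1, ← h1]
  convert this using 2
  · funext i
    rcases i with ⟨k, j⟩ | i
    · simp [val, hρ]
    · rfl
  · funext i
    rcases i with ⟨k, j⟩ | i
    · simp [val, e3]
    · rfl

theorem exists_strictMono_in {S : Set I} (hS : S.Infinite) (T : Type) [Fintype T] [LinearOrder T] :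
    ∃ f : T → I, StrictMono f ∧ ∀ t, f t ∈ S := by
  obtain ⟨F, hF, hc⟩ := hS.exists_subset_card_eq (Fintype.card T)
  let e := monoEquivOfFin T rfl
  refine ⟨fun t => F.orderEmbOfFin hc (e.symm t), ?_, fun t => hF ?_⟩
  · exact (F.orderEmbOfFin hc).strictMono.comp e.symm.strictMono
  · exact F.orderEmbOfFin_mem hc _

theorem exists_gap {S : Set I} (hS : S.Infinite) {n : ℕ} (s : Fin n → I) (T : Type) [Fintype T]
    [LinearOrder T] : ∃ (A : Set (Fin n)) (f : T → I), StrictMono f ∧ (∀ t, f t ∈ S) ∧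
      (∀ t, ∀ r ∈ A, s r < f t) ∧ (∀ t, ∀ r ∉ A, f t < s r) := by
  have h1 : (S \ Set.range s).Infinite := hS.diff (Set.finite_range s)
  have := h1.to_subtype
  obtain ⟨A, hA⟩ := Finite.exists_infinite_fiber
    (fun z : ↥(S \ Set.range s) => {r | s r < z.1})
  have h2 : (Subtype.val '' ((fun z : ↥(S \ Set.range s) => {r | s r < z.1}) ⁻¹' {A})).Infinite :=
    (Set.infinite_coe_iff.1 hA).image Subtype.val_injective.injOn
  obtain ⟨f, hf, hf2⟩ := exists_strictMono_in h2 T
  refine ⟨A, f, hf, fun t => ?_, fun t r hr => ?_, fun t r hr => ?_⟩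
  · obtain ⟨z, -, hz⟩ := hf2 t
    exact hz ▸ z.2.1
  · obtain ⟨z, hz1, hz⟩ := hf2 t
    have : {r | s r < z.1} = A := hz1
    rw [← this] at hr
    exact hz ▸ hr
  · obtain ⟨z, hz1, hz⟩ := hf2 t
    have : {r | s r < z.1} = A := hz1
    rw [← this] at hr
    have h3 : z.1 ≠ s r := fun h => z.2.2 ⟨r, h.symm⟩
    rw [← hz]
    exact lt_of_le_of_ne (not_lt.1 hr) h3

theorem exists_shifts {i : I} (h1 : (Set.Iio i).Infinite) (h2 : (Set.Ioi i).Infinite) {n : ℕ}
    {s : Fin n → I} (hs : StrictMono s) (m : ℕ) :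
    ∃ σ : ℕ → Fin m × Fin n → I,
      (∀ c c' x y, σ c x < σ c y ↔ σ c' x < σ c' y) ∧ (∀ (c : Fin m) r, σ c (c, r) = s r) ∧
      (∀ c (j : Fin m) r, j.val ≠ c → σ c (j, r) ≠ i) := by
  classical
  obtain ⟨A, f, hf, f1, f2, f3⟩ := exists_gap h1 s (Fin m ×ₗ Fin n)
  obtain ⟨A', g, hg, g1, g2, g3⟩ := exists_gap h2 s (Fin m ×ₗ Fin n)
  let σ : ℕ → Fin m × Fin n → I := fun c x =>
    if x.2 ∈ A ∨ x.2 ∉ A' ∨ x.1.val = c then s x.2 else
      if x.1.val < c then f (toLex x) else g (toLex x)
  let Key : Fin m × Fin n → Fin m × Fin n → Prop := fun x y =>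
    if x.2 ∉ A ∧ x.2 ∈ A' ∧ y.2 ∉ A ∧ y.2 ∈ A' then toLex x < toLex y else x.2 < y.2
  have fg : ∀ t t', f t < g t' := fun t t' => lt_trans (f1 t) (g1 t')
  have mid : ∀ c x, x.2 ∉ A → x.2 ∈ A' → (∀ r ∈ A, s r < σ c x) ∧ ∀ r ∉ A', σ c x < s r := by
    intro c x hx hx'
    by_cases e1 : x.1.val = c
    · have : σ c x = s x.2 := by simp [σ, e1]
      rw [this]
      exact ⟨fun r hr => lt_trans (f2 (toLex x) r hr) (f3 _ _ hx),
        fun r hr => lt_trans (g2 (toLex x) _ hx') (g3 _ _ hr)⟩
    · by_cases e2 : x.1.val < c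
      · have : σ c x = f (toLex x) := by simp [σ, e1, e2, hx, hx']
        rw [this]
        exact ⟨fun r hr => f2 _ r hr, fun r hr => lt_trans (fg _ (toLex x)) (g3 _ _ hr)⟩
      · have : σ c x = g (toLex x) := by simp [σ, e1, e2, hx, hx']
        rw [this]
        exact ⟨fun r hr => lt_trans (f2 (toLex x) r hr) (fg _ _), fun r hr => g3 _ _ hr⟩
  have outer : ∀ c x, (x.2 ∈ A ∨ x.2 ∉ A') → σ c x = s x.2 := by
    intro c x hx
    rcases hx with hx | hx <;> simp [σ, hx]
  have hmidlt : ∀ c x y, x.2 ∉ A → x.2 ∈ A' → y.2 ∉ A → y.2 ∈ A' → toLex x < toLex y →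
      σ c x < σ c y := by
    rintro c ⟨j, r⟩ ⟨j', r'⟩ hx hx' hy hy' hlt
    simp only at hx hx' hy hy'
    have hlt' := hlt
    rw [Prod.Lex.toLex_lt_toLex] at hlt'
    simp only at hlt'
    have hle : j.val ≤ j'.val := by
      rcases hlt' with h | h
      · exact le_of_lt h
      · exact le_of_eq (congrArg Fin.val h.1)
    rcases lt_trichotomy j.val c with e1 | e1 | e1 <;>
      rcases lt_trichotomy j'.val c with e2 | e2 | e2
    · simpa [σ, hx, hx', hy, hy', e1, e2, e1.ne, e2.ne] using hf hlt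
    · simpa [σ, hx, hx', hy, hy', e1, e2, e1.ne] using f3 _ _ hy
    · simpa [σ, hx, hx', hy, hy', e1, e1.ne, e2.ne', not_lt.2 e2.le] using fg _ _
    · omega
    · have : r < r' := by
        rcases hlt' with h | h
        · exact absurd (show j.val < j'.val from h) (by omega)
        · exact h.2
      simpa [σ, e1, e2] using hs this
    · simpa [σ, hx, hx', hy, hy', e1, e2.ne', not_lt.2 e2.le] using g2 _ _ hx'
    · omega
    · omega
    · simpa [σ, hx, hx', hy, hy', e1.ne', e2.ne', not_lt.2 e1.le, not_lt.2 e2.le] using hg hlt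
  have key : ∀ c x y, σ c x < σ c y ↔ Key x y := by
    intro c x y
    by_cases hx : x.2 ∉ A ∧ x.2 ∈ A' <;> by_cases hy : y.2 ∉ A ∧ y.2 ∈ A'
    · have : Key x y ↔ toLex x < toLex y := by simp [Key, hx.1, hx.2, hy.1, hy.2]
      rw [this]
      refine ⟨fun h => ?_, hmidlt c x y hx.1 hx.2 hy.1 hy.2⟩
      by_contra hn
      rcases eq_or_lt_of_le (not_lt.1 hn) with h' | h'
      · have : y = x := toLex.injective h'
        rw [this] at h
        exact lt_irrefl _ h
      · exact lt_asymm h (hmidlt c y x hy.1 hy.2 hx.1 hx.2 h')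
    · have : Key x y ↔ x.2 < y.2 := by
        simp only [Key]
        rw [if_neg (fun h => hy ⟨h.2.2.1, h.2.2.2⟩)]
      rw [this, outer c y (by tauto), ← hs.lt_iff_lt]
      have m1 := mid c x hx.1 hx.2
      have m2 := mid x.1.val x hx.1 hx.2
      have e : σ x.1.val x = s x.2 := by simp [σ]
      rw [e] at m2
      by_cases hA : y.2 ∈ A
      · exact iff_of_false (not_lt.2 (m1.1 _ hA).le) (not_lt.2 (m2.1 _ hA).le)
      · have hA' : y.2 ∉ A' := fun h => hy ⟨hA, h⟩
        exact iff_of_true (m1.2 _ hA') (m2.2 _ hA')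
    · have : Key x y ↔ x.2 < y.2 := by
        simp only [Key]
        rw [if_neg (fun h => hx ⟨h.1, h.2.1⟩)]
      rw [this, outer c x (by tauto), ← hs.lt_iff_lt]
      have m1 := mid c y hy.1 hy.2
      have m2 := mid y.1.val y hy.1 hy.2
      have e : σ y.1.val y = s y.2 := by simp [σ]
      rw [e] at m2
      by_cases hA : x.2 ∈ A
      · exact iff_of_true (m1.1 _ hA) (m2.1 _ hA)
      · have hA' : x.2 ∉ A' := fun h => hx ⟨hA, h⟩
        exact iff_of_false (not_lt.2 (m1.2 _ hA').le) (not_lt.2 (m2.2 _ hA').le)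
    · have : Key x y ↔ x.2 < y.2 := by
        simp only [Key]
        rw [if_neg (fun h => hx ⟨h.1, h.2.1⟩)]
      rw [this, outer c x (by tauto), outer c y (by tauto), hs.lt_iff_lt]
  refine ⟨σ, fun c c' x y => by rw [key, key], fun c r => by simp [σ], fun c j r hj => ?_⟩
  by_cases hA : r ∈ A
  · rw [outer c (j, r) (Or.inl hA)]
    exact (lt_trans (f2 (toLex (j, r)) r hA) (f1 _)).ne
  by_cases hA' : r ∈ A'
  · by_cases e2 : j.val < c
    · have : σ c (j, r) = f (toLex (j, r)) := by simp [σ, hj, e2, hA, hA']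
      rw [this]
      exact ne_of_lt (f1 _)
    · have : σ c (j, r) = g (toLex (j, r)) := by simp [σ, hj, e2, hA, hA']
      rw [this]
      exact ne_of_gt (g1 _)
  · rw [outer c (j, r) (Or.inr hA')]
    exact (lt_trans (g1 (toLex (j, r))) (g3 _ r hA')).ne'

variable {e : L.Formula (Fin 3)}

theorem Tree.step [Finite κ] [Finite μ] (h : Tree e N) {i : I} (h1 : (Set.Iio i).Infinite)
    (h2 : (Set.Ioi i).Infinite) {a : I → κ → N} {b : μ → N} {x : N} (ha : IndF L a b)
    (hx : IndF L (fun j : {j : I // j ≠ i} => a j) (Sum.elim (fun _ : Unit => x) b)) :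
    IndF L a (Sum.elim (fun _ : Unit => x) b) := by
  classical
  have av : ∀ {τ : Type} [Finite τ] (σ σ' : τ → I), (∀ k k', σ k < σ k' ↔ σ' k < σ' k') →
      (∀ k, σ k ≠ i) → (∀ k, σ' k ≠ i) → ∀ {P : ((τ × κ) ⊕ (Unit ⊕ μ) → N) → Prop}, UD L P P →
      (P (val a (Sum.elim (fun _ : Unit => x) b) σ) ↔
        P (val a (Sum.elim (fun _ : Unit => x) b) σ')) := by
    intro τ _ σ σ' hσ n1 n2 P hP
    exact hx.ud (fun k => ⟨σ k, n1 k⟩) (fun k => ⟨σ' k, n2 k⟩) hσ hP
  have main : ∀ (n : ℕ) (s : Fin n → I), StrictMono s →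
      ∀ φ : L.Formula ((Fin n × κ) ⊕ (Unit ⊕ μ)), ∃ s' : Fin n → I, StrictMono s' ∧
        (∀ r, s' r ≠ i) ∧ (φ.Realize (val a (Sum.elim (fun _ : Unit => x) b) s) ↔
          φ.Realize (val a (Sum.elim (fun _ : Unit => x) b) s')) := by
    intro n s hs φ
    let φ' : L.Formula (Unit ⊕ ((Fin n × κ) ⊕ μ)) :=
      φ.relabel (Sum.elim (fun p => Sum.inr (Sum.inl p))
        (Sum.elim Sum.inl (fun j => Sum.inr (Sum.inr j))))
    have hφ' : ∀ t : Fin n → I, x ∈ sol φ' (val a b t) ↔
        φ.Realize (val a (Sum.elim (fun _ : Unit => x) b) t) := by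
      intro t
      simp only [sol, φ', Set.mem_setOf_eq, Formula.realize_relabel]
      apply iff_of_eq
      congr 1
      funext q
      rcases q with q | q | q <;> rfl
    obtain ⟨K, hK, β, b1, b2⟩ := h.dec _ φ'
    have := Fintype.ofFinite K
    set m := 4 * Fintype.card K + 2 with hm
    obtain ⟨σ, s1, s2, s3⟩ := exists_shifts h1 h2 hs m
    let g : Fin m → (Fin n × κ) ⊕ μ → ((Fin m × Fin n) × κ) ⊕ μ := fun j =>
      Sum.map (fun q => ((j, q.1), q.2)) id
    have hg : ∀ (j : Fin m) (t : Fin m × Fin n → I),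
        (fun q => val a b t (g j q)) = val a b (fun r => t (j, r)) := by
      intro j t
      funext q
      rcases q with q | q <;> rfl
    obtain ⟨c, hc⟩ := exists_red h.lam h.bin
      (fun k j => sol (β k) (val a b (fun r => σ m (j, r)))) (fun k j => b1 _ _) x
    choose p p' τ n1 n2 m1 m2 using hc
    let F : (((Fin m × Fin n) × κ) ⊕ μ → N) → Set N := fun w =>
      {z | ∀ k, z ∈ tmpl (balls e N) (τ k) (sol (β k) (fun q => w (g (p k) q)))
        (sol (β k) (fun q => w (g (p' k) q)))}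
    have hF : UDS L F := by
      refine UD.allFin fun k => ?_
      refine UDS.tmpl (F := fun w => sol (β k) (fun q => w (g (p k) q)))
        (G := fun w => sol (β k) (fun q => w (g (p' k) q))) ?_ ?_ (τ k)
      · exact UD.sol _ _ _
      · exact UD.sol _ _ _
    have F1 : x ∈ F (val a b (σ m)) := by
      intro k
      rw [hg, hg]
      exact m1 k
    have F2 : ∀ z ∈ F (val a b (σ m)), (z ∈ sol φ' (val a b (fun r => σ m (c, r))) ↔
        x ∈ sol φ' (val a b (fun r => σ m (c, r)))) := by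
      intro z hz
      apply b2
      intro k
      have := hz k
      rw [hg, hg] at this
      exact m2 k z this
    haveI : Nontrivial (Fin m) := Fin.nontrivial_iff_two_le.2 (by omega)
    obtain ⟨j0, hj0⟩ := exists_ne c
    let red : Fin m × Fin n → Fin m × Fin n := fun y => if y.1 = c then (j0, y.2) else y
    have hred : ∀ t : Fin m × Fin n → I, F (val a b (t ∘ red)) = F (val a b t) := by
      intro t
      simp only [F, hg, Function.comp, red, if_neg (n1 _), if_neg (n2 _)]
    have hred1 : ∀ y, (red y).1 ≠ c := by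
      intro y
      by_cases hy : y.1 = c
      · simp [red, hy, hj0]
      · simp [red, hy]
    have F3 : x ∈ F (val a b (σ c)) := by
      rw [← hred] at F1 ⊢
      have hP := hF.at (α := ((Fin m × Fin n) × κ) ⊕ (Unit ⊕ μ)) (Sum.inr (Sum.inl ()))
        (Sum.map id Sum.inr)
      have := av (σ m ∘ red) (σ c ∘ red) (fun k k' => s1 _ _ _ _)
        (fun k => s3 m (red k).1 (red k).2 (red k).1.2.ne)
        (fun k => s3 c (red k).1 (red k).2 (fun h => hred1 k (Fin.ext h))) hP
      have e0 : ∀ t : Fin m × Fin n → I, (fun q => val a (Sum.elim (fun _ : Unit => x) b) t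
          (Sum.map id Sum.inr q)) = val a b t := by
        intro t
        funext q
        rcases q with q | q <;> rfl
      simp only [e0] at this
      exact this.1 F1
    have hs' : StrictMono (fun r => σ m (c, r)) := by
      intro r r' hr
      apply (s1 c m _ _).1
      rw [s2, s2]
      exact hs hr
    refine ⟨fun r => σ m (c, r), hs', fun r => s3 m c r c.2.ne, ?_⟩
    rw [← hφ', ← hφ']
    have es : s = fun r => σ c (c, r) := funext fun r => (s2 c r).symm
    have hP : ∀ q : Prop, UD L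
        (fun w : ((Fin m × Fin n) × κ) ⊕ μ → N => ∀ z, z ∈ F (fun j => w j) →
          (z ∈ sol φ' (fun j => w (g c j)) ↔ q))
        (fun w : ((Fin m × Fin n) × κ) ⊕ μ → N => ∀ z, z ∈ F (fun j => w j) →
          (z ∈ sol φ' (fun j => w (g c j)) ↔ q)) := fun q =>
      UD.all (UD.imp (hF.at _ _) (UD.iff (UD.sol _ _ _) (UD.const q)))
    have := (ha.ud (σ m) (σ c) (s1 m c) (hP (x ∈ sol φ' (val a b (fun r => σ m (c, r)))))).1
      (by simpa only [hg] using F2) x F3
    rw [hg, ← es] at this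
    exact this
  intro n s t hs ht φ
  obtain ⟨s', a1, a2, a3⟩ := main n s hs φ
  obtain ⟨t', c1, c2, c3⟩ := main n t ht φ
  rw [a3, c3]
  exact av s' t' (fun k k' => by rw [a1.lt_iff_lt, c1.lt_iff_lt]) a2 c2
    ⟨φ, fun _ => Iff.rfl, fun _ => Iff.rfl⟩

theorem Tree.distal (h : Tree e N) {k : ℕ} (a : I → Fin k → N) (B : Set N) (i : I)
    (h1 : (Set.Iio i).Infinite) (h2 : (Set.Ioi i).Infinite)
    (ha : MT.IndiscernibleOver L (∅ : Set N) a)
    (hB : MT.IndiscernibleOver L B (fun j : {j : I // j ≠ i} => a j)) :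
    MT.IndiscernibleOver L B a := by
  have key : ∀ (m : ℕ) (b : Fin m → N), (∀ l, b l ∈ B) → IndF L a b := by
    intro m
    induction m with
    | zero => exact fun b _ n s t hs ht φ => ha n 0 φ b (fun l => l.elim0) s t hs ht
    | succ m ih =>
      intro b hb
      have e1 : IndF L (fun j : {j : I // j ≠ i} => a j) b :=
        fun n s t hs ht φ => hB n _ φ b hb s t hs ht
      have e2 := e1.comp (Sum.elim (fun _ : Unit => (0 : Fin (m + 1))) Fin.succ)
      have e3 : b ∘ Sum.elim (fun _ : Unit => (0 : Fin (m + 1))) Fin.succ =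
          Sum.elim (fun _ : Unit => b 0) (fun j => b j.succ) := by
        funext q
        rcases q with q | q <;> rfl
      rw [e3] at e2
      have e4 := (h.step h1 h2 (ih (fun j => b j.succ) (fun l => hb _)) e2).comp
        (Fin.cases (Sum.inl ()) Sum.inr : Fin (m + 1) → Unit ⊕ Fin m)
      convert e4
      funext q
      refine Fin.cases ?_ (fun q => ?_) q <;> rfl
  exact fun n m φ b hb s t hs ht => key m b hb n s t hs ht φ

end Pool.Agent.H440Z
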