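import Pool.Agent.H440Z.Lang
import Pool.Agent.H440Z.Dist

/-!
# One-variable definable sets of the string structure
-/

set_option autoImplicit false
set_option linter.all false

namespace Pool.Agent.H440Z

open FirstOrder FirstOrder.Language

variable {ι : Type}

theorem reduce (y : ι → W) (u : Multiset W) (hu : ∀ a ∈ u, ∃ i, y i = a) :
    ∃ S : Finset ι, (∀ t, sm u t = sm (S.val.map y) t) ∧ (∀ n, cnt u n = cnt (S.val.map y) n) ∧
      ∀ i ∈ S, y i ∈ u := by
  classical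
  induction u using Multiset.induction_on with
  | empty => exact ⟨∅, by simp, by simp, by simp⟩
  | cons a u ih =>
    obtain ⟨S, h1, h2, h3⟩ := ih (fun b hb => hu b (Multiset.mem_cons_of_mem hb))
    obtain ⟨i, rfl⟩ := hu a (Multiset.mem_cons_self _ _)
    rw [← Multiset.singleton_add]
    by_cases hi : i ∈ S
    · have e : S.val.map y = {y i} + (S.erase i).val.map y := by
        conv_lhs => rw [← Finset.insert_erase hi, Finset.insert_val_of_notMem (by simp)]
        simp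
      refine ⟨S.erase i, fun t => ?_, fun t => ?_, fun j hj => ?_⟩
      · rw [sm_add, h1, e, sm_add, ← add_assoc, two_add, zero_add]
      · rw [cnt_add, h2, e, cnt_add, ← add_assoc, two_add, zero_add]
      · exact Multiset.mem_add.2 (Or.inr (h3 j (Finset.mem_of_mem_erase hj)))
    · have e : (insert i S).val.map y = {y i} + S.val.map y := by
        rw [Finset.insert_val_of_notMem hi]
        simp
      refine ⟨insert i S, fun t => ?_, fun t => ?_, fun j hj => ?_⟩
      · rw [e, sm_add, sm_add, h1]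
      · rw [e, cnt_add, cnt_add, h2]
      · rcases Finset.mem_insert.1 hj with rfl | hj
        · simp
        · exact Multiset.mem_add.2 (Or.inr (h3 j hj))

theorem reduce' (y : ι → W) (u : Multiset W) (hu : ∀ a ∈ u, ∃ i, y i = a) :
    ∃ S : Finset ι, (∀ c, Bal (u + c) ↔ Bal (S.val.map y + c)) ∧
      (∀ c ρ, Z (u + c) ρ ↔ (∀ a ∈ u, ρ ≤ a.n) ∧ Z (S.val.map y + c) ρ) := by
  obtain ⟨S, h1, h2, h3⟩ := reduce y u hu
  refine ⟨S, fun c => ?_, fun c ρ => ?_⟩
  · simp only [Bal, cnt_add, h2]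
  · simp only [Z, sm_add, h1, Multiset.mem_add, or_imp, forall_and]
    constructor
    · rintro ⟨⟨a1, a2⟩, a3⟩
      refine ⟨a1, ⟨fun a ha => ?_, a2⟩, a3⟩
      obtain ⟨i, hi, rfl⟩ := Multiset.mem_map.1 ha
      exact a1 _ (h3 i hi)
    · rintro ⟨a1, ⟨-, a2⟩, a3⟩
      exact ⟨⟨a1, a2⟩, a3⟩

def nm : Finset ι ⊕ ι → Multiset ι := Sum.elim (fun S => S.val) (fun i => {i} + {i})

theorem cut_mem (y : ι → W) (u : Multiset W) (hu : ∀ a ∈ u, ∃ i, y i = a) (hb : Bal u) :
    ∃ ν, cut u = dp (nm ν) y := by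
  classical
  by_cases h0 : u = 0
  · exact ⟨Sum.inl ∅, by rw [h0, cut_zero]; exact (dp_zero y).symm⟩
  obtain ⟨S, h1, h2⟩ := reduce' y u hu
  have h1' := h1 0
  have h2' := h2 0
  simp only [add_zero] at h1' h2'
  obtain ⟨a, ha, hmin⟩ := Finset.exists_min_image u.toFinset W.n (by simpa using h0)
  simp only [Multiset.mem_toFinset] at ha hmin
  obtain ⟨i, rfl⟩ := hu a ha
  have e1 : ∀ ρ, (∀ a ∈ u, ρ ≤ a.n) ↔ ρ ≤ (y i).n :=
    fun ρ => ⟨fun h => h _ ha, fun h a ha' => h.trans (hmin a ha')⟩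
  by_cases hS : S = ∅
  · refine ⟨Sum.inr i, ?_⟩
    rw [nm, Sum.elim_inr, dp_lev]
    apply cut_eq h0
    intro ρ
    rw [h2', e1, hS]
    simp [Z]
  · have e2 : cut u = min (y i).n (cut (S.val.map y)) := by
      apply cut_eq h0
      intro ρ
      rw [h2', e1, Z_iff (by simpa using hS), le_min_iff]
    rcases le_total (y i).n (cut (S.val.map y)) with h | h
    · exact ⟨Sum.inr i, by rw [nm, Sum.elim_inr, dp_lev, e2, min_eq_left h]⟩
    · exact ⟨Sum.inl S, by rw [nm, Sum.elim_inl, dp_of_bal (h1'.1 hb), e2, min_eq_right h]⟩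

def diagP (y : ι → W) : Set (ℕ × ℕ) := {p | ∃ ν, p = (dp (nm ν) y, dp (nm ν) y)}

def diagQ (y : ι → W) : Set (W × W) := {q | ∃ i, q = (y i, y i)}

theorem diag_snd {y : ι → W} {s : Multiset (W × W)} (hs : ∀ q ∈ s, q ∈ diagQ y) :
    s.map Prod.snd = s.map Prod.fst ∧ ∀ a ∈ s.map Prod.fst, ∃ i, y i = a := by
  constructor
  · apply Multiset.map_congr rfl
    intro q hq
    obtain ⟨i, rfl⟩ := hs q hq
    rfl
  · intro a ha
    obtain ⟨q, hq, rfl⟩ := Multiset.mem_map.1 ha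
    obtain ⟨i, rfl⟩ := hs q hq
    exact ⟨i, rfl⟩

theorem good_diag (r : ℕ) (y : ι → W) : Good r (diagP y) (diagQ y) := by
  refine ⟨?_, fun s hs hb => ?_⟩
  · rintro _ ⟨ν, rfl⟩ _ ⟨ν', rfl⟩ k _
    exact Iff.rfl
  · obtain ⟨e, h⟩ := diag_snd hs
    obtain ⟨ν, hν⟩ := cut_mem y _ h hb
    exact ⟨ν, by rw [e, hν]⟩

theorem Bal_lev {u : Multiset W} {x x' : W} (h : x.n = x'.n) : Bal (u + {x}) ↔ Bal (u + {x'}) := by
  simp only [Bal, cnt_add, cnt_single, h]

def B1 (ν : Finset ι ⊕ ι) (k k' : ℕ) (x : W) (y : ι → W) : Prop := dp (nm ν) y + k ≤ x.n + k'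

def B2 (S : Finset ι) (ν : Finset ι ⊕ ι) (k k' : ℕ) (x : W) (y : ι → W) : Prop :=
  Bal (S.val.map y + {x}) ∧ dp (nm ν) y + k ≤ cut (S.val.map y + {x}) + k'

theorem determine [Finite ι] (r : ℕ) (y : ι → W) (x x' : W)
    (h1 : ∀ ν, ∀ k ≤ r + 1, ∀ k' ≤ r + 1, B1 ν k k' x y ↔ B1 ν k k' x' y)
    (h2 : ∀ S ν, ∀ k ≤ r + 1, ∀ k' ≤ r + 1, B2 S ν k k' x y ↔ B2 S ν k k' x' y) :
    ∃ P, Good r P (insert (x, x') (diagQ y)) := by
  classical
  have hg := good_diag r y
  by_cases hnew : ∀ q ∈ diagQ y, q.1.n ≠ x.n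
  · have hI : Iso r (insert (x.n, x'.n) (diagP y)) := by
      refine hg.1.insert ?_
      rintro _ ⟨ν, rfl⟩ k hk
      have a1 := h1 ν k (by omega) 0 (by omega)
      have a2 := h1 ν 1 (by omega) k (by omega)
      simp only [B1] at a1 a2 ⊢
      omega
    exact ⟨_, (hg.mono_P (Set.subset_insert _ _) hI).addNew (Set.mem_insert _ _) hnew⟩
  push Not at hnew
  obtain ⟨_, ⟨i, rfl⟩, hi⟩ := hnew
  simp only at hi
  have hn : x.n = x'.n := by
    have a1 := h1 (Sum.inr i) 0 (by omega) 0 (by omega)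
    have a2 := h1 (Sum.inr i) 1 (by omega) 0 (by omega)
    simp only [B1, nm, Sum.elim_inr, dp_lev] at a1 a2
    omega
  have := Fintype.ofFinite ι
  obtain ⟨T, hT, hmax⟩ := Finset.exists_max_image
    (Finset.univ.filter (fun S : Finset ι => Bal (S.val.map y + {x})))
    (fun S => cut (S.val.map y + {x})) ⟨{i}, by simpa using Bal_pair.2 hi⟩
  simp only [Finset.mem_filter, Finset.mem_univ, true_and] at hT hmax
  set w := cut (T.val.map y + {x}) with hw
  set w' := cut (T.val.map y + {x'}) with hw'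
  have hT' := (Bal_lev hn).1 hT
  have hI : Iso r (insert (w, w') (diagP y)) := by
    refine hg.1.insert ?_
    rintro _ ⟨ν, rfl⟩ k hk
    have a1 := h2 T ν k (by omega) 0 (by omega)
    have a2 := h2 T ν 1 (by omega) k (by omega)
    simp only [B2, hT, hT', true_and] at a1 a2 ⊢
    omega
  have hg' := hg.mono_P (Set.subset_insert _ _) hI
  have hT0 : T.val.map y ≠ 0 := by
    intro h
    rw [h] at hT
    exact not_bal_new (by simp) hT
  have e1 : (T.val.map (fun i => (y i, y i))).map Prod.fst = T.val.map y := by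
    rw [Multiset.map_map]; rfl
  have e2 : (T.val.map (fun i => (y i, y i))).map Prod.snd = T.val.map y := by
    rw [Multiset.map_map]; rfl
  have z1 : Z (T.val.map y + {x}) w := (Z_iff (by simp) _).2 le_rfl
  have z2 : Z (T.val.map y + {x'}) w' := (Z_iff (by simp) _).2 le_rfl
  refine ⟨_, hg'.addOld (c := T.val.map (fun i => (y i, y i))) ?_ ?_ (by rwa [e1])
    (Set.mem_insert _ _) (by rwa [e1]) (by rwa [e2]) ?_⟩
  · rw [← hn, ← hi]
    exact hg'.lev ⟨i, rfl⟩
  · intro q hq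
    obtain ⟨j, -, rfl⟩ := Multiset.mem_map.1 hq
    exact ⟨j, rfl⟩
  · intro s hs hb
    obtain ⟨e, h⟩ := diag_snd hs
    rw [e]
    obtain ⟨S, r1, r2⟩ := reduce' y _ h
    have hS := (r1 _).1 hb
    have hS' := (Bal_lev hn).1 hS
    have n1 : ¬ Z (S.val.map y + {x}) (w + 1) := by
      rw [Z_iff (by simp)]
      have := hmax S hS
      omega
    refine ⟨fun hz => n1 ((r2 _ _).1 hz).2, fun hz => ?_⟩
    have hz' := ((r2 _ _).1 hz).2
    have hS0 : S.val.map y ≠ 0 := by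
      intro h
      rw [h] at hS
      exact not_bal_new (by simp) hS
    have c1 := cut_of_max (a := T.val.map y) hz' (by rw [Z_iff (by simp)]; omega) hS0
    have c2 := cut_of_max z1 n1 hT0
    obtain ⟨ν, hν⟩ := cut_mem y (S.val.map y + T.val.map y) (by
      intro a ha
      simp only [Multiset.mem_add, Multiset.mem_map] at ha
      rcases ha with ⟨j, -, rfl⟩ | ⟨j, -, rfl⟩ <;> exact ⟨j, rfl⟩) (Bal_cancel hS hT)
    rw [add_comm (T.val.map y) (S.val.map y)] at c1
    have a1 := h2 S ν 1 (by omega) 0 (by omega)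
    simp only [B2, hS, hS', true_and] at a1
    rw [Z_iff (by simp)] at hz'
    omega

theorem dp_map {α β : Type} (g : α → β) (s : Multiset α) (v : β → W) :
    dp (s.map g) v = dp s (fun i => v (g i)) := by
  unfold dp
  rw [Multiset.map_map]
  rfl

theorem inv_B1 (ν : Finset ι ⊕ ι) (k k' : ℕ) :
    Inv (fun v : Unit ⊕ ι → W => B1 ν k k' (v (Sum.inl ())) (fun i => v (Sum.inr i))) := by
  refine (Inv.le ((nm ν).map Sum.inr) ({Sum.inl ()} + {Sum.inl ()}) k k').congr fun v => ?_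
  rw [dp_map, dp_lev]
  rfl

theorem inv_B2 (S : Finset ι) (ν : Finset ι ⊕ ι) (k k' : ℕ) :
    Inv (fun v : Unit ⊕ ι → W => B2 S ν k k' (v (Sum.inl ())) (fun i => v (Sum.inr i))) := by
  refine ((Inv.bal (S.val.map Sum.inr + {Sum.inl ()})).and
    (Inv.le ((nm ν).map Sum.inr) (S.val.map Sum.inr + {Sum.inl ()}) k k')).congr fun v => ?_
  have e : (S.val.map Sum.inr + {Sum.inl ()} : Multiset (Unit ⊕ ι)).map v =
      S.val.map (fun i => v (Sum.inr i)) + {v (Sum.inl ())} := by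
    rw [Multiset.map_add, Multiset.map_map, Multiset.map_singleton]
    rfl
  rw [dp_map, B2, e]
  refine and_congr_right fun h => ?_
  rw [dp_of_bal (s := S.val.map Sum.inr + {Sum.inl ()}) (by rwa [e]), e]

theorem B2_ball (S : Finset ι) (ν : Finset ι ⊕ ι) (k k' : ℕ) (y : ι → W) :
    {x | B2 S ν k k' x y} ∈ balls eF W ∨ {x | B2 S ν k k' x y} = ∅ := by
  by_cases h : ∃ x0, B2 S ν k k' x0 y
  · obtain ⟨x0, b0, b1⟩ := h
    left
    have hz0 : Z (S.val.map y + {x0}) (dp (nm ν) y + k - k') := by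
      rw [Z_iff (by simp)]
      omega
    have hρ : dp (nm ν) y + k - k' ≤ x0.n := hz0.1 x0 (by simp)
    convert ballW_mem (u := x0) hρ using 1
    ext x
    constructor
    · rintro ⟨c0, c1⟩
      have hz : Z (S.val.map y + {x}) (dp (nm ν) y + k - k') := by
        rw [Z_iff (by simp)]
        omega
      rw [add_comm] at hz hz0 c0 b0
      exact ⟨Bal_pair.1 (Bal_cancel c0 b0), (Z_pair.1 (Z_cancel hz hz0)).2.2⟩
    · rintro ⟨c0, c1⟩
      refine ⟨(Bal_lev c0).2 b0, ?_⟩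
      have hz : Z ({x} + {x0}) (dp (nm ν) y + k - k') := Z_pair.2 ⟨by omega, hρ, c1⟩
      have := Z_cancel hz0 hz
      rw [Z_iff (by simp)] at this
      omega
  · right
    exact Set.eq_empty_of_forall_notMem fun x hx => h ⟨x, hx⟩

theorem tree_W : Tree eF W := by
  refine ⟨lamin_W, binr_W, fun ι _ φ => ?_⟩
  obtain ⟨r, hr⟩ := qe φ
  choose f1 hf1 using fun p : (Finset ι ⊕ ι) × Fin (r + 2) × Fin (r + 2) =>
    (inv_B1 p.1 p.2.1 p.2.2).formula
  choose f2 hf2 using fun p : Finset ι × (Finset ι ⊕ ι) × Fin (r + 2) × Fin (r + 2) =>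
    (inv_B2 p.1 p.2.1 p.2.2.1 p.2.2.2).formula
  have s1 : ∀ p y, sol (f1 p) y = {x | B1 p.1 p.2.1 p.2.2 x y} :=
    fun p y => Set.ext fun x => hf1 p _
  have s2 : ∀ p y, sol (f2 p) y = {x | B2 p.1 p.2.1 p.2.2.1 p.2.2.2 x y} :=
    fun p y => Set.ext fun x => hf2 p _
  refine ⟨_, inferInstance, Sum.elim f1 f2, ?_, fun y x x' h => ?_⟩
  · rintro (p | p) y
    · left
      rw [Sum.elim_inl, s1]
      convert upW_mem (dp (nm p.1) y + p.2.1 - p.2.2) using 1
      ext x
      simp only [B1, upW, Set.mem_setOf_eq]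
      omega
    · rw [Sum.elim_inr, s2]
      exact B2_ball _ _ _ _ _
  · obtain ⟨P, hP⟩ := determine r y x x'
      (fun ν k hk k' hk' => by
        have := h (Sum.inl (ν, ⟨k, by omega⟩, ⟨k', by omega⟩))
        rwa [Sum.elim_inl, s1] at this)
      (fun S ν k hk k' hk' => by
        have := h (Sum.inr (S, ν, ⟨k, by omega⟩, ⟨k', by omega⟩))
        rwa [Sum.elim_inr, s2] at this)
    refine hr P _ hP _ _ ?_
    rintro (i | i)
    · exact Set.mem_insert _ _
    · exact Set.mem_insert_of_mem _ ⟨i, rfl⟩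

universe u

theorem dpMinimal_W : MT.DpMinimal.{u} LL W :=
  fun _ _ E m n φ ψ a c => (tree_W.transfer E).noIct m n φ ψ a c

theorem distal_W : MT.Distal.{u} LL W :=
  fun _ _ E _ _ _ a B i h1 h2 ha hB => (tree_W.transfer E).distal a B i h1 h2 ha hB

end Pool.Agent.H440Z
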