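import Pool.Agent.H440Z.ND

/-!
# The family does not fork over the standard model
-/

set_option autoImplicit false
set_option linter.all false

namespace Pool.Agent.H440Z

open FirstOrder FirstOrder.Language MT

universe u

theorem reduce_idx {κ : Type} (c : Multiset κ) :
    ∃ S : Finset κ, (∀ i ∈ S, i ∈ c) ∧ ∀ y : κ → W,
      (∀ t, sm (c.map y) t = sm (S.val.map y) t) ∧ (∀ n, cnt (c.map y) n = cnt (S.val.map y) n) := by
  classical
  induction c using Multiset.induction_on with
  | empty => exact ⟨∅, by simp, by simp⟩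
  | cons i c ih =>
    obtain ⟨S, h3, h⟩ := ih
    rw [← Multiset.singleton_add]
    by_cases hi : i ∈ S
    · refine ⟨S.erase i, fun j hj => ?_, fun y => ?_⟩
      · exact Multiset.mem_add.2 (Or.inr (h3 j (Finset.mem_of_mem_erase hj)))
      · have e : S.val.map y = {y i} + (S.erase i).val.map y := by
          conv_lhs => rw [← Finset.insert_erase hi, Finset.insert_val_of_notMem (by simp)]
          simp
        rw [Multiset.map_add, Multiset.map_singleton]
        refine ⟨fun t => ?_, fun t => ?_⟩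
        · rw [sm_add, (h y).1, e, sm_add, ← add_assoc, two_add, zero_add]
        · rw [cnt_add, (h y).2, e, cnt_add, ← add_assoc, two_add, zero_add]
    · refine ⟨insert i S, fun j hj => ?_, fun y => ?_⟩
      · rcases Finset.mem_insert.1 hj with rfl | hj
        · simp
        · exact Multiset.mem_add.2 (Or.inr (h3 j hj))
      · have e : (insert i S).val.map y = {y i} + S.val.map y := by
          rw [Finset.insert_val_of_notMem hi]
          simp
        rw [Multiset.map_add, Multiset.map_singleton]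
        refine ⟨fun t => ?_, fun t => ?_⟩
        · rw [e, sm_add, sm_add, (h y).1]
        · rw [e, cnt_add, cnt_add, (h y).2]

theorem cut_idx {κ : Type} [DecidableEq κ] {c : Multiset κ} {S : Finset κ} (h1 : ∀ i ∈ S, i ∈ c) {y : κ → W}
    (h2 : ∀ t, sm (c.map y) t = sm (S.val.map y) t) {i : κ} (hi : i ∈ c)
    (hmin : ∀ j ∈ c, (y i).n ≤ (y j).n) :
    cut (c.map y) = if S = ∅ then (y i).n else min (y i).n (cut (S.val.map y)) := by
  have h0 : c.map y ≠ 0 := by
    intro h
    rw [Multiset.map_eq_zero] at h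
    rw [h] at hi
    simp at hi
  have key : ∀ ρ, Z (c.map y) ρ ↔ ρ ≤ (y i).n ∧ Z (S.val.map y) ρ := by
    intro ρ
    simp only [Z, h2, Multiset.mem_map, forall_exists_index, and_imp, forall_apply_eq_imp_iff₂]
    exact ⟨fun h => ⟨h.1 i hi, fun j hj => h.1 j (h1 j hj), h.2⟩,
      fun h => ⟨fun j hj => h.1.trans (hmin j hj), h.2.2⟩⟩
  apply cut_eq h0
  intro ρ
  rw [key]
  by_cases hS : S = ∅
  · rw [if_pos hS, hS]
    simp [Z]
  · rw [if_neg hS, Z_iff (by simpa using hS), le_min_iff]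

def Agree (r : ℕ) {κ : Type} (v v' : κ → W) : Prop :=
  ∀ ν ν' : Finset κ ⊕ κ, ∀ k ≤ r,
    (dp (nm ν) v + k ≤ dp (nm ν') v ↔ dp (nm ν) v' + k ≤ dp (nm ν') v')

theorem agree_good {r : ℕ} {κ : Type} {v v' : κ → W} (h : Agree r v v') :
    Good r {p | ∃ ν, p = (dp (nm ν) v, dp (nm ν) v')} {q | ∃ i, q = (v i, v' i)} := by
  classical
  have hI : Iso r {p | ∃ ν, p = (dp (nm ν) v, dp (nm ν) v')} := by
    rintro _ ⟨ν, rfl⟩ _ ⟨ν', rfl⟩ k hk
    exact h ν ν' k hk
  have hl : ∀ i, ((v i).n, (v' i).n) ∈ {p | ∃ ν, p = (dp (nm ν) v, dp (nm ν) v')} :=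
    fun i => ⟨Sum.inr i, by simp only [nm, Sum.elim_inr, dp_lev]⟩
  refine ⟨hI, fun s hs hb => ?_⟩
  have hb' : Bal (s.map Prod.snd) := by
    refine (bal_iff_of_lev fun q hq q' hq' => ?_).1 hb
    obtain ⟨i, rfl⟩ := hs q hq
    obtain ⟨j, rfl⟩ := hs q' hq'
    exact hI.eq (hl i) (hl j)
  obtain ⟨c, rfl⟩ : ∃ c : Multiset κ, s = c.map (fun i => (v i, v' i)) := by
    clear hb hb'
    induction s using Multiset.induction_on with
    | empty => exact ⟨0, rfl⟩
    | cons q s ih =>
      obtain ⟨c, rfl⟩ := ih (fun q hq => hs q (Multiset.mem_cons_of_mem hq))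
      obtain ⟨i, rfl⟩ := hs q (Multiset.mem_cons_self _ _)
      exact ⟨i ::ₘ c, by simp⟩
  simp only [Multiset.map_map, Function.comp_def] at hb hb' ⊢
  by_cases h0 : c = 0
  · subst h0
    exact ⟨Sum.inl ∅, by simp [nm, dp_zero, cut_zero]⟩
  obtain ⟨i, hi, hmin⟩ := Finset.exists_min_image c.toFinset (fun i => (v i).n) (by simpa using h0)
  simp only [Multiset.mem_toFinset] at hi hmin
  obtain ⟨S, s1, s2⟩ := reduce_idx c
  rw [cut_idx s1 (s2 v).1 hi hmin,
    cut_idx s1 (s2 v').1 hi (fun j hj => (hI.le (hl i) (hl j)).1 (hmin j hj))]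
  by_cases hS : S = ∅
  · rw [if_pos hS, if_pos hS]
    exact hl i
  · rw [if_neg hS, if_neg hS]
    apply hI.min (hl i)
    refine ⟨Sum.inl S, ?_⟩
    simp only [nm, Sum.elim_inl]
    rw [dp_of_bal (fun n => by rw [← (s2 v).2]; exact hb n),
      dp_of_bal (fun n => by rw [← (s2 v').2]; exact hb' n)]

theorem dp_le {κ : Type} (s : Multiset κ) (v : κ → W) {B : ℕ} (h : ∀ i, (v i).n ≤ B) :
    dp s v ≤ B := by
  unfold dp
  split_ifs
  · by_cases h0 : s = 0
    · simp [h0, cut_zero]
    · obtain ⟨i, hi⟩ := Multiset.exists_mem_of_ne_zero h0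
      exact (cut_le (Multiset.mem_map_of_mem v hi)).trans (h i)
  · exact Nat.zero_le _

def Far {ι : Type} (y : ι → W) (u : W) : Prop :=
  ∀ S : Finset ι, ¬ Z (S.val.map y + ({u} + {W.zero u.n})) u.n

def ext1 (u : W) (n : ℕ) : W := ⟨max n u.n, u.f, fun t ht => u.hf t (le_of_max_le_right ht)⟩

theorem side {ι : Type} {y : ι → W} {u : W} (hF : Far y u) {n : ℕ}
    {a : Multiset W} (ha : ∀ z ∈ a, z = W.zero n ∨ (∃ i, y i = z) ∨ z.n = u.n) :
    ¬ Z (a + {ext1 u n}) (u.n + 1) := by
  classical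
  intro hz
  obtain ⟨S, -, r2⟩ := reduce' y (a.filter (fun z => z ≠ W.zero n)) (by
    intro z hz'
    rw [Multiset.mem_filter] at hz'
    have := hz.1 z (Multiset.mem_add.2 (Or.inl hz'.1))
    rcases ha z hz'.1 with h | h | h
    · exact absurd h hz'.2
    · exact h
    · omega)
  apply hF S
  refine ((r2 _ _).1 ⟨fun z hz' => ?_, fun t ht => ?_⟩).2
  · simp only [Multiset.mem_add, Multiset.mem_filter, Multiset.mem_singleton] at hz'
    rcases hz' with h | rfl | rfl
    · exact le_trans (Nat.le_succ _) (hz.1 z (Multiset.mem_add.2 (Or.inl h.1)))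
    · exact le_rfl
    · exact le_rfl
  · have e1 := hz.2 t (by omega)
    have e2 : sm a t = sm (a.filter (fun z => z ≠ W.zero n)) t := by
      conv_lhs => rw [← Multiset.filter_add_not (fun z => z ≠ W.zero n) a]
      rw [sm_add, add_eq_left]
      apply Multiset.sum_eq_zero
      intro x hx
      obtain ⟨z, hz, rfl⟩ := Multiset.mem_map.1 hx
      rw [Multiset.mem_filter, not_not] at hz
      rw [hz.2]
      rfl
    rw [sm_add, sm_single, e2] at e1
    rw [sm_add, sm_add, sm_single, sm_single]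
    simpa [W.zero, ext1] using e1

theorem t4 {ι : Type} {r : ℕ} {y y' : ι → W} {u : W} (hF : Far y u) (hF' : Far y' u)
    (hA : Agree r (Sum.elim y ![u, W.zero u.n]) (Sum.elim y' ![u, W.zero u.n])) {B n : ℕ}
    (hB : ∀ i, (y i).n ≤ B) (hB' : ∀ i, (y' i).n ≤ B) (hu : u.n ≤ B) (hn : B + r + 1 ≤ n) :
    ∃ P Q, Good r P Q ∧ (W.zero n, W.zero n) ∈ Q ∧ (ext1 u n, ext1 u n) ∈ Q ∧
      ∀ i, (y i, y' i) ∈ Q := by
  have hg := agree_good hA
  set v := Sum.elim y ![u, W.zero u.n] with hv
  set v' := Sum.elim y' ![u, W.zero u.n] with hv'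
  have b1 : ∀ i, (v i).n ≤ B := by
    rintro (i | i)
    · exact hB i
    · fin_cases i <;> exact hu
  have b2 : ∀ i, (v' i).n ≤ B := by
    rintro (i | i)
    · exact hB' i
    · fin_cases i <;> exact hu
  have hI : Iso r (insert (n, n) {p | ∃ ν, p = (dp (nm ν) v, dp (nm ν) v')}) := by
    refine hg.1.insert ?_
    rintro _ ⟨ν, rfl⟩ k hk
    have a1 := dp_le (nm ν) v b1
    have a2 := dp_le (nm ν) v' b2
    simp only
    omega
  have g1 := (hg.mono_P (Set.subset_insert _ _) hI).addNew (x := W.zero n) (y := W.zero n)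
    (Set.mem_insert _ _) (by
      rintro _ ⟨i, rfl⟩
      have := b1 i
      change (v i).n ≠ n
      omega)
  have en : (ext1 u n).n = n := max_eq_left (by omega)
  have hz : Z ({W.zero n} + ({u} + {W.zero u.n}) + {ext1 u n}) u.n := by
    refine ⟨fun a ha => ?_, fun t ht => ?_⟩
    · simp only [Multiset.mem_add, Multiset.mem_singleton] at ha
      rcases ha with (rfl | rfl | rfl) | rfl
      · change u.n ≤ n
        omega
      · exact le_rfl
      · exact le_rfl
      · omega
    · simp only [sm_add, sm_single, W.zero, ext1, zero_add, add_zero, two_add]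
  have mu : (u, u) ∈ insert (W.zero n, W.zero n) {q | ∃ i, q = (v i, v' i)} :=
    Set.mem_insert_of_mem _ ⟨Sum.inr 0, rfl⟩
  have g2 := g1.addOld (x := ext1 u n) (y := ext1 u n) (by rw [en]; exact Set.mem_insert _ _)
    (c := {(W.zero n, W.zero n)} + ({(u, u)} + {(W.zero u.n, W.zero u.n)})) (by
      intro q hq
      simp only [Multiset.mem_add, Multiset.mem_singleton] at hq
      rcases hq with rfl | rfl | rfl
      · exact Set.mem_insert _ _
      · exact mu
      · exact Set.mem_insert_of_mem _ ⟨Sum.inr 1, rfl⟩) (by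
      intro m
      simp only [Multiset.map_add, Multiset.map_singleton, cnt_add, cnt_single, en, W.zero,
        two_add, add_zero]) (g1.lev mu)
    (by simpa only [Multiset.map_add, Multiset.map_singleton] using hz)
    (by simpa only [Multiset.map_add, Multiset.map_singleton] using hz) (by
      intro s hs _
      refine ⟨side hF fun z hz => ?_, side hF' fun z hz => ?_⟩
      · obtain ⟨q, hq, rfl⟩ := Multiset.mem_map.1 hz
        rcases hs q hq with rfl | ⟨i | i, rfl⟩
        · exact Or.inl rfl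
        · exact Or.inr (Or.inl ⟨i, rfl⟩)
        · fin_cases i <;> exact Or.inr (Or.inr rfl)
      · obtain ⟨q, hq, rfl⟩ := Multiset.mem_map.1 hz
        rcases hs q hq with rfl | ⟨i | i, rfl⟩
        · exact Or.inl rfl
        · exact Or.inr (Or.inl ⟨i, rfl⟩)
        · fin_cases i <;> exact Or.inr (Or.inr rfl))
  exact ⟨_, _, g2, Set.mem_insert_of_mem _ (Set.mem_insert _ _), Set.mem_insert _ _,
    fun i => Set.mem_insert_of_mem _ (Set.mem_insert_of_mem _ ⟨Sum.inl i, rfl⟩)⟩

def uu (C : ℕ) (i : Fin (C + 1)) : W :=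
  ⟨C + 2, fun t => if t = 0 ∨ t = i + 1 then 1 else 0, fun t ht => by
    have := i.2
    rw [if_neg (by omega)]⟩

theorem exists_far {K : Type} [Fintype K] (w : K → Multiset W) :
    ∃ i : Fin (Fintype.card K + 1), ∀ κ, ¬ Z (w κ + ({uu _ i} + {W.zero (Fintype.card K + 2)}))
      (Fintype.card K + 2) := by
  by_contra hn
  push Not at hn
  choose g hg using hn
  have : Function.Injective g := by
    intro i j hij
    have h1 := hg i
    have h2 := hg j
    rw [hij] at h1
    have e1 := h1.2 (i + 1) (by have := i.2; omega)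
    have e2 := h2.2 (i + 1) (by have := i.2; omega)
    have e3 := e1.trans e2.symm
    simp only [sm_add, sm_single, uu, W.zero, add_zero, add_right_inj, or_true, if_true] at e3
    by_contra hne
    rw [if_neg (by
      rintro (h | h)
      · omega
      · exact hne (Fin.ext (by omega)))] at e3
    exact absurd e3 (by decide)
  have := Fintype.card_le_of_injective g this
  simp at this

theorem inv_point {U : Type u} [LL.Structure U] (f : W ↪ₑ[LL] U) {J : Type} [Finite J]
    (l : J → ℕ) (ψ : ∀ j, LL.Formula (Fin 2 ⊕ Fin (l j))) (z z' : ∀ j, Fin (l j) → U)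
    (hz : ∀ j, SameType LL (Set.range f) (z j) (z' j)) (e : Fin 1 → U) :
    ∃ x : Fin 2 → U, pF.Realize (Sum.elim x e) ∧
      ∀ j, ((ψ j).Realize (Sum.elim x (z j)) ↔ (ψ j).Realize (Sum.elim x (z' j))) := by
  classical
  have := Fintype.ofFinite J
  choose r hr using fun j => qe (ψ j)
  let K := Σ j : J, Bool × Finset (Fin (l j))
  set C := Fintype.card K with hC
  let Θ : J → Type := fun j =>
    (Finset (Fin (l j) ⊕ Fin 2) ⊕ (Fin (l j) ⊕ Fin 2)) ×
      (Finset (Fin (l j) ⊕ Fin 2) ⊕ (Fin (l j) ⊕ Fin 2)) × Fin (r j + 1)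
  choose θ hθ using fun (j : J) (p : Θ j) => (Inv.le (nm p.1) (nm p.2.1) p.2.2 0).formula
  let ι := Σ j : J, Fin (l j)
  have H : UD LL
      (fun v : Unit ⊕ Fin (C + 1) → W => ∀ w : Fin 1 ⊕ (ι ⊕ ι) → W, ∃ i : Fin (C + 1),
        ∃ x : Fin 2 → W, pF.Realize (Sum.elim x (fun q => w (Sum.inl q))) ∧ ∀ j,
          (∀ p : Θ j, (θ j p).Realize (Sum.elim (fun q => w (Sum.inr (Sum.inl ⟨j, q⟩)))
              ![v (Sum.inr i), v (Sum.inl ())]) ↔
            (θ j p).Realize (Sum.elim (fun q => w (Sum.inr (Sum.inr ⟨j, q⟩)))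
              ![v (Sum.inr i), v (Sum.inl ())])) →
          ((ψ j).Realize (Sum.elim x (fun q => w (Sum.inr (Sum.inl ⟨j, q⟩)))) ↔
            (ψ j).Realize (Sum.elim x (fun q => w (Sum.inr (Sum.inr ⟨j, q⟩))))))
      (fun v : Unit ⊕ Fin (C + 1) → U => ∀ w : Fin 1 ⊕ (ι ⊕ ι) → U, ∃ i : Fin (C + 1),
        ∃ x : Fin 2 → U, pF.Realize (Sum.elim x (fun q => w (Sum.inl q))) ∧ ∀ j,
          (∀ p : Θ j, (θ j p).Realize (Sum.elim (fun q => w (Sum.inr (Sum.inl ⟨j, q⟩)))
              ![v (Sum.inr i), v (Sum.inl ())]) ↔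
            (θ j p).Realize (Sum.elim (fun q => w (Sum.inr (Sum.inr ⟨j, q⟩)))
              ![v (Sum.inr i), v (Sum.inl ())])) →
          ((ψ j).Realize (Sum.elim x (fun q => w (Sum.inr (Sum.inl ⟨j, q⟩)))) ↔
            (ψ j).Realize (Sum.elim x (fun q => w (Sum.inr (Sum.inr ⟨j, q⟩)))))) := by
    refine UD.allT (UD.exFin fun i => UD.exT (UD.and ?_ (UD.allFin fun j =>
      UD.imp (UD.allFin fun p => UD.iff ?_ ?_) (UD.iff ?_ ?_))))
    · refine UD.atom pF (Sum.elim Sum.inl (fun q => Sum.inr (Sum.inl (Sum.inl q))))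
        (fun v => ?_) (fun v => ?_) <;>
      · funext q
        rcases q with q | q <;> rfl
    · refine UD.atom (θ j p) (Sum.elim (fun q => Sum.inr (Sum.inl (Sum.inr (Sum.inl ⟨j, q⟩))))
        ![Sum.inr (Sum.inr (Sum.inr i)), Sum.inr (Sum.inr (Sum.inl ()))])
        (fun v => ?_) (fun v => ?_) <;>
      · funext q
        rcases q with q | q
        · rfl
        · fin_cases q <;> rfl
    · refine UD.atom (θ j p) (Sum.elim (fun q => Sum.inr (Sum.inl (Sum.inr (Sum.inr ⟨j, q⟩))))
        ![Sum.inr (Sum.inr (Sum.inr i)), Sum.inr (Sum.inr (Sum.inl ()))])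
        (fun v => ?_) (fun v => ?_) <;>
      · funext q
        rcases q with q | q
        · rfl
        · fin_cases q <;> rfl
    · refine UD.atom (ψ j) (Sum.elim Sum.inl
        (fun q => Sum.inr (Sum.inl (Sum.inr (Sum.inl ⟨j, q⟩))))) (fun v => ?_) (fun v => ?_) <;>
      · funext q
        rcases q with q | q <;> rfl
    · refine UD.atom (ψ j) (Sum.elim Sum.inl
        (fun q => Sum.inr (Sum.inl (Sum.inr (Sum.inr ⟨j, q⟩))))) (fun v => ?_) (fun v => ?_) <;>
      · funext q
        rcases q with q | q <;> rfl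
  obtain ⟨i, x, h1, h2⟩ := (H.emb f (Sum.elim (fun _ => W.zero (C + 2)) (uu C))).2 (by
    intro w
    obtain ⟨i, hi⟩ := exists_far (K := K) (fun κ => κ.2.2.val.map (fun q =>
      if κ.2.1 then w (Sum.inr (Sum.inl ⟨κ.1, q⟩)) else w (Sum.inr (Sum.inr ⟨κ.1, q⟩))))
    set B := Finset.univ.sup (fun q => (w q).n) + (C + 2) with hB
    have hw : ∀ q, (w q).n ≤ B := fun q =>
      le_trans (Finset.le_sup (f := fun q => (w q).n) (Finset.mem_univ q)) (Nat.le_add_right _ _)
    set n := B + Finset.univ.sup r + 1 with hn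
    refine ⟨i, ![W.zero n, ext1 (uu C i) n], ?_, fun j hj => ?_⟩
    · rw [pF_iff]
      have en : (ext1 (uu C i) n).n = n := max_eq_left (by change C + 2 ≤ n; omega)
      refine ⟨en.symm, ?_, ?_, ?_⟩
      · have := hw (Sum.inl 0)
        change (w (Sum.inl 0)).n ≤ n
        omega
      · change 1 ≤ n
        omega
      · simp [W.zero, ext1, uu]
    · have hrj : r j ≤ Finset.univ.sup r := Finset.le_sup (f := r) (Finset.mem_univ j)
      obtain ⟨P, Q, hg, q1, q2, q3⟩ := t4 (r := r j) (u := uu C i)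
        (y := fun q => w (Sum.inr (Sum.inl ⟨j, q⟩))) (y' := fun q => w (Sum.inr (Sum.inr ⟨j, q⟩)))
        (fun S => hi ⟨j, true, S⟩) (fun S => hi ⟨j, false, S⟩) (by
          intro ν ν' k hk
          have := hj (ν, ν', ⟨k, by omega⟩)
          rw [hθ, hθ] at this
          exact this) (B := B) (n := n) (fun _ => hw _) (fun _ => hw _)
          (by change C + 2 ≤ B; omega) (by omega)
      refine hr j P Q hg _ _ ?_
      rintro (q | q)
      · fin_cases q
        · exact q1
        · exact q2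
      · exact q3 q)
    (Sum.elim e (Sum.elim (fun q => z q.1 q.2) (fun q => z' q.1 q.2)))
  refine ⟨x, h1, fun j => h2 j fun p => ?_⟩
  let a : Fin 2 → Set.range f := ![⟨f (uu C i), _, rfl⟩, ⟨f (W.zero (C + 2)), _, rfl⟩]
  have := hz j (BoundedFormula.constantsVarsEquiv.symm
    ((θ j p).relabel (Sum.elim Sum.inr (fun q => Sum.inl (a q))) :
      LL.Formula (Set.range f ⊕ Fin (l j))))
  have key : ∀ t : Fin (l j) → U, Formula.Realize (BoundedFormula.constantsVarsEquiv.symm
      ((θ j p).relabel (Sum.elim Sum.inr (fun q => Sum.inl (a q))) :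
        LL.Formula (Set.range f ⊕ Fin (l j))) : LL[[Set.range f]].Formula (Fin (l j))) t ↔
      (θ j p).Realize (Sum.elim t ![f (uu C i), f (W.zero (C + 2))]) := by
    intro t
    refine BoundedFormula.realize_constantsVarsEquiv.symm.trans ?_
    rw [Equiv.apply_symm_apply]
    refine Formula.realize_relabel.trans ?_
    apply iff_of_eq
    congr 1
    funext q
    rcases q with q | q
    · rfl
    · fin_cases q <;> rfl
  rw [key, key] at this
  exact this

theorem not_forks {U : Type u} [LL.Structure U] (f : W ↪ₑ[LL] U) (e : Fin 1 → U) :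
    ¬ Forks (Set.range f) pF e := by
  rintro ⟨r, l, ψ, c, hd, himp⟩
  choose k d h1 h2 using hd
  obtain ⟨x, hx1, hx2⟩ := inv_point f (J := Σ j : Fin r, Fin (k j)) (fun q => l q.1)
    (fun q => ψ q.1) (fun q => d q.1 q.2) (fun q => c q.1) (fun q => h1 q.1 q.2) e
  obtain ⟨j, hj⟩ := himp x hx1
  refine h2 j (Finset.range (k j)) (Finset.card_range _) ⟨x, fun i hi => ?_⟩
  exact (hx2 ⟨j, ⟨i, Finset.mem_range.1 hi⟩⟩).2 hj

end Pool.Agent.H440Z
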