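import Pool.Agent.H440Z.Str

/-!
# Back-and-forth systems on binary strings
-/

set_option autoImplicit false
set_option linter.all false

namespace Pool.Agent.H440Z

/-- `Q` is a partial map on strings whose data are matched by `P` -/
def Good (r : ℕ) (P : Set (ℕ × ℕ)) (Q : Set (W × W)) : Prop :=
  Iso r P ∧ ∀ s : Multiset (W × W), (∀ q ∈ s, q ∈ Q) → Bal (s.map Prod.fst) →
    (cut (s.map Prod.fst), cut (s.map Prod.snd)) ∈ P

variable {r : ℕ} {P : Set (ℕ × ℕ)} {Q : Set (W × W)}

lemma Good.mono_r (h : Good r P Q) {r' : ℕ} (hr : r' ≤ r) : Good r' P Q := ⟨h.1.mono hr, h.2⟩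

lemma Good.mono_Q (h : Good r P Q) {Q' : Set (W × W)} (hQ : Q' ⊆ Q) : Good r P Q' :=
  ⟨h.1, fun s hs => h.2 s fun q hq => hQ (hs q hq)⟩

lemma Good.mono_P (h : Good r P Q) {r' : ℕ} {P' : Set (ℕ × ℕ)} (hP : P ⊆ P') (hI : Iso r' P') :
    Good r' P' Q :=
  ⟨hI, fun s hs hb => hP (h.2 s hs hb)⟩

lemma Good.zero (h : Good r P Q) : (0, 0) ∈ P := by
  have := h.2 0 (by simp) (by simpa using Bal_zero)
  simpa [cut_zero] using this

lemma Good.lev (h : Good r P Q) {a b : W} (hq : (a, b) ∈ Q) : (a.n, b.n) ∈ P := by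
  have := h.2 (0 + {(a, b)} + {(a, b)}) (by simpa using hq)
    (by
      simp only [Multiset.map_add, Multiset.map_zero, Multiset.map_singleton]
      exact (Bal_double 0 a).2 Bal_zero)
  simp only [Multiset.map_add, Multiset.map_zero, Multiset.map_singleton] at this
  rwa [cut_double_zero, cut_double_zero] at this

lemma cnt_transfer {s : Multiset (W × W)} {n n' : ℕ}
    (h : ∀ q ∈ s, q.1.n = n ↔ q.2.n = n') : cnt (s.map Prod.fst) n = cnt (s.map Prod.snd) n' := by
  unfold cnt
  rw [Multiset.map_map, Multiset.map_map]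
  congr 1
  apply Multiset.map_congr rfl
  intro q hq
  simp only [Function.comp]
  by_cases h1 : q.1.n = n
  · rw [if_pos h1, if_pos ((h q hq).1 h1)]
  · rw [if_neg h1, if_neg (fun h2 => h1 ((h q hq).2 h2))]

lemma cnt_eq_zero {u : Multiset W} {n : ℕ} (h : ∀ a ∈ u, a.n ≠ n) : cnt u n = 0 := by
  unfold cnt
  apply Multiset.sum_eq_zero
  intro x hx
  obtain ⟨a, ha, rfl⟩ := Multiset.mem_map.1 hx
  rw [if_neg (h a ha)]

lemma bal_iff_of_lev {s : Multiset (W × W)}
    (h : ∀ q ∈ s, ∀ q' ∈ s, q.1.n = q'.1.n ↔ q.2.n = q'.2.n) :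
    Bal (s.map Prod.fst) ↔ Bal (s.map Prod.snd) := by
  constructor
  · intro hb n'
    by_cases hq : ∃ q ∈ s, q.2.n = n'
    · obtain ⟨q, hq, rfl⟩ := hq
      rw [← cnt_transfer (n := q.1.n) (fun q' hq' => h q' hq' q hq)]
      exact hb _
    · apply cnt_eq_zero
      intro a ha
      obtain ⟨q, hq', rfl⟩ := Multiset.mem_map.1 ha
      exact fun h' => hq ⟨q, hq', h'⟩
  · intro hb n'
    by_cases hq : ∃ q ∈ s, q.1.n = n'
    · obtain ⟨q, hq, rfl⟩ := hq
      rw [cnt_transfer (n' := q.2.n) (fun q' hq' => h q' hq' q hq)]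
      exact hb _
    · apply cnt_eq_zero
      intro a ha
      obtain ⟨q, hq', rfl⟩ := Multiset.mem_map.1 ha
      exact fun h' => hq ⟨q, hq', h'⟩

lemma Good.bal (h : Good r P Q) {s : Multiset (W × W)} (hs : ∀ q ∈ s, q ∈ Q) :
    Bal (s.map Prod.fst) ↔ Bal (s.map Prod.snd) :=
  bal_iff_of_lev fun q hq q' hq' => h.1.eq (h.lev (hs q hq)) (h.lev (hs q' hq'))

lemma Good.symm (h : Good r P Q) : Good r (Prod.swap '' P) (Prod.swap '' Q) := by
  refine ⟨?_, fun s hs hb => ?_⟩
  · rintro _ ⟨p, hp, rfl⟩ _ ⟨q, hq, rfl⟩ k hk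
    exact (h.1 p hp q hq k hk).symm
  · have hs' : ∀ q ∈ s.map Prod.swap, q ∈ Q := by
      intro q hq
      obtain ⟨q', hq', rfl⟩ := Multiset.mem_map.1 hq
      obtain ⟨q'', h1, h2⟩ := hs q' hq'
      rw [← h2]
      simpa using h1
    have e1 : (s.map Prod.swap).map Prod.fst = s.map Prod.snd := by
      rw [Multiset.map_map]; rfl
    have e2 : (s.map Prod.swap).map Prod.snd = s.map Prod.fst := by
      rw [Multiset.map_map]; rfl
    have := h.2 _ hs' (by rw [h.bal hs', e2]; exact hb)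
    rw [e1, e2] at this
    exact ⟨_, this, rfl⟩

lemma Z_pair_self {a b : W} (hn : a.n = b.n) : Z ({a} + {b}) a.n ↔ a = b := by
  constructor
  · intro h
    ext t
    · exact hn
    · by_cases ht : t < a.n
      · have := h.2 t ht
        simp only [sm_add, sm_single] at this
        revert this
        generalize a.f t = x
        generalize b.f t = y
        revert x y
        decide
      · rw [a.hf t (by omega), b.hf t (by omega)]
  · rintro rfl
    have := (Z_double 0 a a.n).2 ⟨by simp [Z], le_rfl⟩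
    simpa using this

lemma Bal_pair {a b : W} : Bal ({a} + {b}) ↔ a.n = b.n := by
  constructor
  · intro h
    have := h a.n
    simp only [cnt_add, cnt_single, if_true] at this
    by_contra hne
    rw [if_neg (fun h' => hne h'.symm)] at this
    revert this
    decide
  · intro h n
    simp only [cnt_add, cnt_single, h]
    exact two_add _

lemma Good.eq (h : Good r P Q) {a b a' b' : W} (hq : (a, b) ∈ Q) (hq' : (a', b') ∈ Q) :
    a = a' → b = b' := by
  rintro rfl
  have h1 := h.2 ({(a, b)} + {(a, b')}) (by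
    intro q hq0
    simp only [Multiset.mem_add, Multiset.mem_singleton] at hq0
    rcases hq0 with rfl | rfl <;> assumption) (by
      simp only [Multiset.map_add, Multiset.map_singleton]
      exact Bal_pair.2 rfl)
  simp only [Multiset.map_add, Multiset.map_singleton] at h1
  have e : cut ({a} + {a}) = a.n := by simpa using cut_double_zero a
  rw [e] at h1
  have h2 := h.lev hq
  have h3 := h.lev hq'
  have e1 := (h.1.eq h2 h3).1 rfl
  have e2 := (h.1.eq h2 h1).1 rfl
  apply (Z_pair_self e1).1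
  rw [Z_iff (by simp)]
  omega

lemma Good.addPair (h : Good r P Q) {x y : W} (hl : (x.n, y.n) ∈ P)
    (H : ∀ s : Multiset (W × W), (∀ q ∈ s, q ∈ Q) → Bal (s.map Prod.fst + {x}) →
      (cut (s.map Prod.fst + {x}), cut (s.map Prod.snd + {y})) ∈ P) :
    Good r P (insert (x, y) Q) := by
  classical
  have T : ∀ k : ℕ, ∀ s : Multiset (W × W), (∀ q ∈ s, q ∈ Q) →
      Bal ((s + Multiset.replicate k (x, y)).map Prod.fst) →
      (cut ((s + Multiset.replicate k (x, y)).map Prod.fst),
        cut ((s + Multiset.replicate k (x, y)).map Prod.snd)) ∈ P := by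
    intro k
    induction k using Nat.twoStepInduction with
    | zero => intro s hs; simpa using h.2 s hs
    | one => intro s hs; simpa using H s hs
    | more k ih _ =>
      intro s hs hb
      have e : s + Multiset.replicate (k + 2) (x, y) =
          (s + Multiset.replicate k (x, y)) + {(x, y)} + {(x, y)} := by
        rw [Multiset.replicate_add, ← add_assoc, add_assoc (s + Multiset.replicate k (x, y))]
        rfl
      rw [e] at hb ⊢
      set s' := s + Multiset.replicate k (x, y) with hs'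
      simp only [Multiset.map_add, Multiset.map_singleton] at hb ⊢
      rw [Bal_double] at hb
      by_cases h0 : s' = 0
      · rw [h0]
        simp only [Multiset.map_zero]
        rw [cut_double_zero, cut_double_zero]
        exact hl
      · rw [cut_double (by simpa using h0), cut_double (by simpa using h0)]
        exact h.1.min (ih s hs hb) hl
  refine ⟨h.1, fun s hs => ?_⟩
  have e : s = s.filter (fun q => q ≠ (x, y)) + Multiset.replicate (s.count (x, y)) (x, y) := by
    rw [← Multiset.filter_eq']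
    rw [add_comm]
    convert (Multiset.filter_add_not (fun q => q = (x, y)) s).symm
  rw [e]
  apply T
  intro q hq
  rw [Multiset.mem_filter] at hq
  rcases hs q hq.1 with h1 | h1
  · exact absurd h1 hq.2
  · exact h1

lemma not_bal_new {s : Multiset W} {x : W} (h : ∀ a ∈ s, a.n ≠ x.n) : ¬ Bal (s + {x}) := by
  intro hb
  have := hb x.n
  rw [cnt_add, cnt_eq_zero h, cnt_single, if_pos rfl] at this
  revert this
  decide

lemma Good.addNew (h : Good r P Q) {x y : W} (hl : (x.n, y.n) ∈ P)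
    (hnew : ∀ q ∈ Q, q.1.n ≠ x.n) : Good r P (insert (x, y) Q) := by
  apply h.addPair hl
  intro s hs hb
  exfalso
  refine not_bal_new ?_ hb
  intro a ha
  obtain ⟨q, hq, rfl⟩ := Multiset.mem_map.1 ha
  exact hnew q (hs q hq)

lemma cut_of_max {a c : Multiset W} {x : W} {w : ℕ} (hz : Z (c + {x}) w)
    (hn : ¬ Z (a + {x}) (w + 1)) (hc : c ≠ 0) : cut (a + {x}) = min w (cut (a + c)) := by
  apply cut_eq (by simp)
  intro ρ
  rw [le_min_iff, ← Z_iff (by simp [hc])]
  constructor
  · intro h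
    have hρ : ρ ≤ w := by
      by_contra hc
      exact hn (Z_mono h (by omega))
    exact ⟨hρ, Z_cancel h (Z_mono hz hρ)⟩
  · rintro ⟨hρ, h⟩
    have h2 := Z_mono hz hρ
    rw [add_comm c] at h2
    exact Z_cancel h h2

lemma Good.addOld (h : Good r P Q) {x y : W} (hl : (x.n, y.n) ∈ P) {c : Multiset (W × W)}
    (hc : ∀ q ∈ c, q ∈ Q) (hb : Bal (c.map Prod.fst + {x})) {w w' : ℕ} (hw : (w, w') ∈ P)
    (z1 : Z (c.map Prod.fst + {x}) w) (z2 : Z (c.map Prod.snd + {y}) w')
    (hmax : ∀ s : Multiset (W × W), (∀ q ∈ s, q ∈ Q) → Bal (s.map Prod.fst + {x}) →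
      ¬ Z (s.map Prod.fst + {x}) (w + 1) ∧ ¬ Z (s.map Prod.snd + {y}) (w' + 1)) :
    Good r P (insert (x, y) Q) := by
  apply h.addPair hl
  intro s hs hbs
  have hc0 : c ≠ 0 := by
    rintro rfl
    exact not_bal_new (by simp) hb
  rw [cut_of_max z1 (hmax s hs hbs).1 (by simpa using hc0),
    cut_of_max z2 (hmax s hs hbs).2 (by simpa using hc0)]
  apply h.1.min hw
  have := h.2 (s + c) (by
    intro q hq
    rcases Multiset.mem_add.1 hq with h1 | h1
    · exact hs q h1
    · exact hc q h1) (by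
      rw [Multiset.map_add]
      exact Bal_cancel hbs hb)
  simpa using this

lemma Z_succ {u : Multiset W} {w : ℕ} :
    Z u (w + 1) ↔ Z u w ∧ (∀ a ∈ u, w + 1 ≤ a.n) ∧ sm u w = 0 := by
  constructor
  · intro h
    exact ⟨Z_mono h (by omega), h.1, h.2 w (by omega)⟩
  · rintro ⟨h1, h2, h3⟩
    refine ⟨h2, fun t ht => ?_⟩
    rcases Nat.lt_succ_iff_lt_or_eq.1 ht with h | rfl
    · exact h1.2 t h
    · exact h3

theorem Good.ext (h : Good (2 * r + 2) P Q) (x : W) :
    ∃ (y : W) (P' : Set (ℕ × ℕ)), Good r P' (insert (x, y) Q) := by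
  classical
  by_cases hnew : ∀ q ∈ Q, q.1.n ≠ x.n
  · obtain ⟨n', hn'⟩ := ext_nat h.1 h.zero x.n
    refine ⟨W.zero n', insert (x.n, n') P, ?_⟩
    exact (h.mono_P (Set.subset_insert _ _) hn').addNew (Set.mem_insert _ _) hnew
  push Not at hnew
  obtain ⟨q0, hq0, hq0n⟩ := hnew
  set T : Set ℕ := {ρ | ∃ s : Multiset (W × W), (∀ q ∈ s, q ∈ Q) ∧ Bal (s.map Prod.fst + {x}) ∧
    Z (s.map Prod.fst + {x}) ρ} with hT
  have hTb : BddAbove T := ⟨x.n, by
    rintro ρ ⟨s, -, -, hz⟩
    exact hz.1 x (by simp)⟩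
  have hTn : T.Nonempty := ⟨0, {q0}, by simpa using hq0, by simpa using Bal_pair.2 hq0n,
    Z_zero _⟩
  obtain ⟨c, hc, hcb, hcz⟩ : sSup T ∈ T := Nat.sSup_mem hTn hTb
  set w := sSup T with hw
  have hmax1 : ∀ s : Multiset (W × W), (∀ q ∈ s, q ∈ Q) → Bal (s.map Prod.fst + {x}) →
      ¬ Z (s.map Prod.fst + {x}) (w + 1) := by
    intro s hs hb hz
    have : w + 1 ≤ w := le_csSup hTb ⟨s, hs, hb, hz⟩
    omega
  obtain ⟨w', hw'⟩ := ext_nat h.1 h.zero w
  have h' : Good r (insert (w, w') P) Q := h.mono_P (Set.subset_insert _ _) hw'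
  have hww : (w, w') ∈ insert (w, w') P := Set.mem_insert _ _
  have hl0 : (x.n, q0.2.n) ∈ insert (w, w') P := by
    rw [← hq0n]
    exact h'.lev hq0
  have hwn : w' ≤ q0.2.n := (hw'.le hww hl0).1 (hcz.1 x (by simp))
  have hc0 : c ≠ 0 := by
    rintro rfl
    exact not_bal_new (by simp) hcb
  let A : Multiset (W × W) → Prop := fun s => (∀ q ∈ s, q ∈ Q) ∧ Bal (s.map Prod.fst + {x}) ∧
    Z (s.map Prod.fst + {x}) w ∧ ∀ q ∈ s, w + 1 ≤ q.1.n
  let ε : ZMod 2 := if hA : ∃ s, A s then sm ((Classical.choose hA).map Prod.snd) w' + 1 else 0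
  let y : W := ⟨q0.2.n, fun t => if t < w' then sm (c.map Prod.snd) t else
    if t = w' ∧ w' < q0.2.n then ε else 0, by
      intro t ht
      rw [if_neg (by omega), if_neg (by omega)]⟩
  have hyn : y.n = q0.2.n := rfl
  have z2 : Z (c.map Prod.snd + {y}) w' := by
    refine ⟨fun a ha => ?_, fun t ht => ?_⟩
    · simp only [Multiset.mem_add, Multiset.mem_singleton, Multiset.mem_map] at ha
      rcases ha with ⟨q, hq, rfl⟩ | rfl
      · exact (hw'.le hww (h'.lev (hc q hq))).1
          (hcz.1 q.1 (Multiset.mem_add.2 (Or.inl (Multiset.mem_map_of_mem _ hq))))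
      · exact hwn
    · rw [sm_add, sm_single]
      simp only [y, if_pos ht]
      exact two_add _
  refine ⟨y, insert (w, w') P, h'.addOld hl0 hc hcb hww hcz z2 ?_⟩
  intro s hs hb
  refine ⟨hmax1 s hs hb, fun hz => ?_⟩
  have hsc : ∀ q ∈ s + c, q ∈ Q := by
    intro q hq
    rcases Multiset.mem_add.1 hq with h1 | h1
    · exact hs q h1
    · exact hc q h1
  have hp := h'.2 (s + c) hsc (by rw [Multiset.map_add]; exact Bal_cancel hb hcb)
  simp only [Multiset.map_add] at hp
  have e1 : Z (s.map Prod.snd + c.map Prod.snd) w' := Z_cancel (Z_mono hz (by omega)) z2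
  rw [Z_iff (by simp [hc0])] at e1
  have e2 := (hw'.le hww hp).2 e1
  rw [← Z_iff (by simp [hc0])] at e2
  have e3 : Z (s.map Prod.fst + {x}) w := by
    have := hcz
    rw [add_comm] at this
    exact Z_cancel e2 this
  have e4 : ∀ q ∈ s, w + 1 ≤ q.1.n := by
    intro q hq
    have h1 := hz.1 q.2 (Multiset.mem_add.2 (Or.inl (Multiset.mem_map_of_mem _ hq)))
    have h2 : q.1.n ≤ w ↔ q.2.n ≤ w' := hw'.le (h'.lev (hs q hq)) hww
    omega
  have e5 : w + 1 ≤ x.n := by
    have h1 := hz.1 y (by simp)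
    have h2 := hw'.le hl0 hww
    omega
  have hA : ∃ s, A s := ⟨s, hs, hb, e3, e4⟩
  obtain ⟨g1, g2, g3, g4⟩ : A (Classical.choose hA) := Classical.choose_spec hA
  set s1 := Classical.choose hA with hs1
  have key : ∀ s : Multiset (W × W), (∀ q ∈ s, q ∈ Q) → Bal (s.map Prod.fst + {x}) →
      Z (s.map Prod.fst + {x}) w → (∀ q ∈ s, w + 1 ≤ q.1.n) →
      sm (s.map Prod.fst) w + x.f w ≠ 0 := by
    intro s hs hb hz hl hne
    apply hmax1 s hs hb
    rw [Z_succ]
    refine ⟨hz, fun a ha => ?_, by simpa using hne⟩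
    simp only [Multiset.mem_add, Multiset.mem_singleton, Multiset.mem_map] at ha
    rcases ha with ⟨q, hq, rfl⟩ | rfl
    · exact hl q hq
    · exact e5
  have hs0 : s ≠ 0 := by
    rintro rfl
    exact not_bal_new (by simp) hb
  have f1 : Z (s.map Prod.fst + s1.map Prod.fst) (w + 1) := by
    rw [Z_succ]
    refine ⟨Z_cancel e3 g3, fun a ha => ?_, ?_⟩
    · simp only [Multiset.mem_add, Multiset.mem_map] at ha
      rcases ha with ⟨q, hq, rfl⟩ | ⟨q, hq, rfl⟩
      · exact e4 q hq
      · exact g4 q hq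
    · rw [sm_add]
      exact zm_ne (key s hs hb e3 e4) (key s1 g1 g2 g3 g4)
  have hp1 := h'.2 (s + s1) (by
    intro q hq
    rcases Multiset.mem_add.1 hq with h1 | h1
    · exact hs q h1
    · exact g1 q h1) (by rw [Multiset.map_add]; exact Bal_cancel hb g2)
  simp only [Multiset.map_add] at hp1
  rw [Z_iff (by simp [hs0])] at f1
  have f2 : w' + 1 ≤ cut (s.map Prod.snd + s1.map Prod.snd) := by
    have := hw'.le hp1 hww
    omega
  rw [← Z_iff (by simp [hs0])] at f2
  have f3 := f2.2 w' (by omega)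
  have f4 := hz.2 w' (by omega)
  have f5 : w' < q0.2.n := hz.1 y (by simp)
  have f6 : y.f w' = sm (s1.map Prod.snd) w' + 1 := by
    change (if w' < w' then sm (c.map Prod.snd) w' else
      if w' = w' ∧ w' < q0.2.n then ε else 0) = _
    rw [if_neg (lt_irrefl _), if_pos ⟨rfl, f5⟩]
    exact dif_pos hA
  rw [sm_add, sm_single, f6] at f4
  rw [sm_add] at f3
  rw [← add_assoc, f3] at f4
  revert f4
  decide

end Pool.Agent.H440Z
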