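import Pool.Agent.H440Z.Good
import Pool.Agent.H440Z.Abs

/-!
# The structure on binary strings and its definable sets
-/

set_option autoImplicit false
set_option linter.all false

namespace Pool.Agent.H440Z

open FirstOrder FirstOrder.Language

def InvP (r : ℕ) {α : Type} (S : (α → W) → Prop) : Prop :=
  ∀ P Q, Good r P Q → ∀ v v' : α → W, (∀ i, (v i, v' i) ∈ Q) → (S v ↔ S v')

def Inv {α : Type} (S : (α → W) → Prop) : Prop := ∃ r, InvP r S

def LL : FirstOrder.Language.{0, 0} where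
  Functions _ := Empty
  Relations n := {S : (Fin n → W) → Prop // Inv S}

instance : LL.Structure W where
  funMap f := Empty.elim f
  RelMap S v := S.1 v

theorem InvP.mono {r r' : ℕ} {α : Type} {S : (α → W) → Prop} (h : InvP r S) (hr : r ≤ r') :
    InvP r' S := fun P Q hg => h P Q (hg.mono_r hr)

theorem term_mem {γ : Type} {Q : Set (W × W)} (t : LL.Term γ) {v v' : γ → W}
    (h : ∀ i, (v i, v' i) ∈ Q) : (t.realize v, t.realize v') ∈ Q := by
  cases t with
  | var i => exact h i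
  | func f _ => exact Empty.elim f

theorem qe_bounded {α : Type} {n : ℕ} (φ : LL.BoundedFormula α n) :
    ∃ r, ∀ P Q, Good r P Q → ∀ (v v' : α → W) (xs xs' : Fin n → W), (∀ i, (v i, v' i) ∈ Q) →
      (∀ i, (xs i, xs' i) ∈ Q) → (φ.Realize v xs ↔ φ.Realize v' xs') := by
  induction φ with
  | falsum => exact ⟨0, fun _ _ _ _ _ _ _ _ _ => Iff.rfl⟩
  | equal t1 t2 =>
    refine ⟨0, fun P Q hg v v' xs xs' h1 h2 => ?_⟩
    have h : ∀ i, (Sum.elim v xs i, Sum.elim v' xs' i) ∈ Q := by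
      rintro (i | i)
      · exact h1 i
      · exact h2 i
    have a1 := term_mem t1 h
    have a2 := term_mem t2 h
    exact ⟨hg.eq a1 a2, hg.symm.eq ⟨_, a1, rfl⟩ ⟨_, a2, rfl⟩⟩
  | rel R ts =>
    obtain ⟨r, hr⟩ := R.2
    refine ⟨r, fun P Q hg v v' xs xs' h1 h2 => ?_⟩
    have h : ∀ i, (Sum.elim v xs i, Sum.elim v' xs' i) ∈ Q := by
      rintro (i | i)
      · exact h1 i
      · exact h2 i
    exact hr P Q hg _ _ (fun i => term_mem (ts i) h)
  | imp φ ψ ih1 ih2 =>
    obtain ⟨r1, h1⟩ := ih1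
    obtain ⟨r2, h2⟩ := ih2
    refine ⟨max r1 r2, fun P Q hg v v' xs xs' a1 a2 => ?_⟩
    simp only [BoundedFormula.realize_imp]
    rw [h1 P Q (hg.mono_r (le_max_left _ _)) v v' xs xs' a1 a2,
      h2 P Q (hg.mono_r (le_max_right _ _)) v v' xs xs' a1 a2]
  | all φ ih =>
    obtain ⟨r, h⟩ := ih
    have one : ∀ P Q, Good (2 * r + 2) P Q → ∀ (v v' : α → W) xs xs', (∀ i, (v i, v' i) ∈ Q) →
        (∀ i, (xs i, xs' i) ∈ Q) → φ.all.Realize v' xs' → φ.all.Realize v xs := by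
      intro P Q hg v v' xs xs' a1 a2 H
      simp only [BoundedFormula.realize_all] at H ⊢
      intro x
      obtain ⟨y, P', hg'⟩ := hg.ext x
      refine (h P' _ hg' v v' (Fin.snoc xs x) (Fin.snoc xs' y)
        (fun i => Set.mem_insert_of_mem _ (a1 i)) (fun i => ?_)).2 (H y)
      refine Fin.lastCases ?_ (fun i => ?_) i
      · simp
      · simpa using Or.inr (a2 i)
    refine ⟨2 * r + 2, fun P Q hg v v' xs xs' a1 a2 => ⟨?_, one P Q hg v v' xs xs' a1 a2⟩⟩
    exact one _ _ hg.symm v' v xs' xs (fun i => ⟨_, a1 i, rfl⟩) (fun i => ⟨_, a2 i, rfl⟩)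

theorem qe {α : Type} (φ : LL.Formula α) : Inv (fun v : α → W => φ.Realize v) := by
  obtain ⟨r, h⟩ := qe_bounded φ
  exact ⟨r, fun P Q hg v v' h1 => h P Q hg v v' _ _ h1 (fun i => i.elim0)⟩

theorem Inv.comp {α β : Type} {S : (α → W) → Prop} (h : Inv S) (g : α → β) :
    Inv (fun v : β → W => S (v ∘ g)) := by
  obtain ⟨r, h⟩ := h
  exact ⟨r, fun P Q hg v v' h1 => h P Q hg _ _ (fun i => h1 (g i))⟩

theorem Inv.formula {α : Type} [Finite α] {S : (α → W) → Prop} (h : Inv S) :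
    ∃ φ : LL.Formula α, ∀ v, φ.Realize v ↔ S v := by
  obtain ⟨n, ⟨e⟩⟩ := Finite.exists_equiv_fin α
  let R : LL.Relations n := ⟨fun w => S (w ∘ e), h.comp e⟩
  refine ⟨R.formula (fun i => Term.var (e.symm i)), fun v => ?_⟩
  rw [Formula.realize_rel]
  change S _ ↔ S v
  apply iff_of_eq
  congr 1
  funext i
  simp

section closure
variable {α : Type} {S T : (α → W) → Prop}

theorem Inv.and (h : Inv S) (h' : Inv T) : Inv (fun v => S v ∧ T v) := by
  obtain ⟨r, h⟩ := h
  obtain ⟨r', h'⟩ := h'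
  exact ⟨max r r', fun P Q hg v v' h1 => and_congr (h.mono (le_max_left _ _) P Q hg v v' h1)
    (h'.mono (le_max_right _ _) P Q hg v v' h1)⟩

theorem Inv.or (h : Inv S) (h' : Inv T) : Inv (fun v => S v ∨ T v) := by
  obtain ⟨r, h⟩ := h
  obtain ⟨r', h'⟩ := h'
  exact ⟨max r r', fun P Q hg v v' h1 => or_congr (h.mono (le_max_left _ _) P Q hg v v' h1)
    (h'.mono (le_max_right _ _) P Q hg v v' h1)⟩

theorem Inv.not (h : Inv S) : Inv (fun v => ¬ S v) := by
  obtain ⟨r, h⟩ := h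
  exact ⟨r, fun P Q hg v v' h1 => not_congr (h P Q hg v v' h1)⟩

theorem Inv.congr (h : Inv S) (h' : ∀ v, T v ↔ S v) : Inv T := by
  have : T = S := funext fun v => propext (h' v)
  rwa [this]

open Classical in
noncomputable def dp (s : Multiset α) (v : α → W) : ℕ :=
  if Bal (s.map v) then cut (s.map v) else 0

theorem Good.balI {r : ℕ} {P : Set (ℕ × ℕ)} {Q : Set (W × W)} (hg : Good r P Q) {v v' : α → W}
    (h : ∀ i, (v i, v' i) ∈ Q) (s : Multiset α) : Bal (s.map v) ↔ Bal (s.map v') := by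
  have := hg.bal (s := s.map (fun i => (v i, v' i))) (by
    intro q hq
    obtain ⟨i, -, rfl⟩ := Multiset.mem_map.1 hq
    exact h i)
  simpa only [Multiset.map_map, Function.comp_def] using this

theorem Good.dp {r : ℕ} {P : Set (ℕ × ℕ)} {Q : Set (W × W)} (hg : Good r P Q) {v v' : α → W}
    (h : ∀ i, (v i, v' i) ∈ Q) (s : Multiset α) : (dp s v, dp s v') ∈ P := by
  unfold H440Z.dp
  by_cases hb : Bal (s.map v)
  · rw [if_pos hb, if_pos ((hg.balI h s).1 hb)]
    have := hg.2 (s.map (fun i => (v i, v' i))) (by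
      intro q hq
      obtain ⟨i, -, rfl⟩ := Multiset.mem_map.1 hq
      exact h i) (by simpa only [Multiset.map_map, Function.comp_def] using hb)
    simpa only [Multiset.map_map, Function.comp_def] using this
  · rw [if_neg hb, if_neg (fun h' => hb ((hg.balI h s).2 h'))]
    exact hg.zero

theorem Inv.bal (s : Multiset α) : Inv (fun v : α → W => Bal (s.map v)) :=
  ⟨0, fun _ _ hg _ _ h => hg.balI h s⟩

theorem Inv.le (s s' : Multiset α) (k k' : ℕ) :
    Inv (fun v : α → W => dp s v + k ≤ dp s' v + k') := by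
  refine ⟨k + k' + 1, fun P Q hg v v' h => ?_⟩
  have a1 := hg.1 _ (hg.dp h s) _ (hg.dp h s') (k - k') (by omega)
  have a2 := hg.1 _ (hg.dp h s') _ (hg.dp h s) (k' + 1 - k) (by omega)
  simp only at a1 a2
  omega

theorem dp_lev (i : α) (v : α → W) : dp ({i} + {i}) v = (v i).n := by
  have e : ({i} + {i} : Multiset α).map v = {v i} + {v i} := by simp
  unfold dp
  rw [e, if_pos (Bal_pair.2 rfl)]
  simpa using cut_double_zero (v i)

theorem dp_zero (v : α → W) : dp 0 v = 0 := by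
  simp [dp, cut_zero]

theorem dp_of_bal {s : Multiset α} {v : α → W} (h : Bal (s.map v)) : dp s v = cut (s.map v) := by
  simp [dp, h]

end closure

theorem Z_pair {a b : W} {ρ : ℕ} :
    Z ({a} + {b}) ρ ↔ ρ ≤ a.n ∧ ρ ≤ b.n ∧ ∀ t < ρ, a.f t = b.f t := by
  have : ∀ x y : ZMod 2, x + y = 0 ↔ x = y := by decide
  simp only [Z, sm_add, sm_single, this, Multiset.mem_add, Multiset.mem_singleton, or_imp,
    forall_and, forall_eq, and_assoc]

def EE (u w x : W) : Prop :=
  (x.n = u.n ∧ w.n ≤ u.n ∧ ∀ t < w.n, x.f t = u.f t) ∨ (u.n < w.n ∧ u.n ≤ x.n)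

theorem inv_EE : Inv (fun v : Fin 3 → W => EE (v 0) (v 1) (v 2)) := by
  refine (((Inv.bal ({2} + {0})).and (Inv.le ({1} + {1}) ({2} + {0}) 0 0)).or
    ((Inv.le ({0} + {0}) ({1} + {1}) 1 0).and (Inv.le ({0} + {0}) ({2} + {2}) 0 0))).congr
    (fun v => ?_)
  simp only [dp_lev, EE, add_zero]
  refine or_congr ?_ (and_congr Iff.rfl Iff.rfl)
  have e : ({2} + {0} : Multiset (Fin 3)).map v = {v 2} + {v 0} := by simp
  rw [e, Bal_pair]
  refine and_congr_right fun h => ?_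
  rw [dp_of_bal (by rw [e]; exact Bal_pair.2 h), e, ← Z_iff (by simp), Z_pair, h]
  tauto

noncomputable def eF : LL.Formula (Fin 3) := Classical.choose inv_EE.formula

theorem Bl_iff (u w x : W) : Bl eF u w x ↔ EE u w x :=
  Classical.choose_spec inv_EE.formula ![u, w, x]

def ballW (u : W) (ρ : ℕ) : Set W := {x | x.n = u.n ∧ ∀ t < ρ, x.f t = u.f t}

def upW (m : ℕ) : Set W := {x | m ≤ x.n}

theorem ballW_mem {u : W} {ρ : ℕ} (h : ρ ≤ u.n) : ballW u ρ ∈ balls eF W := by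
  refine ⟨u, W.zero ρ, Set.ext fun x => ?_⟩
  simp only [ballW, Set.mem_setOf_eq, Bl_iff, EE, W.zero]
  constructor
  · exact fun h' => Or.inl ⟨h'.1, h, h'.2⟩
  · rintro (h' | h')
    · exact ⟨h'.1, h'.2.2⟩
    · omega

theorem upW_mem (m : ℕ) : upW m ∈ balls eF W := by
  refine ⟨W.zero m, W.zero (m + 1), Set.ext fun x => ?_⟩
  simp only [upW, Set.mem_setOf_eq, Bl_iff, EE, W.zero]
  omega

theorem mem_balls {S : Set W} (h : S ∈ balls eF W) :
    (∃ u ρ, S = ballW u ρ) ∨ ∃ m, S = upW m := by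
  obtain ⟨u, w, rfl⟩ := h
  by_cases hw : w.n ≤ u.n
  · refine Or.inl ⟨u, w.n, Set.ext fun x => ?_⟩
    simp only [ballW, Set.mem_setOf_eq, Bl_iff, EE]
    constructor
    · rintro (h' | h')
      · exact ⟨h'.1, h'.2.2⟩
      · omega
    · exact fun h' => Or.inl ⟨h'.1, hw, h'.2⟩
  · refine Or.inr ⟨u.n, Set.ext fun x => ?_⟩
    simp only [upW, Set.mem_setOf_eq, Bl_iff, EE]
    omega

theorem lamin_W : Lamin (balls eF W) := by
  intro A hA B hB ⟨x, hx1, hx2⟩
  rcases mem_balls hA with ⟨u, ρ, rfl⟩ | ⟨m, rfl⟩ <;>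
    rcases mem_balls hB with ⟨u', ρ', rfl⟩ | ⟨m', rfl⟩
  · rcases le_total ρ ρ' with h | h
    · right
      intro y hy
      refine ⟨by rw [hy.1, ← hx2.1, hx1.1], fun t ht => ?_⟩
      rw [hy.2 t (by omega), ← hx2.2 t (by omega), hx1.2 t ht]
    · left
      intro y hy
      refine ⟨by rw [hy.1, ← hx1.1, hx2.1], fun t ht => ?_⟩
      rw [hy.2 t (by omega), ← hx1.2 t (by omega), hx2.2 t ht]
  · left
    intro y hy
    have h1 := hy.1
    have h2 := hx1.1
    have h3 : m' ≤ x.n := hx2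
    change m' ≤ y.n
    omega
  · right
    intro y hy
    have h1 := hy.1
    have h2 := hx2.1
    have h3 : m ≤ x.n := hx1
    change m ≤ y.n
    omega
  · rcases le_total m m' with h | h
    · exact Or.inr fun y (hy : m' ≤ y.n) => h.trans hy
    · exact Or.inl fun y (hy : m ≤ y.n) => h.trans hy

theorem binr_W : Binr (balls eF W) := by
  classical
  intro x y z hxy hyz hxz
  have b0 : ∀ a b : W, b ∈ ballW a 0 ↔ b.n = a.n := fun a b => by simp [ballW]
  have u0 : ∀ (m : ℕ) (b : W), b ∈ upW m ↔ m ≤ b.n := fun _ _ => Iff.rfl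
  by_cases h1 : x.n = y.n ∧ y.n = z.n
  · have hex : ∃ t, ¬ (x.f t = y.f t ∧ y.f t = z.f t) := by
      by_contra hn
      push Not at hn
      exact hxy (W.ext h1.1 (funext fun t => (hn t).1))
    have ht := Nat.find_spec hex
    set t := Nat.find hex with htd
    have hlt : ∀ s < t, x.f s = y.f s ∧ y.f s = z.f s := fun s hs => by
      have := Nat.find_min hex hs
      tauto
    have htn : t < x.n := by
      by_contra hc
      apply ht
      rw [x.hf t (by omega), y.hf t (by omega), z.hf t (by omega)]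
      exact ⟨rfl, rfl⟩
    have mem : ∀ a b : W, b.n = a.n → (∀ s < t, b.f s = a.f s) →
        (b ∈ ballW a (t + 1) ↔ b.f t = a.f t) := by
      intro a b e1 e2
      refine ⟨fun h => h.2 t (by omega), fun h => ⟨e1, fun s hs => ?_⟩⟩
      rcases Nat.lt_succ_iff_lt_or_eq.1 hs with h' | rfl
      · exact e2 s h'
      · exact h
    have mxx := mem x x rfl (fun _ _ => rfl)
    have mxy := mem x y h1.1.symm (fun s hs => (hlt s hs).1.symm)
    have mxz := mem x z (by omega) (fun s hs => ((hlt s hs).1.trans (hlt s hs).2).symm)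
    have myy := mem y y rfl (fun _ _ => rfl)
    have myx := mem y x h1.1 (fun s hs => (hlt s hs).1)
    have myz := mem y z h1.2.symm (fun s hs => (hlt s hs).2.symm)
    have : ∀ a b c : ZMod 2, ¬ (a = b ∧ b = c) →
        (b = a ∧ ¬ c = a) ∨ (c = a ∧ ¬ b = a) ∨ (c = b ∧ ¬ a = b) := by decide
    rcases this _ _ _ ht with h | h | h
    · exact ⟨_, ballW_mem (u := x) (ρ := t + 1) (by omega),
        Or.inl ⟨mxx.2 rfl, mxy.2 h.1, fun h' => h.2 (mxz.1 h')⟩⟩
    · exact ⟨_, ballW_mem (u := x) (ρ := t + 1) (by omega),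
        Or.inr (Or.inl ⟨mxx.2 rfl, mxz.2 h.1, fun h' => h.2 (mxy.1 h')⟩)⟩
    · exact ⟨_, ballW_mem (u := y) (ρ := t + 1) (by omega),
        Or.inr (Or.inr ⟨myy.2 rfl, myz.2 h.1, fun h' => h.2 (myx.1 h')⟩)⟩
  · by_cases h2 : x.n = y.n
    · exact ⟨_, ballW_mem (u := x) (Nat.zero_le _),
        Or.inl ⟨(b0 _ _).2 rfl, (b0 _ _).2 h2.symm, fun h => by rw [b0] at h; omega⟩⟩
    by_cases h3 : x.n = z.n
    · exact ⟨_, ballW_mem (u := x) (Nat.zero_le _),
        Or.inr (Or.inl ⟨(b0 _ _).2 rfl, (b0 _ _).2 h3.symm, fun h => by rw [b0] at h; omega⟩)⟩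
    by_cases h4 : y.n = z.n
    · exact ⟨_, ballW_mem (u := y) (Nat.zero_le _),
        Or.inr (Or.inr ⟨(b0 _ _).2 rfl, (b0 _ _).2 h4.symm, fun h => by rw [b0] at h; omega⟩)⟩
    exact ⟨_, upW_mem (min x.n (min y.n z.n) + 1), by simp only [u0]; omega⟩

end Pool.Agent.H440Z
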