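import Pool.Agent.H440Z.ND

/-!
# A directed family in a distal dp-minimal structure that extends to no definable type
-/

set_option autoImplicit false
set_option linter.all false

namespace Pool.Agent.H440Z

open FirstOrder FirstOrder.Language MT

universe u

theorem main1 : ∃ (L : FirstOrder.Language.{0, 0}) (M : Type) (_ : L.Structure M) (_ : Nonempty M),
    Distal.{u} L M ∧ DpMinimal.{u} L M ∧
    ∃ (m n : ℕ) (Y : Set (Fin m → M)) (X : Set (Fin m ⊕ Fin n → M)),
      (Set.univ : Set M).Definable L Y ∧ (Set.univ : Set M).Definable L X ∧ Y.Nonempty ∧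
      (∀ b ∈ Y, (fibre X b).Nonempty) ∧
      (∀ b ∈ Y, ∀ b' ∈ Y, ∃ c ∈ Y, fibre X c ⊆ fibre X b ∩ fibre X b') ∧
      ¬ ∃ p : TypeOver L M n, DefinableType p ∧ ∀ b ∈ Y, SetInType (fibre X b) p := by
  refine ⟨LL, W, inferInstance, inferInstance, distal_W, dpMinimal_W, 1, 2, Set.univ,
    {v | pF.Realize (v ∘ Sum.swap)}, Set.definable_univ, ?_, Set.univ_nonempty, ?_, ?_, ?_⟩
  · refine Set.Definable.mono ?_ (Set.empty_subset _)
    exact Set.empty_definable_iff.2 ⟨pF.relabel Sum.swap, Set.ext fun v => by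
      simp [Formula.realize_relabel]⟩
  all_goals
    have hf : ∀ (b : Fin 1 → W) (x : Fin 2 → W),
        x ∈ fibre {v : Fin 1 ⊕ Fin 2 → W | pF.Realize (v ∘ Sum.swap)} b ↔
          pF.Realize (Sum.elim x b) := by
      intro b x
      apply iff_of_eq
      change pF.Realize _ = _
      congr 1
      funext i
      rcases i with i | i <;> rfl
  · intro b _
    refine ⟨![W.zero ((b 0).n + 1), ⟨(b 0).n + 1, fun t => if t = 0 then 1 else 0,
      fun t ht => by rw [if_neg (by omega)]⟩], ?_⟩
    rw [hf, pF_iff]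
    refine ⟨rfl, Nat.le_succ _, Nat.le_add_left _ _, ?_⟩
    simp [W.zero]
  · intro b _ b' _
    refine ⟨fun _ => W.zero (max (b 0).n (b' 0).n), trivial, fun x hx => ?_⟩
    simp only [Set.mem_inter_iff, hf, pF_iff] at hx ⊢
    obtain ⟨h1, h2, h3⟩ := hx
    have h2' : max (b 0).n (b' 0).n ≤ (x 0).n := h2
    exact ⟨⟨h1, by omega, h3⟩, h1, by omega, h3⟩
  · rintro ⟨p, hp, hX⟩
    obtain ⟨N, _, g, x, h1, h2⟩ := realize_type p
    refine nd g x (fun b => ?_) ?_
    · obtain ⟨θ, t1, t2⟩ := hX (fun _ => b) trivial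
      rw [h1] at t2
      set θ' : LL.Formula (W ⊕ Fin 2) := BoundedFormula.constantsVarsEquiv θ with hθ
      have H : UD LL
          (fun v : W → W => ∀ y : Fin 2 → W, θ'.Realize (Sum.elim v y) →
            pF.Realize (Sum.elim y (fun _ => v b)))
          (fun v : W → N => ∀ y : Fin 2 → N, θ'.Realize (Sum.elim v y) →
            pF.Realize (Sum.elim y (fun _ => v b))) := by
        refine UD.allT (UD.imp ?_ ?_)
        · refine UD.atom θ' Sum.swap (fun v => ?_) (fun v => ?_) <;>
          · funext i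
            rcases i with i | i <;> rfl
        · refine UD.atom pF (Sum.elim Sum.inl (fun _ => Sum.inr b)) (fun v => ?_)
            (fun v => ?_) <;>
          · funext i
            rcases i with i | i <;> rfl
      refine (H.emb g id).2 (fun y hy => ?_) x t2
      rw [← hf]
      exact (t1 y).2 (BoundedFormula.realize_constantsVarsEquiv.1 hy)
    · convert hp 2 rF using 2
      funext c
      exact propext (h2 2 rF c).symm

end Pool.Agent.H440Z
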