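import Pool.Agent.H440Z.Fork

/-!
# A non-forking formula in a dp-minimal theory that lies in no global definable type
-/

set_option autoImplicit false
set_option linter.all false

namespace Pool.Agent.H440Z

open FirstOrder FirstOrder.Language MT Cardinal

universe u

instance : Countable W := by
  have : (Set.univ : Set W).Countable := by
    have e : (Set.univ : Set W) = ⋃ m : ℕ, {d : W | d.n = m} := by
      ext d
      simp
    rw [e]
    exact Set.countable_iUnion fun m => (finite_level m).countable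
  exact Set.countable_univ_iff.1 this

theorem realize_sub {L : FirstOrder.Language.{0, 0}} {U : Type u} [L.Structure U] (A : Set U)
    {n m : ℕ} (φ : L.Formula (Fin n ⊕ Fin m)) (a : Fin m → A) (t : Fin n → U) :
    Formula.Realize (BoundedFormula.constantsVarsEquiv.symm
      (φ.relabel (Sum.elim Sum.inr (fun q => Sum.inl (a q))) : L.Formula (A ⊕ Fin n)) :
        L[[A]].Formula (Fin n)) t ↔ φ.Realize (Sum.elim t (fun q => (a q : U))) := by
  refine BoundedFormula.realize_constantsVarsEquiv.symm.trans ?_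
  rw [Equiv.apply_symm_apply]
  refine Formula.realize_relabel.trans ?_
  apply iff_of_eq
  congr 1
  funext q
  rcases q with q | q <;> rfl

theorem exists_big {U : Type u} [LL.Structure U] (f : W ↪ₑ[LL] U) (hU : Saturated LL ℵ₁ U) :
    ∃ e : Fin 1 → U, ∀ b : W, ∀ x : Fin 2 → U, pF.Realize (Sum.elim x e) →
      pF.Realize (Sum.elim x (fun _ => f b)) := by
  classical
  obtain ⟨χ, c1, c2⟩ : UD LL
      (fun v : Fin 1 ⊕ Fin 1 → W => ∀ x : Fin 2 → W,
        pF.Realize (Sum.elim x (fun q => v (Sum.inl q))) →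
          pF.Realize (Sum.elim x (fun q => v (Sum.inr q))))
      (fun v : Fin 1 ⊕ Fin 1 → U => ∀ x : Fin 2 → U,
        pF.Realize (Sum.elim x (fun q => v (Sum.inl q))) →
          pF.Realize (Sum.elim x (fun q => v (Sum.inr q)))) := by
    refine UD.allT (UD.imp ?_ ?_)
    · refine UD.atom pF (Sum.elim Sum.inl (fun q => Sum.inr (Sum.inl q)))
        (fun v => ?_) (fun v => ?_) <;>
      · funext q
        rcases q with q | q <;> rfl
    · refine UD.atom pF (Sum.elim Sum.inl (fun q => Sum.inr (Sum.inr q)))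
        (fun v => ?_) (fun v => ?_) <;>
      · funext q
        rcases q with q | q <;> rfl
  let θ : W → LL[[Set.range f]].Formula (Fin 1) := fun b =>
    BoundedFormula.constantsVarsEquiv.symm (χ.relabel (Sum.elim Sum.inr
      (fun _ => Sum.inl ⟨f b, b, rfl⟩)) : LL.Formula (Set.range f ⊕ Fin 1))
  have hθ : ∀ b t, (θ b).Realize t ↔ χ.Realize (Sum.elim t (fun _ => f b)) :=
    fun b t => realize_sub (Set.range f) χ (fun _ => ⟨f b, b, rfl⟩) t
  obtain ⟨e, he⟩ := hU (Set.range f) (by
    rw [← Cardinal.succ_aleph0, Order.lt_succ_iff, Cardinal.le_aleph0_iff_set_countable]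
    exact Set.countable_range f) 1 (Set.range θ) (by
    intro S hS
    choose b hb using fun s : S => hS s.2
    set m := Finset.univ.sup (fun s => (b s).n) with hm
    refine ⟨fun _ => f (W.zero m), fun s hs => ?_⟩
    rw [← show θ (b ⟨s, hs⟩) = s from hb ⟨s, hs⟩, hθ]
    have := (f.map_formula χ (Sum.elim (fun _ => W.zero m) (fun _ => b ⟨s, hs⟩))).2 (by
      rw [c1]
      intro x hx
      rw [pF_iff] at hx ⊢
      obtain ⟨a1, a2, a3⟩ := hx
      have : (b ⟨s, hs⟩).n ≤ m := Finset.le_sup (f := fun s => (b s).n) (Finset.mem_univ _)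
      exact ⟨a1, this.trans a2, a3⟩)
    convert this
    funext q
    rcases q with q | q <;> rfl)
  exact ⟨e, fun b => (c2 _).1 ((hθ b e).1 (he _ ⟨b, rfl⟩))⟩

theorem definable_pullback {L : FirstOrder.Language.{0, 0}} {M : Type} {U : Type u}
    [L.Structure M] [L.Structure U] (f : M ↪ₑ[L] U) {m : ℕ} {D : Set (Fin m → U)}
    (hD : (Set.range f).Definable L D) : (Set.univ : Set M).Definable L {c | f ∘ c ∈ D} := by
  obtain ⟨φ, rfl⟩ := Set.definable_iff_exists_formula_sum.1 hD
  choose g hg using fun a : Set.range f => a.2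
  refine Set.definable_iff_exists_formula_sum.2
    ⟨φ.relabel (Sum.map (fun a => ⟨g a, trivial⟩) id), Set.ext fun c => ?_⟩
  simp only [Set.mem_setOf_eq, Formula.realize_relabel]
  rw [← f.map_formula]
  apply iff_of_eq
  congr 1
  funext q
  rcases q with q | q
  · exact (hg q).symm
  · rfl

theorem main2' : ∃ (n m : ℕ) (φ : LL.Formula (Fin n ⊕ Fin m)),
      ∀ (U : Type u) [LL.Structure U] (f : W ↪ₑ[LL] U), Saturated LL ℵ₁ U →
        ∃ b : Fin m → U, ¬ Forks (Set.range f) φ b ∧
          ¬ ∃ p : TypeOver LL U n, DefinableOver (Set.range f) p ∧ InType (inst φ b) p := by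
  refine ⟨2, 1, pF, fun U _ f hU => ?_⟩
  obtain ⟨e, he⟩ := exists_big f hU
  refine ⟨e, not_forks f e, ?_⟩
  rintro ⟨p, hp, hpe⟩
  obtain ⟨N, _, g, x, -, h2⟩ := realize_type p
  refine nd (g.comp f) x (fun b => ?_) ?_
  · have H : UD LL
        (fun v : Fin 1 ⊕ Fin 1 → U => ∀ x : Fin 2 → U,
          pF.Realize (Sum.elim x (fun q => v (Sum.inl q))) →
            pF.Realize (Sum.elim x (fun q => v (Sum.inr q))))
        (fun v : Fin 1 ⊕ Fin 1 → N => ∀ x : Fin 2 → N,
          pF.Realize (Sum.elim x (fun q => v (Sum.inl q))) →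
            pF.Realize (Sum.elim x (fun q => v (Sum.inr q)))) := by
      refine UD.allT (UD.imp ?_ ?_)
      · refine UD.atom pF (Sum.elim Sum.inl (fun q => Sum.inr (Sum.inl q)))
          (fun v => ?_) (fun v => ?_) <;>
        · funext q
          rcases q with q | q <;> rfl
      · refine UD.atom pF (Sum.elim Sum.inl (fun q => Sum.inr (Sum.inr q)))
          (fun v => ?_) (fun v => ?_) <;>
        · funext q
          rcases q with q | q <;> rfl
    exact (H.emb g (Sum.elim e (fun _ => f b))).2 (he b) x ((h2 1 pF e).1 hpe)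
  · convert definable_pullback f (hp 2 rF) using 2
    funext c
    exact propext (h2 2 rF (f ∘ c)).symm

end Pool.Agent.H440Z
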