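import Pool.Agent.H440Z.Dec

/-!
# No definable type in the family
-/

set_option autoImplicit false
set_option linter.all false

namespace Pool.Agent.H440Z

open FirstOrder FirstOrder.Language

universe u

def RR (a b c d : W) : Prop := a.n = b.n ∧ c.n = d.n ∧ Z ({a} + {b} + ({c} + {d})) c.n

def Phi (a b e : W) : Prop := a.n = b.n ∧ e.n ≤ a.n ∧ 1 ≤ a.n ∧ a.f 0 ≠ b.f 0

theorem RR_iff {a b c d : W} : RR a b c d ↔ a.n = b.n ∧ c.n = d.n ∧ c.n ≤ a.n ∧
    ∀ t < c.n, a.f t + b.f t + (c.f t + d.f t) = 0 := by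
  simp only [RR, Z, sm_add, sm_single, Multiset.mem_add, Multiset.mem_singleton, or_imp,
    forall_and, forall_eq]
  constructor
  · rintro ⟨h1, h2, h3, h4⟩
    exact ⟨h1, h2, h3.1.1, h4⟩
  · rintro ⟨h1, h2, h3, h4⟩
    exact ⟨h1, h2, by omega, h4⟩

theorem inv_RR : Inv (fun v : Fin 2 ⊕ Fin 2 → W =>
    RR (v (Sum.inl 0)) (v (Sum.inl 1)) (v (Sum.inr 0)) (v (Sum.inr 1))) := by
  refine ((Inv.bal ({Sum.inl 0} + {Sum.inl 1})).and ((Inv.bal ({Sum.inr 0} + {Sum.inr 1})).and
    (Inv.le ({Sum.inr 0} + {Sum.inr 0})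
      ({Sum.inl 0} + {Sum.inl 1} + ({Sum.inr 0} + {Sum.inr 1})) 0 0))).congr fun v => ?_
  simp only [dp_lev, add_zero, RR, Multiset.map_add, Multiset.map_singleton, Bal_pair]
  refine and_congr_right fun h1 => and_congr_right fun h2 => ?_
  have e : ({Sum.inl 0} + {Sum.inl 1} + ({Sum.inr 0} + {Sum.inr 1}) :
      Multiset (Fin 2 ⊕ Fin 2)).map v =
      {v (Sum.inl 0)} + {v (Sum.inl 1)} + ({v (Sum.inr 0)} + {v (Sum.inr 1)}) := by
    simp only [Multiset.map_add, Multiset.map_singleton]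
  rw [dp_of_bal, e, Z_iff (by simp)]
  rw [e]
  intro n
  have a1 := Bal_pair.2 h1 n
  have a2 := Bal_pair.2 h2 n
  rw [cnt_add, a1, a2, add_zero]

theorem inv_Phi : Inv (fun v : Fin 2 ⊕ Fin 1 → W =>
    Phi (v (Sum.inl 0)) (v (Sum.inl 1)) (v (Sum.inr 0))) := by
  refine ((Inv.bal ({Sum.inl 0} + {Sum.inl 1})).and
    ((Inv.le ({Sum.inr 0} + {Sum.inr 0}) ({Sum.inl 0} + {Sum.inl 0}) 0 0).and
    ((Inv.le 0 ({Sum.inl 0} + {Sum.inl 0}) 1 0).and
    (Inv.le 0 ({Sum.inl 0} + {Sum.inl 1}) 1 0).not))).congr fun v => ?_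
  have e : ({Sum.inl 0} + {Sum.inl 1} : Multiset (Fin 2 ⊕ Fin 1)).map v =
      {v (Sum.inl 0)} + {v (Sum.inl 1)} := by
    simp only [Multiset.map_add, Multiset.map_singleton]
  simp only [dp_lev, dp_zero, add_zero, zero_add, Phi, e, Bal_pair]
  refine and_congr_right fun h1 => and_congr_right fun h2 => and_congr_right fun h3 => ?_
  rw [dp_of_bal (by rw [e]; exact Bal_pair.2 h1), e, ← Z_iff (by simp), Z_pair]
  constructor
  · exact fun h h' => h (h'.2.2 0 (by omega))
  · refine fun h h' => h ⟨h3, by omega, fun t ht => ?_⟩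
    obtain rfl : t = 0 := by omega
    exact h'

noncomputable def rF : LL.Formula (Fin 2 ⊕ Fin 2) := Classical.choose inv_RR.formula

noncomputable def pF : LL.Formula (Fin 2 ⊕ Fin 1) := Classical.choose inv_Phi.formula

theorem rF_iff (x c : Fin 2 → W) : rF.Realize (Sum.elim x c) ↔ RR (x 0) (x 1) (c 0) (c 1) :=
  Classical.choose_spec inv_RR.formula _

theorem pF_iff (x : Fin 2 → W) (c : Fin 1 → W) :
    pF.Realize (Sum.elim x c) ↔ Phi (x 0) (x 1) (c 0) :=
  Classical.choose_spec inv_Phi.formula _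

def sig (k : ℕ) (a : W) : W :=
  ⟨a.n, fun t => if t = k ∧ k < a.n then a.f t + a.f 0 else a.f t, by
    intro t ht
    rw [if_neg (by omega), a.hf t ht]⟩

theorem sm_sig_ne {k t : ℕ} (h : t ≠ k) (u : Multiset W) : sm (u.map (sig k)) t = sm u t := by
  unfold sm
  rw [Multiset.map_map]
  congr 1
  apply Multiset.map_congr rfl
  intro a _
  simp [sig, h]

theorem sm_sig_eq {k : ℕ} (u : Multiset W) (h : ∀ a ∈ u, k < a.n) :
    sm (u.map (sig k)) k = sm u k + sm u 0 := by
  unfold sm
  rw [Multiset.map_map, ← Multiset.sum_map_add]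
  congr 1
  apply Multiset.map_congr rfl
  intro a ha
  simp [sig, h a ha]

theorem Z_sig {k : ℕ} (hk : 1 ≤ k) (u : Multiset W) (ρ : ℕ) : Z (u.map (sig k)) ρ ↔ Z u ρ := by
  unfold Z
  have e : (∀ a ∈ u.map (sig k), ρ ≤ a.n) ↔ ∀ a ∈ u, ρ ≤ a.n := by
    simp only [Multiset.mem_map, forall_exists_index, and_imp, forall_apply_eq_imp_iff₂]
    rfl
  rw [e]
  refine and_congr_right fun h => ⟨fun H t ht => ?_, fun H t ht => ?_⟩
  · by_cases htk : t = k
    · subst htk
      have a1 := H t ht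
      have a2 := H 0 (by omega)
      rw [sm_sig_eq u (fun a ha => lt_of_lt_of_le ht (h a ha))] at a1
      rw [sm_sig_ne (by omega)] at a2
      rwa [a2, add_zero] at a1
    · rw [← sm_sig_ne htk]
      exact H t ht
  · by_cases htk : t = k
    · subst htk
      rw [sm_sig_eq u (fun a ha => lt_of_lt_of_le ht (h a ha)), H t ht, H 0 (by omega), add_zero]
    · rw [sm_sig_ne htk]
      exact H t ht

theorem good_sig (r : ℕ) {k : ℕ} (hk : 1 ≤ k) :
    Good r {p | p.1 = p.2} {q | q.2 = sig k q.1} := by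
  refine ⟨?_, fun s hs _ => ?_⟩
  · intro p (hp : p.1 = p.2) q (hq : q.1 = q.2) j _
    rw [hp, hq]
  · have e : s.map Prod.snd = (s.map Prod.fst).map (sig k) := by
      rw [Multiset.map_map]
      exact Multiset.map_congr rfl (fun q hq => hs q hq)
    change cut _ = cut _
    rw [e]
    unfold cut
    simp only [Z_sig hk]

theorem not_definable {D : Set (Fin 2 → W)} (hD : (Set.univ : Set W).Definable LL D)
    (h : ∀ m : ℕ, ∃ d : W, d.n = m + 1 ∧ d.f 0 ≠ 0 ∧ ![W.zero (m + 1), d] ∈ D ∧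
      ∀ d', ![W.zero (m + 1), d'] ∈ D → d' = d) : False := by
  obtain ⟨A, -, hA⟩ := Set.definable_iff_finitely_definable.1 hD
  obtain ⟨φ, rfl⟩ := Set.definable_iff_exists_formula_sum.1 hA
  obtain ⟨r, hr⟩ := qe φ
  set k := A.sup W.n + 1 with hk
  obtain ⟨d, h1, h2, h3, h4⟩ := h k
  have := (hr _ _ (good_sig r (k := k) (by omega)) (Sum.elim Subtype.val ![W.zero (k + 1), d])
    (Sum.elim Subtype.val ![W.zero (k + 1), sig k d]) (by
      rintro (⟨a, ha⟩ | i)
      · have : a.n ≤ A.sup W.n := Finset.le_sup (f := W.n) ha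
        change a = sig k a
        ext t
        · rfl
        · simp only [sig]
          rw [if_neg (by omega)]
      · fin_cases i
        · change W.zero (k + 1) = sig k (W.zero (k + 1))
          ext t
          · rfl
          · simp [sig, W.zero]
        · rfl)).1 h3
  have e := congrArg (fun a => a.f k) (h4 _ this)
  simp only [sig, true_and] at e
  rw [if_pos (by omega)] at e
  exact h2 (by simpa using e)

theorem finite_level (m : ℕ) : {d : W | d.n = m}.Finite := by
  apply Set.Finite.of_injOn (f := fun d (i : Fin m) => d.f i) (t := Set.univ)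
    (Set.mapsTo_univ _ _) _ Set.finite_univ
  intro a (ha : a.n = m) b (hb : b.n = m) hab
  ext t
  · omega
  · by_cases ht : t < m
    · exact congrFun hab ⟨t, ht⟩
    · rw [a.hf t (by omega), b.hf t (by omega)]

theorem nd {N : Type u} [LL.Structure N] (f : W ↪ₑ[LL] N) (x : Fin 2 → N)
    (hx : ∀ b : W, pF.Realize (Sum.elim x (fun _ => f b))) :
    ¬ (Set.univ : Set W).Definable LL {c : Fin 2 → W | rF.Realize (Sum.elim x (f ∘ c))} := by
  intro hD
  apply not_definable hD
  intro m
  let T := {d : W // d.n = m + 1 ∧ d.f 0 ≠ 0}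
  haveI : Finite T := ((finite_level (m + 1)).subset (fun d hd => hd.1)).to_subtype
  have H1 : UD LL
      (fun v : Unit ⊕ T → W => ∀ y : Fin 2 → W, pF.Realize (Sum.elim y (fun _ => v (Sum.inl ()))) →
        ∃ d : T, rF.Realize (Sum.elim y ![v (Sum.inl ()), v (Sum.inr d)]))
      (fun v : Unit ⊕ T → N => ∀ y : Fin 2 → N, pF.Realize (Sum.elim y (fun _ => v (Sum.inl ()))) →
        ∃ d : T, rF.Realize (Sum.elim y ![v (Sum.inl ()), v (Sum.inr d)])) := by
    refine UD.allT (UD.imp ?_ (UD.exFin fun d => ?_))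
    · refine UD.atom pF (Sum.elim Sum.inl (fun _ => Sum.inr (Sum.inl ()))) (fun v => ?_)
        (fun v => ?_) <;>
      · funext i
        rcases i with i | i <;> rfl
    · refine UD.atom rF (Sum.elim Sum.inl ![Sum.inr (Sum.inl ()), Sum.inr (Sum.inr d)])
        (fun v => ?_) (fun v => ?_) <;>
      · funext i
        rcases i with i | i
        · rfl
        · fin_cases i <;> rfl
  have H2 : UD LL
      (fun v : Fin 3 → W => ∀ y : Fin 2 → W, rF.Realize (Sum.elim y ![v 0, v 1]) →
        rF.Realize (Sum.elim y ![v 0, v 2]) → v 1 = v 2)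
      (fun v : Fin 3 → N => ∀ y : Fin 2 → N, rF.Realize (Sum.elim y ![v 0, v 1]) →
        rF.Realize (Sum.elim y ![v 0, v 2]) → v 1 = v 2) := by
    refine UD.allT (UD.imp ?_ (UD.imp ?_ (UD.eq _ _)))
    · refine UD.atom rF (Sum.elim Sum.inl ![Sum.inr 0, Sum.inr 1])
        (fun v => ?_) (fun v => ?_) <;>
      · funext i
        rcases i with i | i
        · rfl
        · fin_cases i <;> rfl
    · refine UD.atom rF (Sum.elim Sum.inl ![Sum.inr 0, Sum.inr 2])
        (fun v => ?_) (fun v => ?_) <;>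
      · funext i
        rcases i with i | i
        · rfl
        · fin_cases i <;> rfl
  have e0 : ∀ a b : W, f ∘ ![a, b] = ![f a, f b] := by
    intro a b
    funext i
    fin_cases i <;> rfl
  obtain ⟨d, hd⟩ := (H1.emb f (Sum.elim (fun _ => W.zero (m + 1)) Subtype.val)).2 (by
    intro y hy
    rw [pF_iff] at hy
    obtain ⟨a1, a2, a3, a4⟩ := hy
    have a2' : m + 1 ≤ (y 0).n := a2
    refine ⟨⟨⟨m + 1, fun t => if t < m + 1 then (y 0).f t + (y 1).f t else 0, fun t ht => by
      rw [if_neg (by omega)]⟩, rfl, ?_⟩, ?_⟩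
    · simp only [Nat.zero_lt_succ, if_true]
      revert a4
      generalize (y 0).f 0 = p
      generalize (y 1).f 0 = q
      revert p q
      decide
    · rw [rF_iff, RR_iff]
      refine ⟨a1, rfl, a2', fun t (ht : t < m + 1) => ?_⟩
      change (y 0).f t + (y 1).f t + (0 + if t < m + 1 then (y 0).f t + (y 1).f t else 0) = 0
      rw [if_pos ht, zero_add, two_add]) x (hx _)
  refine ⟨d.1, d.2.1, d.2.2, ?_, fun d' hd' => ?_⟩
  · change rF.Realize (Sum.elim x (f ∘ _))
    rw [e0]
    exact hd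
  · change rF.Realize (Sum.elim x (f ∘ _)) at hd'
    rw [e0] at hd'
    apply f.injective
    refine (H2.emb f ![W.zero (m + 1), d', d.1]).2 ?_ x hd' hd
    intro y h1 h2
    rw [rF_iff, RR_iff] at h1 h2
    obtain ⟨a1, a2, a3, a4⟩ := h1
    obtain ⟨b1, b2, b3, b4⟩ := h2
    change d' = d.1
    change m + 1 = d'.n at a2
    change m + 1 = d.1.n at b2
    ext t
    · omega
    · by_cases ht : t < m + 1
      · have c1 := a4 t ht
        have c2 := b4 t ht
        change (y 0).f t + (y 1).f t + (0 + d'.f t) = 0 at c1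
        change (y 0).f t + (y 1).f t + (0 + d.1.f t) = 0 at c2
        have c3 := c1.trans c2.symm
        simpa using c3
      · rw [d'.hf t (by omega), d.1.hf t (by omega)]

theorem realize_type {L : FirstOrder.Language.{0, 0}} {U : Type u} [L.Structure U] {n : ℕ}
    (p : MT.TypeOver L U n) : ∃ (N : Type u) (_ : L.Structure N) (g : U ↪ₑ[L] N) (x : Fin n → N),
      (∀ θ : L[[U]].Formula (Fin n), MT.InType θ p ↔
        Formula.Realize (BoundedFormula.constantsVarsEquiv θ : L.Formula (U ⊕ Fin n))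
          (Sum.elim g x)) ∧
      ∀ (m : ℕ) (φ : L.Formula (Fin n ⊕ Fin m)) (b : Fin m → U),
        MT.InType (MT.inst φ b) p ↔ φ.Realize (Sum.elim x (g ∘ b)) := by
  obtain ⟨N, v, hv⟩ := Theory.exists_modelType_is_realized_in (L.elementaryDiagram U) p
  letI : L.Structure N := (L.lhomWithConstants U).reduct N
  haveI : (lhomWithConstants L U).IsExpansionOn N := LHom.isExpansionOn_reduct _ _
  let g := ElementaryEmbedding.ofModelsElementaryDiagram L U N
  have key : ∀ θ : L[[U]].Formula (Fin n), MT.InType θ p ↔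
      Formula.Realize (BoundedFormula.constantsVarsEquiv θ : L.Formula (U ⊕ Fin n))
        (Sum.elim g v) := by
    intro θ
    unfold MT.InType
    rw [← hv, Theory.CompleteType.formula_mem_typeOf]
    exact BoundedFormula.realize_constantsVarsEquiv.symm
  refine ⟨N, inferInstance, g, v, key, fun m φ b => ?_⟩
  rw [key, MT.inst, Equiv.apply_symm_apply, Formula.realize_relabel]
  apply iff_of_eq
  congr 1
  funext i
  rcases i with i | i <;> rfl

end Pool.Agent.H440Z
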