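import Pool.Agent.H440Z.Main2

/-!
# Existence of an `ℵ₁`-saturated elementary extension
-/

set_option autoImplicit false
set_option linter.all false

namespace Pool.Agent.H440Z

open FirstOrder FirstOrder.Language MT Cardinal Filter

universe u

theorem countable_rel (n : ℕ) : Countable (LL.Relations n) := by
  have h1 : ∀ r, {S : (Fin n → W) → Prop | InvP r S}.Finite := by
    intro r
    let pat : (Fin n → W) →
        ((Finset (Fin n) ⊕ Fin n) × (Finset (Fin n) ⊕ Fin n) × Fin (r + 1) → Prop) :=
      fun v p => dp (nm p.1) v + p.2.2 ≤ dp (nm p.2.1) v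
    have key : ∀ S, InvP r S → ∀ v v', pat v = pat v' → (S v ↔ S v') := by
      intro S hS v v' h
      refine hS _ _ (agree_good (r := r) (v := v) (v' := v') fun ν ν' k hk => ?_) v v'
        (fun i => ⟨i, rfl⟩)
      exact iff_of_eq (congrFun h (ν, ν', ⟨k, by omega⟩))
    apply Set.Finite.of_injOn (f := fun S => pat '' {v | S v}) (t := Set.univ)
      (Set.mapsTo_univ _ _) _ Set.finite_univ
    intro S hS T hT h
    simp only at h
    funext v
    apply propext
    constructor
    · intro hv
      obtain ⟨v', h1, h2⟩ : pat v ∈ pat '' {v | T v} := h ▸ ⟨v, hv, rfl⟩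
      exact (key T hT v' v h2).1 h1
    · intro hv
      obtain ⟨v', h1, h2⟩ : pat v ∈ pat '' {v | S v} := h.symm ▸ ⟨v, hv, rfl⟩
      exact (key S hS v' v h2).1 h1
  have h2 : {S : (Fin n → W) → Prop | Inv S}.Countable := by
    have e : {S : (Fin n → W) → Prop | Inv S} = ⋃ r, {S | InvP r S} := by
      ext S
      simp [Inv]
    rw [e]
    exact Set.countable_iUnion fun r => (h1 r).countable
  exact h2.to_subtype

instance : Countable LL.Symbols := by
  have := countable_rel
  have : ∀ n, Countable (LL.Functions n) := fun n => inferInstanceAs (Countable Empty)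
  unfold Language.Symbols
  infer_instance

theorem exists_saturated (L : FirstOrder.Language.{0, 0}) [Countable L.Symbols] (M : Type)
    [L.Structure M] [Nonempty M] :
    ∃ (U : Type u) (_ : L.Structure U) (_ : M ↪ₑ[L] U), Saturated L ℵ₁ U := by
  classical
  let 𝒰 : Ultrafilter (ULift.{u} ℕ) := hyperfilter _
  let U : Type u := (𝒰 : Filter (ULift.{u} ℕ)).Product (fun _ => M)
  let c : (ULift.{u} ℕ → M) → U := fun g => (g : (𝒰 : Filter (ULift.{u} ℕ)).Product (fun _ => M))
  have los : ∀ {β : Type u} (φ : L.Formula β) (x : β → ULift.{u} ℕ → M),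
      (φ.Realize fun i => c (x i)) ↔ ∀ᶠ a in (𝒰 : Filter _), φ.Realize fun i => x i a :=
    fun φ x => Ultraproduct.realize_formula_cast φ x
  have hc : Function.Surjective c := Quotient.mk_surjective
  refine ⟨U, inferInstance, ⟨fun m => c (fun _ => m), fun n φ x => ?_⟩, ?_⟩
  · refine (Ultraproduct.realize_formula_cast (u := 𝒰) (M := fun _ => M) φ
      (fun i _ => x i)).trans ?_
    simp
  intro A hA n S hS
  rw [← Cardinal.succ_aleph0, Order.lt_succ_iff, Cardinal.le_aleph0_iff_set_countable] at hA
  haveI : Countable A := hA.to_subtype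
  rcases S.eq_empty_or_nonempty with rfl | hne
  · exact ⟨fun _ => Classical.arbitrary _, by simp⟩
  obtain ⟨θ, rfl⟩ := (Set.to_countable S).exists_eq_range hne
  choose rep hrep using fun a : A => hc a
  let θ' : ℕ → L.Formula (A ⊕ Fin n) := fun i => BoundedFormula.constantsVarsEquiv (θ i)
  have hθ : ∀ i (x : Fin n → ULift.{u} ℕ → M), (θ i).Realize (fun q => c (x q)) ↔
      ∀ᶠ a in (𝒰 : Filter _), (θ' i).Realize (Sum.elim (fun b => rep b a) (fun q => x q a)) := by
    intro i x
    refine BoundedFormula.realize_constantsVarsEquiv.symm.trans ?_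
    have := los (θ' i) (Sum.elim rep x)
    have e1 : (fun q => c (Sum.elim rep x q)) =
        Sum.elim (fun a : A => ((L.con a : L[[A]].Constants) : U)) (fun q => c (x q)) := by
      funext q
      rcases q with q | q
      · exact hrep q
      · rfl
    have e2 : ∀ a, (fun q => Sum.elim rep x q a) =
        Sum.elim (fun b => rep b a) (fun q => x q a) := by
      intro a
      funext q
      rcases q with q | q <;> rfl
    simp only [e1, e2] at this
    exact this
  let E : ℕ → ULift.{u} ℕ → Prop := fun N a => ∃ y : Fin n → M, ∀ i < N,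
    (θ' i).Realize (Sum.elim (fun b => rep b a) y)
  have hE : ∀ N, ∀ᶠ a in (𝒰 : Filter _), E N a := by
    intro N
    obtain ⟨x, hx⟩ := hS ((Finset.range N).image θ) (by
      intro s hs
      obtain ⟨i, -, rfl⟩ := Finset.mem_image.1 (Finset.mem_coe.1 hs)
      exact ⟨i, rfl⟩)
    choose x' hx' using fun q => hc (x q)
    have : ∀ i ∈ Finset.range N, ∀ᶠ a in (𝒰 : Filter _),
        (θ' i).Realize (Sum.elim (fun b => rep b a) (fun q => x' q a)) := by
      intro i hi
      rw [← hθ]
      simp only [hx']
      exact hx _ (Finset.mem_image_of_mem _ hi)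
    filter_upwards [(Filter.eventually_all_finset _).2 this] with a ha
    exact ⟨_, fun i hi => ha i (Finset.mem_range.2 hi)⟩
  have hG : ∀ a : ULift.{u} ℕ, E (Nat.findGreatest (fun N => E N a) a.down) a := fun a =>
    Nat.findGreatest_spec (P := fun N => E N a) (Nat.zero_le _)
      ⟨fun _ => Classical.arbitrary _, by simp⟩
  choose y hy using hG
  refine ⟨fun q => c (fun a => y a q), ?_⟩
  rintro _ ⟨i, rfl⟩
  rw [hθ]
  have hbig : ∀ᶠ a in (𝒰 : Filter (ULift.{u} ℕ)), i + 1 ≤ a.down := by
    apply hyperfilter_le_cofinite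
    rw [Filter.mem_cofinite]
    refine ((Set.finite_Iio (i + 1)).image ULift.up).subset fun a ha => ⟨a.down, ?_, rfl⟩
    simpa using ha
  filter_upwards [hE (i + 1), hbig] with a h1 h2
  exact hy a i (Nat.le_findGreatest (P := fun N => E N a) h2 h1)

theorem main3 : ∃ (L : FirstOrder.Language.{0, 0}) (M : Type) (_ : L.Structure M)
    (_ : Nonempty M) (_ : Countable M), DpMinimal.{u} L M ∧
    (∃ (U : Type u) (_ : L.Structure U) (_ : M ↪ₑ[L] U), Saturated L ℵ₁ U) ∧
    ∃ (n m : ℕ) (φ : L.Formula (Fin n ⊕ Fin m)),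
      ∀ (U : Type u) [L.Structure U] (f : M ↪ₑ[L] U), Saturated L ℵ₁ U →
        ∃ b : Fin m → U, ¬ Forks (Set.range f) φ b ∧
          ¬ ∃ p : TypeOver L U n, DefinableOver (Set.range f) p ∧ InType (inst φ b) p :=
  ⟨LL, W, inferInstance, inferInstance, inferInstance, dpMinimal_W, exists_saturated LL W,
    main2'⟩

end Pool.Agent.H440Z
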