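import Mathlib

/-!
# Binary strings with the difference relation: back-and-forth data
-/

set_option autoImplicit false
set_option linter.all false

namespace Pool.Agent.H440Z

/-- finite binary strings -/
@[ext] structure W where
  n : ℕ
  f : ℕ → ZMod 2
  hf : ∀ t, n ≤ t → f t = 0

/-- the zero string of a given length -/
def W.zero (n : ℕ) : W := ⟨n, fun _ => 0, fun _ _ => rfl⟩

instance : Nonempty W := ⟨W.zero 0⟩

noncomputable instance : DecidableEq W := Classical.decEq W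

def sm (u : Multiset W) (t : ℕ) : ZMod 2 := (u.map (fun a => a.f t)).sum

def cnt (u : Multiset W) (n : ℕ) : ZMod 2 := (u.map (fun a => if a.n = n then (1 : ZMod 2) else 0)).sum

def Bal (u : Multiset W) : Prop := ∀ n, cnt u n = 0

def Z (u : Multiset W) (ρ : ℕ) : Prop := (∀ a ∈ u, ρ ≤ a.n) ∧ ∀ t < ρ, sm u t = 0

noncomputable def cut (u : Multiset W) : ℕ := sSup {ρ | Z u ρ}

@[simp] lemma sm_add (u v : Multiset W) (t : ℕ) : sm (u + v) t = sm u t + sm v t := by
  simp [sm]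

@[simp] lemma sm_zero (t : ℕ) : sm 0 t = 0 := by simp [sm]

@[simp] lemma sm_single (a : W) (t : ℕ) : sm {a} t = a.f t := by simp [sm]

@[simp] lemma cnt_add (u v : Multiset W) (t : ℕ) : cnt (u + v) t = cnt u t + cnt v t := by
  simp [cnt]

@[simp] lemma cnt_zero (t : ℕ) : cnt 0 t = 0 := by simp [cnt]

@[simp] lemma cnt_single (a : W) (t : ℕ) : cnt {a} t = if a.n = t then 1 else 0 := by simp [cnt]

lemma two_add (a : ZMod 2) : a + a = 0 := by
  revert a; decide

lemma zm_cancel {a b c : ZMod 2} (h1 : a + c = 0) (h2 : b + c = 0) : a + b = 0 := by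
  revert a b c; decide

lemma zm_ne {a b c : ZMod 2} (h1 : a + c ≠ 0) (h2 : b + c ≠ 0) : a + b = 0 := by
  revert a b c; decide

lemma Bal_zero : Bal 0 := fun _ => by simp

lemma Bal_cancel {a b c : Multiset W} (h1 : Bal (a + c)) (h2 : Bal (b + c)) : Bal (a + b) := by
  intro n
  have e1 := h1 n
  have e2 := h2 n
  simp only [cnt_add] at *
  exact zm_cancel e1 e2

lemma Bal_double (u : Multiset W) (x : W) : Bal (u + {x} + {x}) ↔ Bal u := by
  unfold Bal
  refine forall_congr' fun n => ?_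
  rw [cnt_add, cnt_add, add_assoc, two_add, add_zero]

lemma Z_mono {u : Multiset W} {ρ ρ' : ℕ} (h : Z u ρ) (hle : ρ' ≤ ρ) : Z u ρ' :=
  ⟨fun a ha => hle.trans (h.1 a ha), fun t ht => h.2 t (lt_of_lt_of_le ht hle)⟩

lemma Z_zero (u : Multiset W) : Z u 0 := ⟨fun _ _ => Nat.zero_le _, fun _ ht => absurd ht (by omega)⟩

lemma Z_cancel {a b c : Multiset W} {ρ : ℕ} (h1 : Z (a + c) ρ) (h2 : Z (b + c) ρ) :
    Z (a + b) ρ := by
  refine ⟨fun x hx => ?_, fun t ht => ?_⟩
  · rcases Multiset.mem_add.1 hx with h | h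
    · exact h1.1 x (Multiset.mem_add.2 (Or.inl h))
    · exact h2.1 x (Multiset.mem_add.2 (Or.inl h))
  · have e1 := h1.2 t ht
    have e2 := h2.2 t ht
    simp only [sm_add] at *
    exact zm_cancel e1 e2

lemma Z_double (u : Multiset W) (x : W) (ρ : ℕ) : Z (u + {x} + {x}) ρ ↔ Z u ρ ∧ ρ ≤ x.n := by
  unfold Z
  constructor
  · rintro ⟨h1, h2⟩
    refine ⟨⟨fun a ha => h1 a (by simp [ha]), fun t ht => ?_⟩, h1 x (by simp)⟩
    have := h2 t ht
    rwa [sm_add, sm_add, add_assoc, two_add, add_zero] at this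
  · rintro ⟨⟨h1, h2⟩, h3⟩
    refine ⟨fun a ha => ?_, fun t ht => ?_⟩
    · simp only [Multiset.mem_add, Multiset.mem_singleton] at ha
      rcases ha with (ha | rfl) | rfl
      · exact h1 a ha
      · exact h3
      · exact h3
    · rw [sm_add, sm_add, add_assoc, two_add, add_zero]
      exact h2 t ht

lemma Z_iff {u : Multiset W} (hu : u ≠ 0) (ρ : ℕ) : Z u ρ ↔ ρ ≤ cut u := by
  obtain ⟨a, ha⟩ := Multiset.exists_mem_of_ne_zero hu
  have hb : BddAbove {ρ | Z u ρ} := ⟨a.n, fun ρ hρ => hρ.1 a ha⟩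
  constructor
  · intro h
    exact le_csSup hb h
  · intro h
    have : Z u (cut u) := Nat.sSup_mem (s := {ρ | Z u ρ}) ⟨0, Z_zero u⟩ hb
    exact Z_mono this h

lemma cut_zero : cut 0 = 0 := by
  have : {ρ | Z 0 ρ} = Set.univ := by
    ext ρ
    simp [Z]
  unfold cut
  rw [this]
  exact Nat.sSup_of_not_bddAbove not_bddAbove_univ

lemma cut_eq {u : Multiset W} (hu : u ≠ 0) {p : ℕ} (h : ∀ ρ, Z u ρ ↔ ρ ≤ p) : cut u = p := by
  apply le_antisymm
  · exact (h _).1 ((Z_iff hu _).2 le_rfl)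
  · exact (Z_iff hu _).1 ((h _).2 le_rfl)

lemma cut_double_zero (x : W) : cut (0 + {x} + {x}) = x.n := by
  apply cut_eq (by simp)
  intro ρ
  rw [Z_double]
  simp [Z]

lemma cut_double {u : Multiset W} (hu : u ≠ 0) (x : W) :
    cut (u + {x} + {x}) = min (cut u) x.n := by
  apply cut_eq (by simp)
  intro ρ
  rw [Z_double, Z_iff hu, le_min_iff]

lemma cut_le {u : Multiset W} {a : W} (ha : a ∈ u) : cut u ≤ a.n := by
  have hu : u ≠ 0 := by rintro rfl; simp at ha
  exact ((Z_iff hu _).2 le_rfl).1 a ha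

/-- partial isomorphisms of `(ℕ, <)` up to distance `r` -/
def Iso (r : ℕ) (P : Set (ℕ × ℕ)) : Prop :=
  ∀ p ∈ P, ∀ q ∈ P, ∀ k ≤ r, (p.1 + k ≤ q.1 ↔ p.2 + k ≤ q.2)

lemma Iso.mono {r r' : ℕ} {P : Set (ℕ × ℕ)} (h : Iso r P) (hr : r' ≤ r) : Iso r' P :=
  fun p hp q hq k hk => h p hp q hq k (hk.trans hr)

lemma Iso.le {r : ℕ} {P : Set (ℕ × ℕ)} (h : Iso r P) {a b c d : ℕ} (h1 : (a, b) ∈ P)
    (h2 : (c, d) ∈ P) : a ≤ c ↔ b ≤ d := by
  simpa using h _ h1 _ h2 0 (Nat.zero_le _)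

lemma Iso.eq {r : ℕ} {P : Set (ℕ × ℕ)} (h : Iso r P) {a b c d : ℕ} (h1 : (a, b) ∈ P)
    (h2 : (c, d) ∈ P) : a = c ↔ b = d := by
  have := h.le h1 h2
  have := h.le h2 h1
  omega

lemma Iso.min {r : ℕ} {P : Set (ℕ × ℕ)} (h : Iso r P) {a b c d : ℕ} (h1 : (a, b) ∈ P)
    (h2 : (c, d) ∈ P) : (min a c, min b d) ∈ P := by
  by_cases hac : a ≤ c
  · rw [min_eq_left hac, min_eq_left ((h.le h1 h2).1 hac)]
    exact h1
  · have hca : c ≤ a := by omega
    rw [min_eq_right hca, min_eq_right ((h.le h2 h1).1 hca)]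
    exact h2

lemma Iso.insert {r : ℕ} {P : Set (ℕ × ℕ)} (h : Iso r P) {w w' : ℕ}
    (H : ∀ p ∈ P, ∀ k ≤ r, (p.1 + k ≤ w ↔ p.2 + k ≤ w') ∧ (w + k ≤ p.1 ↔ w' + k ≤ p.2)) :
    Iso r (insert (w, w') P) := by
  intro p hp q hq k hk
  rcases hp with rfl | hp <;> rcases hq with rfl | hq
  · simp
  · exact (H q hq k hk).2
  · exact (H p hp k hk).1
  · exact h p hp q hq k hk

lemma ext_nat {r : ℕ} {P : Set (ℕ × ℕ)} (h : Iso (2 * r + 2) P) (h0 : (0, 0) ∈ P) (w : ℕ) :
    ∃ w', Iso r (insert (w, w') P) := by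
  classical
  have hex : ∃ d, ∃ p ∈ P, p.1 + d = w := ⟨w, (0, 0), h0, by simp⟩
  obtain ⟨p, hp, hpd⟩ := Nat.find_spec hex
  set d := Nat.find hex with hd
  have hmin : ∀ q ∈ P, q.1 ≤ w → q.1 ≤ p.1 := by
    intro q hq hqw
    have : d ≤ w - q.1 := Nat.find_min' hex ⟨q, hq, by omega⟩
    omega
  have hiso := h.mono (r' := r) (by omega)
  by_cases hup : ∃ e, ∃ q ∈ P, w + e = q.1
  · obtain ⟨q, hq, hqe⟩ := Nat.find_spec hup
    set e := Nat.find hup with he
    have hmax : ∀ q' ∈ P, w ≤ q'.1 → q.1 ≤ q'.1 := by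
      intro q' hq' hqw
      have : e ≤ q'.1 - w := Nat.find_min' hup ⟨q', hq', by omega⟩
      omega
    by_cases hd1 : d ≤ r + 1
    · refine ⟨p.2 + d, hiso.insert fun z hz k hk => ?_⟩
      have a1 := h p hp z hz (d + k) (by omega)
      have a2 := h z hz p hp (k - d) (by omega)
      have a3 := h p hp z hz (d + 1 - k) (by omega)
      have a4 := hmin z hz
      constructor <;> omega
    · by_cases he1 : e ≤ r + 1
      · have a0 := h p hp q hq e (by omega)
        refine ⟨q.2 - e, hiso.insert fun z hz k hk => ?_⟩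
        have a1 := h z hz q hq (e + k) (by omega)
        have a2 := h q hq z hz (k - e) (by omega)
        have a3 := h z hz q hq (e + 1 - k) (by omega)
        have a4 := hmax z hz
        constructor <;> omega
      · have a0 := h p hp q hq (2 * r + 2) (by omega)
        refine ⟨p.2 + (r + 1), hiso.insert fun z hz k hk => ?_⟩
        have a1 := h z hz p hp 0 (by omega)
        have a2 := h q hq z hz 0 (by omega)
        have a4 := hmax z hz
        have a5 := hmin z hz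
        constructor <;> omega
  · have hall : ∀ q ∈ P, q.1 < w := by
      intro q hq
      by_contra hc
      exact hup ⟨q.1 - w, q, hq, by omega⟩
    by_cases hd1 : d ≤ r + 1
    · refine ⟨p.2 + d, hiso.insert fun z hz k hk => ?_⟩
      have a1 := h p hp z hz (d + k) (by omega)
      have a2 := h z hz p hp (k - d) (by omega)
      have a3 := h p hp z hz (d + 1 - k) (by omega)
      have a4 := hmin z hz
      constructor <;> omega
    · refine ⟨p.2 + (r + 1), hiso.insert fun z hz k hk => ?_⟩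
      have a1 := h z hz p hp 0 (by omega)
      have a4 := hall z hz
      have a5 := hmin z hz
      constructor <;> omega

end Pool.Agent.H440Z
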