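import Mathlib

/-!
# Predicates on two structures given by one formula
-/

set_option autoImplicit false
set_option linter.all false

namespace Pool.Agent.H440Z

open FirstOrder FirstOrder.Language

universe u v

variable {L : FirstOrder.Language.{0, 0}} {M : Type u} {N : Type v} [L.Structure M] [L.Structure N]

/-- `P` on `M` and `Q` on `N` are defined by the same formula -/
def UD (L : FirstOrder.Language.{0, 0}) {M : Type u} {N : Type v} [L.Structure M] [L.Structure N]
    {α : Type} (P : (α → M) → Prop) (Q : (α → N) → Prop) : Prop :=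
  ∃ φ : L.Formula α, (∀ v, φ.Realize v ↔ P v) ∧ (∀ v, φ.Realize v ↔ Q v)

namespace UD

variable {α β : Type} {P P' : (α → M) → Prop} {Q Q' : (α → N) → Prop}

theorem and (h : UD L P Q) (h' : UD L P' Q') :
    UD L (fun v => P v ∧ P' v) (fun v => Q v ∧ Q' v) := by
  obtain ⟨φ, h1, h2⟩ := h
  obtain ⟨ψ, h3, h4⟩ := h'
  exact ⟨φ ⊓ ψ, fun v => by simp [h1, h3], fun v => by simp [h2, h4]⟩

theorem or (h : UD L P Q) (h' : UD L P' Q') :
    UD L (fun v => P v ∨ P' v) (fun v => Q v ∨ Q' v) := by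
  obtain ⟨φ, h1, h2⟩ := h
  obtain ⟨ψ, h3, h4⟩ := h'
  exact ⟨φ ⊔ ψ, fun v => by simp [h1, h3], fun v => by simp [h2, h4]⟩

theorem imp (h : UD L P Q) (h' : UD L P' Q') :
    UD L (fun v => P v → P' v) (fun v => Q v → Q' v) := by
  obtain ⟨φ, h1, h2⟩ := h
  obtain ⟨ψ, h3, h4⟩ := h'
  exact ⟨φ.imp ψ, fun v => by simp [h1, h3], fun v => by simp [h2, h4]⟩

theorem iff (h : UD L P Q) (h' : UD L P' Q') :
    UD L (fun v => P v ↔ P' v) (fun v => Q v ↔ Q' v) := by
  obtain ⟨φ, h1, h2⟩ := h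
  obtain ⟨ψ, h3, h4⟩ := h'
  exact ⟨φ.iff ψ, fun v => by simp [h1, h3], fun v => by simp [h2, h4]⟩

theorem not (h : UD L P Q) : UD L (fun v => ¬ P v) (fun v => ¬ Q v) := by
  obtain ⟨φ, h1, h2⟩ := h
  exact ⟨φ.not, fun v => by simp [h1], fun v => by simp [h2]⟩

theorem const (p : Prop) : UD L (fun _ : α → M => p) (fun _ : α → N => p) := by
  by_cases hp : p
  · exact ⟨⊤, fun v => by simp [hp], fun v => by simp [hp]⟩
  · exact ⟨⊥, fun v => by simp [hp], fun v => by simp [hp]⟩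

theorem eq (a b : α) : UD L (fun v : α → M => v a = v b) (fun v : α → N => v a = v b) :=
  ⟨Term.equal (Term.var a) (Term.var b), fun v => by simp, fun v => by simp⟩

theorem atom (φ : L.Formula β) (g : β → α) {T : (α → M) → β → M} {T' : (α → N) → β → N}
    (h : ∀ v, T v = v ∘ g) (h' : ∀ v, T' v = v ∘ g) :
    UD L (fun v => φ.Realize (T v)) (fun v => φ.Realize (T' v)) :=
  ⟨φ.relabel g, fun v => by simp only [h, Formula.realize_relabel],
    fun v => by simp only [h', Formula.realize_relabel]⟩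

theorem congr (h : UD L P Q) (h1 : ∀ v, P' v ↔ P v) (h2 : ∀ v, Q' v ↔ Q v) : UD L P' Q' := by
  obtain ⟨φ, h3, h4⟩ := h
  exact ⟨φ, fun v => by rw [h3, h1], fun v => by rw [h4, h2]⟩

theorem comp {P : (β → M) → Prop} {Q : (β → N) → Prop} (h : UD L P Q) (g : β → α) :
    UD L (fun v : α → M => P (v ∘ g)) (fun v : α → N => Q (v ∘ g)) := by
  obtain ⟨φ, h3, h4⟩ := h
  exact ⟨φ.relabel g, fun v => by rw [Formula.realize_relabel, h3],
    fun v => by rw [Formula.realize_relabel, h4]⟩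

theorem allFin {K : Type} [Finite K] {P : K → (α → M) → Prop} {Q : K → (α → N) → Prop}
    (h : ∀ k, UD L (P k) (Q k)) : UD L (fun v => ∀ k, P k v) (fun v => ∀ k, Q k v) := by
  choose φ h1 h2 using h
  exact ⟨Formula.iInf φ, fun v => by simp [h1], fun v => by simp [h2]⟩

theorem exFin {K : Type} [Finite K] {P : K → (α → M) → Prop} {Q : K → (α → N) → Prop}
    (h : ∀ k, UD L (P k) (Q k)) : UD L (fun v => ∃ k, P k v) (fun v => ∃ k, Q k v) := by
  choose φ h1 h2 using h
  exact ⟨Formula.iSup φ, fun v => by simp [h1], fun v => by simp [h2]⟩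

theorem allT [Finite β] {P : (β → M) → (α → M) → Prop} {Q : (β → N) → (α → N) → Prop}
    (h : UD L (fun v : β ⊕ α → M => P (fun i => v (Sum.inl i)) (fun i => v (Sum.inr i)))
      (fun v : β ⊕ α → N => Q (fun i => v (Sum.inl i)) (fun i => v (Sum.inr i)))) :
    UD L (fun v => ∀ x, P x v) (fun v => ∀ x, Q x v) := by
  obtain ⟨φ, h1, h2⟩ := h
  refine ⟨Formula.iAlls β (φ.relabel Sum.swap), fun v => ?_, fun v => ?_⟩
  · simp only [Formula.realize_iAlls, Formula.realize_relabel, h1]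
    rfl
  · simp only [Formula.realize_iAlls, Formula.realize_relabel, h2]
    rfl

theorem exT [Finite β] {P : (β → M) → (α → M) → Prop} {Q : (β → N) → (α → N) → Prop}
    (h : UD L (fun v : β ⊕ α → M => P (fun i => v (Sum.inl i)) (fun i => v (Sum.inr i)))
      (fun v : β ⊕ α → N => Q (fun i => v (Sum.inl i)) (fun i => v (Sum.inr i)))) :
    UD L (fun v => ∃ x, P x v) (fun v => ∃ x, Q x v) := by
  obtain ⟨φ, h1, h2⟩ := h
  refine ⟨Formula.iExs β (φ.relabel Sum.swap), fun v => ?_, fun v => ?_⟩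
  · simp only [Formula.realize_iExs, Formula.realize_relabel, h1]
    rfl
  · simp only [Formula.realize_iExs, Formula.realize_relabel, h2]
    rfl

theorem all {P : M → (α → M) → Prop} {Q : N → (α → N) → Prop}
    (h : UD L (fun v : Unit ⊕ α → M => P (v (Sum.inl ())) (fun i => v (Sum.inr i)))
      (fun v : Unit ⊕ α → N => Q (v (Sum.inl ())) (fun i => v (Sum.inr i)))) :
    UD L (fun v => ∀ x, P x v) (fun v => ∀ x, Q x v) := by
  have := allT (L := L) (β := Unit) (P := fun x v => P (x ()) v) (Q := fun x v => Q (x ()) v) h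
  refine this.congr (fun v => ⟨fun h x => h _, fun h x => h (fun _ => x)⟩)
    (fun v => ⟨fun h x => h _, fun h x => h (fun _ => x)⟩)

theorem ex {P : M → (α → M) → Prop} {Q : N → (α → N) → Prop}
    (h : UD L (fun v : Unit ⊕ α → M => P (v (Sum.inl ())) (fun i => v (Sum.inr i)))
      (fun v : Unit ⊕ α → N => Q (v (Sum.inl ())) (fun i => v (Sum.inr i)))) :
    UD L (fun v => ∃ x, P x v) (fun v => ∃ x, Q x v) := by
  have := exT (L := L) (β := Unit) (P := fun x v => P (x ()) v) (Q := fun x v => Q (x ()) v) h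
  refine this.congr (fun v => ⟨fun ⟨x, h⟩ => ⟨fun _ => x, h⟩, fun ⟨x, h⟩ => ⟨_, h⟩⟩)
    (fun v => ⟨fun ⟨x, h⟩ => ⟨fun _ => x, h⟩, fun ⟨x, h⟩ => ⟨_, h⟩⟩)

theorem transfer [Finite α] (h : UD L P Q) (e : N ≅[L] M) (H : ∀ v, P v) : ∀ v, Q v := by
  obtain ⟨φ, h1, h2⟩ := h
  let ψ : L.Sentence := Formula.iAlls α (φ.relabel Sum.inr : L.Formula (Empty ⊕ α))
  have a1 : M ⊨ ψ := by
    simp only [ψ, Sentence.Realize, Formula.realize_iAlls, Formula.realize_relabel]
    intro v
    exact (h1 _).2 (H _)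
  have a2 : N ⊨ ψ := (elementarilyEquivalent_iff.1 e ψ).2 a1
  simp only [ψ, Sentence.Realize, Formula.realize_iAlls, Formula.realize_relabel] at a2
  intro v
  exact (h2 _).1 (a2 v)

theorem emb (h : UD L P Q) (f : M ↪ₑ[L] N) (v : α → M) : Q (f ∘ v) ↔ P v := by
  obtain ⟨φ, h1, h2⟩ := h
  rw [← h1, ← h2, f.map_formula]

end UD

end Pool.Agent.H440Z
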